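import Mathlib

/-!
# Unipotence at a vector and Heisenberg relations
-/

open scoped BigOperators
open Finset

namespace Pool.Agent.TOR.H56

universe u v

variable {k : Type u} [Field k] {V : Type v} [AddCommGroup V] [Module k V]

/-- `A` is nilpotent at the vector `z`. -/
def Kl (A : Module.End k V) (z : V) : Prop := ∃ n : ℕ, (A ^ n) z = 0

namespace Kl

variable {A B : Module.End k V} {z w : V}

theorem zero : Kl A (0 : V) := ⟨0, by simp⟩

theorem ge {n m : ℕ} (h : (A ^ n) z = 0) (hm : n ≤ m) : (A ^ m) z = 0 := by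
  obtain ⟨d, rfl⟩ := Nat.exists_eq_add_of_le hm
  rw [add_comm, pow_add, Module.End.mul_apply, h, map_zero]

theorem vadd (h1 : Kl A z) (h2 : Kl A w) : Kl A (z + w) := by
  obtain ⟨n, hn⟩ := h1
  obtain ⟨m, hm⟩ := h2
  refine ⟨max n m, ?_⟩
  rw [map_add, ge hn (le_max_left _ _), ge hm (le_max_right _ _), add_zero]

theorem add (hc : Commute A B) (h1 : Kl A z) (h2 : Kl B z) : Kl (A + B) z := by
  obtain ⟨n, hn⟩ := h1
  obtain ⟨m, hm⟩ := h2
  refine ⟨n + m, ?_⟩
  rw [hc.add_pow, LinearMap.sum_apply]
  apply sum_eq_zero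
  intro i hi
  rcases Nat.lt_or_ge i n with h | h
  · have h3 : A ^ i * B ^ (n + m - i) * ((n + m).choose i : Module.End k V) =
        A ^ i * ((n + m).choose i : Module.End k V) * B ^ (n + m - i) := by
      rw [mul_assoc, mul_assoc, ((Nat.commute_cast _ _).eq)]
    rw [h3, Module.End.mul_apply, ge hm (by omega), map_zero]
  · have h3 : A ^ i * B ^ (n + m - i) * ((n + m).choose i : Module.End k V) =
        ((n + m).choose i : Module.End k V) * B ^ (n + m - i) * A ^ i := by
      rw [(hc.pow_pow i (n + m - i)).eq, (Nat.commute_cast _ _).eq, ← mul_assoc]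
    rw [h3, Module.End.mul_apply, ge hn h, map_zero]

theorem map (hc : Commute A B) (h1 : Kl A z) : Kl A (B z) := by
  obtain ⟨n, hn⟩ := h1
  refine ⟨n, ?_⟩
  rw [← Module.End.mul_apply, (hc.pow_left n).eq, Module.End.mul_apply, hn, map_zero]

theorem mul_right (hc : Commute A B) (h1 : Kl A z) : Kl (B * A) z := by
  obtain ⟨n, hn⟩ := h1
  refine ⟨n, ?_⟩
  rw [hc.symm.mul_pow, Module.End.mul_apply, hn, map_zero]

theorem mul_left (hc : Commute A B) (h1 : Kl A z) : Kl (A * B) z := by
  rw [hc.eq]
  exact mul_right hc h1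

theorem neg (h1 : Kl A z) : Kl (-A) z := by
  obtain ⟨n, hn⟩ := h1
  refine ⟨n, ?_⟩
  rcases Nat.even_or_odd n with h | h
  · rw [h.neg_pow, hn]
  · rw [h.neg_pow, LinearMap.neg_apply, hn, neg_zero]

theorem sub (hc : Commute A B) (h1 : Kl A z) (h2 : Kl B z) : Kl (A - B) z := by
  rw [sub_eq_add_neg]
  exact add hc.neg_right h1 h2.neg

theorem of_apply {n : ℕ} (h : Kl A ((A ^ n) z)) : Kl A z := by
  obtain ⟨m, hm⟩ := h
  exact ⟨m + n, by rw [pow_add]; exact hm⟩

/-- the last nonzero vector -/
theorem last (h : Kl A z) (hz : z ≠ 0) : ∃ n : ℕ, (A ^ n) z ≠ 0 ∧ A ((A ^ n) z) = 0 := by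
  classical
  have h1 := Nat.find_spec h
  have h2 : Nat.find h ≠ 0 := by
    intro h0
    rw [h0] at h1
    exact hz (by simpa using h1)
  obtain ⟨n, hn⟩ := Nat.exists_eq_succ_of_ne_zero h2
  refine ⟨n, Nat.find_min h (by omega), ?_⟩
  rw [← Module.End.mul_apply, ← pow_succ', ← Nat.succ_eq_add_one, ← hn]
  exact h1

end Kl

/-- `1 + A + ... + A ^ (D - 1)` -/
def ss (A : Module.End k V) (D : ℕ) : Module.End k V := ∑ i ∈ range D, A ^ i

theorem ss_mul (A : Module.End k V) (D : ℕ) : ss A D * (A - 1) = A ^ D - 1 := geom_sum_mul A D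

theorem commute_ss {A B : Module.End k V} (h : Commute A B) (D : ℕ) : Commute (ss A D) B :=
  Commute.sum_left _ _ _ fun i _ => h.pow_left i

theorem ss_fix {A : Module.End k V} {z : V} (h : A z = z) (D : ℕ) : ss A D z = (D : k) • z := by
  have h1 : ∀ i : ℕ, (A ^ i) z = z := by
    intro i
    induction i with
    | zero => simp
    | succ i ih => rw [pow_succ, Module.End.mul_apply, h, ih]
  unfold ss
  rw [LinearMap.sum_apply, sum_congr rfl fun i _ => h1 i, sum_const, card_range, Nat.cast_smul_eq_nsmul]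

theorem kl_pow {A : Module.End k V} {z : V} (h : Kl (A - 1) z) (D : ℕ) : Kl (A ^ D - 1) z := by
  rw [← ss_mul]
  exact Kl.mul_right ((commute_ss (Commute.refl A) D).sub_right (Commute.one_right _)).symm h

theorem sub_one_apply (A : Module.End k V) (z : V) : (A - 1) z = 0 ↔ A z = z := by
  rw [LinearMap.sub_apply, Module.End.one_apply, sub_eq_zero]

section char0

variable [CharZero k]

theorem fix_of_pow {A : Module.End k V} {z : V} {D : ℕ} (hD : D ≠ 0) (h : Kl (A - 1) z)
    (h1 : (A ^ D) z = z) : A z = z := by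
  by_contra h2
  set u := (A - 1) z with hu
  have hu0 : u ≠ 0 := fun h0 => h2 ((sub_one_apply A z).1 h0)
  have hku : Kl (A - 1) u := h.map (Commute.refl _)
  have hsu : ss A D u = 0 := by
    rw [hu, ← Module.End.mul_apply, ss_mul, sub_one_apply]
    exact h1
  obtain ⟨n, hn, hn'⟩ := hku.last hu0
  have h3 : A (((A - 1) ^ n) u) = ((A - 1) ^ n) u := (sub_one_apply _ _).1 hn'
  have h4 := ss_fix h3 D
  have h5 : ss A D (((A - 1) ^ n) u) = 0 := by
    rw [← Module.End.mul_apply, (((commute_ss (Commute.refl A) D).sub_right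
      (Commute.one_right _)).pow_right n).eq, Module.End.mul_apply, hsu, map_zero]
  rw [h5] at h4
  rcases smul_eq_zero.1 h4.symm with h6 | h6
  · exact hD (by exact_mod_cast h6)
  · exact hn h6

omit [CharZero k] in
theorem conj_pow {X Y T : Module.End k V} (hTX : Commute T X) (h : X * Y = T * Y * X) (i : ℕ) :
    X ^ i * Y = T ^ i * Y * X ^ i := by
  induction i with
  | zero => simp
  | succ i ih =>
    calc X ^ (i + 1) * Y = X ^ i * (X * Y) := by rw [pow_succ, mul_assoc]
      _ = X ^ i * T * Y * X := by rw [h]; simp only [mul_assoc]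
      _ = T * (X ^ i * Y) * X := by rw [← (hTX.pow_right i).eq]; simp only [mul_assoc]
      _ = T ^ (i + 1) * Y * X ^ (i + 1) := by
        rw [ih, pow_succ' T, pow_succ X]; simp only [mul_assoc]

omit [CharZero k] in
theorem conj_pow' {X Y T : Module.End k V} (hTY : Commute T Y) (h : X * Y = T * Y * X) (i : ℕ) :
    X * Y ^ i = T ^ i * Y ^ i * X := by
  induction i with
  | zero => simp
  | succ i ih =>
    calc X * Y ^ (i + 1) = (X * Y ^ i) * Y := by rw [pow_succ, mul_assoc]
      _ = T ^ i * Y ^ i * (X * Y) := by rw [ih]; simp only [mul_assoc]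
      _ = T ^ i * (Y ^ i * T) * Y * X := by rw [h]; simp only [mul_assoc]
      _ = T ^ (i + 1) * Y ^ (i + 1) * X := by
        rw [← (hTY.pow_right i).eq, pow_succ T, pow_succ Y]; simp only [mul_assoc]

/-- the case where the commutator has finite order -/
theorem heis_fin {X Y T : Module.End k V} (hTX : Commute T X) (hTY : Commute T Y)
    (h : X * Y = T * Y * X) {D : ℕ} (hD : D ≠ 0) (hT : T ^ D = 1) {z : V} (hx : Kl (X - 1) z)
    (hy : Kl (Y - 1) z) (hs : Kl (ss T D) z) : z = 0 := by
  by_contra hz
  have hXY : Commute (X ^ D) Y := by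
    have := conj_pow hTX h D
    rw [hT, one_mul] at this
    exact this
  have hYX : Commute (Y ^ D) X := by
    have := conj_pow' hTY h D
    rw [hT, one_mul] at this
    exact this.symm
  obtain ⟨n, hn, hn'⟩ := (kl_pow hx D).last hz
  set z1 := ((X ^ D - 1) ^ n) z with hz1
  have cX : Commute X ((X ^ D - 1) ^ n) :=
    (((Commute.refl X).pow_right D).sub_right (Commute.one_right _)).pow_right n
  have cY : Commute Y ((X ^ D - 1) ^ n) :=
    (hXY.symm.sub_right (Commute.one_right _)).pow_right n
  have cT : Commute T ((X ^ D - 1) ^ n) :=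
    ((hTX.pow_right D).sub_right (Commute.one_right _)).pow_right n
  have hx1 : Kl (X - 1) z1 := hx.map (cX.sub_left (Commute.one_left _))
  have hy1 : Kl (Y - 1) z1 := hy.map (cY.sub_left (Commute.one_left _))
  have hs1 : Kl (ss T D) z1 := hs.map (commute_ss cT D)
  obtain ⟨m, hm, hm'⟩ := (kl_pow hy1 D).last hn
  set z2 := ((Y ^ D - 1) ^ m) z1 with hz2
  have dX : Commute X ((Y ^ D - 1) ^ m) :=
    (hYX.symm.sub_right (Commute.one_right _)).pow_right m
  have dY : Commute Y ((Y ^ D - 1) ^ m) :=
    (((Commute.refl Y).pow_right D).sub_right (Commute.one_right _)).pow_right m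
  have dT : Commute T ((Y ^ D - 1) ^ m) :=
    ((hTY.pow_right D).sub_right (Commute.one_right _)).pow_right m
  have hx2 : Kl (X - 1) z2 := hx1.map (dX.sub_left (Commute.one_left _))
  have hy2 : Kl (Y - 1) z2 := hy1.map (dY.sub_left (Commute.one_left _))
  have hs2 : Kl (ss T D) z2 := hs1.map (commute_ss dT D)
  have ex : (X ^ D - 1) z2 = 0 := by
    rw [hz2, ← Module.End.mul_apply]
    have : Commute (X ^ D - 1) ((Y ^ D - 1) ^ m) :=
      ((dX.pow_left D).sub_left (Commute.one_left _))
    rw [this.eq, Module.End.mul_apply, hn', map_zero]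
  have fX : X z2 = z2 := fix_of_pow hD hx2 ((sub_one_apply _ _).1 ex)
  have fY : Y z2 = z2 := fix_of_pow hD hy2 ((sub_one_apply _ _).1 hm')
  have fT : T z2 = z2 := by
    have h1 : (X * Y) z2 = (T * Y * X) z2 := by rw [h]
    simp only [Module.End.mul_apply, fX, fY] at h1
    exact h1.symm
  obtain ⟨r, hr⟩ := hs2
  have h1 : ∀ r : ℕ, (ss T D ^ r) z2 = ((D : k) ^ r) • z2 := by
    intro r
    induction r with
    | zero => simp
    | succ r ih =>
      rw [pow_succ', Module.End.mul_apply, ih, map_smul, ss_fix fT, smul_smul, ← pow_succ]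
  rw [h1] at hr
  rcases smul_eq_zero.1 hr with h6 | h6
  · exact pow_ne_zero r (by exact_mod_cast hD : (D : k) ≠ 0) h6
  · exact hm h6

/-- the case where the commutator is quasi-unipotent at the vector -/
theorem heis_fin' {X Y T : Module.End k V} (hTX : Commute T X) (hTY : Commute T Y)
    (h : X * Y = T * Y * X) {D : ℕ} (hD : D ≠ 0) {z : V} (hT : Kl (T ^ D - 1) z)
    (hx : Kl (X - 1) z) (hy : Kl (Y - 1) z) (hs : Kl (ss T D) z) : z = 0 := by
  by_contra hz
  obtain ⟨n, hn, hn'⟩ := hT.last hz
  set z1 := ((T ^ D - 1) ^ n) z with hz1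
  set W := LinearMap.ker (T ^ D - 1) with hW
  have hz1W : z1 ∈ W := hn'
  have mp : ∀ A : Module.End k V, Commute T A → ∀ w ∈ W, A w ∈ W := by
    intro A hA w hw
    rw [hW, LinearMap.mem_ker] at hw ⊢
    have h1 : Commute (T ^ D - 1) A := (hA.pow_left D).sub_left (Commute.one_left _)
    rw [← Module.End.mul_apply, h1.eq, Module.End.mul_apply, hw, map_zero]
  have hX' := mp X hTX
  have hY' := mp Y hTY
  have hT' := mp T (Commute.refl T)
  set X' : Module.End k W := X.restrict hX' with hX'd
  set Y' : Module.End k W := Y.restrict hY' with hY'd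
  set T' : Module.End k W := T.restrict hT' with hT'd
  have cX : Commute X ((T ^ D - 1) ^ n) :=
    ((hTX.symm.pow_right D).sub_right (Commute.one_right _)).pow_right n
  have cY : Commute Y ((T ^ D - 1) ^ n) :=
    ((hTY.symm.pow_right D).sub_right (Commute.one_right _)).pow_right n
  have cT : Commute T ((T ^ D - 1) ^ n) :=
    (((Commute.refl T).pow_right D).sub_right (Commute.one_right _)).pow_right n
  have hx1 : Kl (X - 1) z1 := hx.map (cX.sub_left (Commute.one_left _))
  have hy1 : Kl (Y - 1) z1 := hy.map (cY.sub_left (Commute.one_left _))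
  have hs1 : Kl (ss T D) z1 := hs.map (commute_ss cT D)
  have val : ∀ (A : Module.End k V) (A' : Module.End k W) (_ : ∀ w, (A' w : V) = A w) (n : ℕ)
      (w : W), ((A' ^ n) w : V) = (A ^ n) (w : V) := by
    intro A A' hA n
    induction n with
    | zero => intro w; simp
    | succ n ih =>
      intro w
      rw [pow_succ, pow_succ, Module.End.mul_apply, Module.End.mul_apply, ih, hA]
  have kl : ∀ (A : Module.End k V) (A' : Module.End k W) (_ : ∀ w, (A' w : V) = A w),
      Kl A z1 → Kl A' ⟨z1, hz1W⟩ := by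
    intro A A' hA ⟨n, hn⟩
    refine ⟨n, ?_⟩
    apply Subtype.ext
    rw [val A A' hA]
    exact hn
  have hT1 : T' ^ D = 1 := by
    ext w
    rw [val T T' (fun w => rfl)]
    have h1 : (T ^ D - 1) (w : V) = 0 := w.2
    exact (sub_one_apply _ _).1 h1
  have h3 := heis_fin (X := X') (Y := Y') (T := T') (LinearMap.ext fun w => Subtype.ext
    (LinearMap.congr_fun hTX.eq (w : V))) (LinearMap.ext fun w => Subtype.ext
    (LinearMap.congr_fun hTY.eq (w : V))) (LinearMap.ext fun w => Subtype.ext
    (LinearMap.congr_fun h (w : V))) hD hT1 (z := ⟨z1, hz1W⟩)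
    (kl (X - 1) (X' - 1) (fun w => rfl) hx1) (kl (Y - 1) (Y' - 1) (fun w => rfl) hy1)
    (kl (ss T D) (ss T' D) (fun w => by
      unfold ss
      rw [LinearMap.sum_apply, LinearMap.sum_apply, AddSubmonoidClass.coe_finsetSum]
      exact sum_congr rfl fun i _ => val T T' (fun w => rfl) i w) hs1)
  exact hn (congrArg Subtype.val h3)

omit [CharZero k] in
/-- elimination -/
theorem elim {f T : Module.End k V} {ι : Type} (g : ι → Module.End k V) (c : ι → Module.End k V)
    (d : ι → ℕ) {D : ℕ} (hd : ∀ i, d i ∣ D)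
    (hfg : ∀ i, Commute f (g i)) (hfT : Commute f T) (hgT : ∀ i, Commute (g i) T)
    (hfc : ∀ i, Commute f (c i)) (hgc : ∀ i, Commute (g i) (c i))
    (hc : ∀ i, f - c i * g i = T ^ d i - 1) (L : List ι) :
    ∀ w, Kl f w → ∀ e : ι → ℕ, ((L.map fun i => g i ^ e i).prod) w = 0 → Kl (T ^ D - 1) w := by
  induction L with
  | nil =>
    intro w _ e hw
    have : w = 0 := by simpa using hw
    rw [this]
    exact Kl.zero
  | cons i L ih =>
    intro w hf e hw
    rw [List.map_cons, List.prod_cons, Module.End.mul_apply] at hw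
    set P := (L.map fun i => g i ^ e i).prod with hP
    have hPf : Commute f P := by
      rw [hP]
      apply Commute.list_prod_right
      intro x hx
      obtain ⟨j, -, rfl⟩ := List.mem_map.1 hx
      exact (hfg j).pow_right _
    have hPT : Commute T P := by
      rw [hP]
      apply Commute.list_prod_right
      intro x hx
      obtain ⟨j, -, rfl⟩ := List.mem_map.1 hx
      exact ((hgT j).symm).pow_right _
    have h1 : Kl f (P w) := hf.map hPf
    have h2 : Kl (g i) (P w) := ⟨e i, hw⟩
    have h3 : Kl (T ^ d i - 1) (P w) := by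
      rw [← hc i]
      apply Kl.sub
      · exact (hfc i).mul_right (hfg i)
      · exact h1
      · exact h2.mul_right (hgc i)
    have h4 : Kl (T ^ D - 1) (P w) := by
      obtain ⟨q, hq⟩ := hd i
      rw [hq, pow_mul]
      exact kl_pow h3 q
    obtain ⟨n, hn⟩ := h4
    have h5 : P (((T ^ D - 1) ^ n) w) = 0 := by
      have : Commute ((T ^ D - 1) ^ n) P :=
        ((hPT.pow_left D).sub_left (Commute.one_left _)).pow_left n
      rw [← Module.End.mul_apply, ← this.eq, Module.End.mul_apply, hn]
    exact Kl.of_apply (ih _ (hf.map (((hfT.pow_right D).sub_right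
      (Commute.one_right _)).pow_right n)) e h5)

/-- HEIS, at a vector: if `X Y = T Y X` with `T` central, and `X`, `Y` are unipotent at `y`, then `T`
is unipotent at `y`. -/
theorem heis_pt (X Y T : Module.End k V) (hX : Function.Injective X) (hTX : Commute T X)
    (hTY : Commute T Y) (h : X * Y = T * Y * X) (y : V) (hx : ∃ a : ℕ, ((X - 1) ^ a) y = 0)
    (hy : ∃ b : ℕ, ((Y - 1) ^ b) y = 0) : ∃ m : ℕ, ((T - 1) ^ m) y = 0 := by
  obtain ⟨a, ha⟩ := hx
  have hy' := hy
  obtain ⟨b, hb⟩ := hy
  -- `T ^ j Y - 1` is nilpotent at `X ^ j y`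
  have h1 : ∀ j : ℕ, (((T ^ j * Y - 1) ^ b) ((X ^ j) y)) = 0 := by
    intro j
    have h2 : ∀ n : ℕ, (T ^ j * Y - 1) ^ n * X ^ j = X ^ j * (Y - 1) ^ n := by
      intro n
      induction n with
      | zero => simp
      | succ n ih =>
        rw [pow_succ', mul_assoc, ih, ← mul_assoc, sub_mul, one_mul, ← conj_pow hTX h j,
          pow_succ', ← mul_assoc, mul_sub, mul_one]
    rw [← Module.End.mul_apply, h2, Module.End.mul_apply, hb, map_zero]
  set L := List.range a with hL
  set P := (L.map fun i => (T ^ i * Y - 1) ^ b).prod with hP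
  have cc : ∀ i j : ℕ, Commute (T ^ i * Y - 1) (T ^ j * Y - 1) := by
    intro i j
    have e1 : Commute (T ^ i * Y) (T ^ j * Y) :=
      ((Commute.pow_pow (Commute.refl T) i j).mul_right (hTY.pow_left i)).mul_left
        ((hTY.symm.pow_right j).mul_right (Commute.refl Y))
    exact (e1.sub_left (Commute.one_left _)).sub_right
      ((Commute.one_right _))
  have hPj : ∀ j < a, P ((X ^ j) y) = 0 := by
    intro j hj
    have hm : j ∈ L := List.mem_range.2 hj
    obtain ⟨L1, L2, h2⟩ := List.append_of_mem hm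
    rw [hP, h2, List.map_append, List.map_cons, List.prod_append, List.prod_cons]
    have e1 : Commute ((T ^ j * Y - 1) ^ b) ((L2.map fun i => (T ^ i * Y - 1) ^ b).prod) := by
      apply Commute.list_prod_right
      intro x hx
      obtain ⟨i, -, rfl⟩ := List.mem_map.1 hx
      exact (cc j i).pow_pow b b
    rw [e1.eq, Module.End.mul_apply, Module.End.mul_apply, h1, map_zero, map_zero]
  have hPa : P ((X ^ a) y) = 0 := by
    have e1 : X ^ a = ((X - 1) + 1) ^ a - (X - 1) ^ a + (X - 1) ^ a := by
      rw [sub_add_cancel, sub_add_cancel]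
    have e2 : (X - 1 : Module.End k V) ^ a =
        ∑ m ∈ range (a + 1), X ^ m * (-1) ^ (a - m) * (a.choose m : Module.End k V) := by
      rw [sub_eq_add_neg, (Commute.neg_one_right X).add_pow]
    rw [sum_range_succ] at e2
    have e3 : (X ^ a) y = - (∑ m ∈ range a, X ^ m * (-1) ^ (a - m) *
        (a.choose m : Module.End k V)) y := by
      have e4 : ((X - 1 : Module.End k V) ^ a) y = 0 := ha
      rw [e2, LinearMap.add_apply, Nat.sub_self, pow_zero, mul_one, Nat.choose_self, Nat.cast_one,
        mul_one] at e4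
      exact eq_neg_of_add_eq_zero_right e4
    rw [e3, map_neg, LinearMap.sum_apply, map_sum, sum_eq_zero, neg_zero]
    intro m hm
    have e5 : (X ^ m * (-1) ^ (a - m) * (a.choose m : Module.End k V)) y =
        ((-1 : k) ^ (a - m) * (a.choose m : k)) • (X ^ m) y := by
      rw [Module.End.mul_apply, Module.End.mul_apply]
      have e6 : ((a.choose m : Module.End k V)) y = (a.choose m : k) • y := by
        rw [Module.End.natCast_apply, Nat.cast_smul_eq_nsmul]
      have e7 : ∀ (n : ℕ) (v : V), ((-1 : Module.End k V) ^ n) v = ((-1 : k) ^ n) • v := by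
        intro n v
        rcases Nat.even_or_odd n with h | h
        · rw [h.neg_one_pow, h.neg_one_pow, one_smul]; rfl
        · rw [h.neg_one_pow, h.neg_one_pow, neg_smul, one_smul]; rfl
      rw [e6, e7, map_smul, map_smul, smul_smul]
    rw [e5, map_smul, hPj m (mem_range.1 hm), smul_zero]
  -- elimination
  set D := (a).factorial with hDd
  have hD : D ≠ 0 := Nat.factorial_ne_zero a
  have h3 : Kl (T ^ D - 1) ((X ^ a) y) := by
    have cTY : ∀ i : ℕ, Commute (T ^ i * Y) T := fun i =>
      ((Commute.refl T).pow_left i).mul_left hTY.symm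
    have := elim (f := T ^ a * Y - 1) (T := T) (ι := Fin a)
      (fun i => T ^ (i : ℕ) * Y - 1) (fun i => T ^ (a - (i : ℕ))) (fun i => a - (i : ℕ))
      (D := D) (fun i => Nat.dvd_factorial (by omega) (by omega))
      (fun i => cc a i) ((cTY a).sub_left (Commute.one_left _))
      (fun i => (cTY i).sub_left (Commute.one_left _))
      (fun i => ((cTY a).sub_left (Commute.one_left _)).pow_right _)
      (fun i => ((cTY i).sub_left (Commute.one_left _)).pow_right _)
      (fun i => by
        have e1 : T ^ a = T ^ (a - (i : ℕ)) * T ^ (i : ℕ) := by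
          rw [← pow_add, Nat.sub_add_cancel (by omega)]
        rw [mul_sub, mul_one, ← mul_assoc, ← e1]
        abel) (List.finRange a) ((X ^ a) y) ⟨b, h1 a⟩ (fun _ => b) (by
        have e1 : ((List.finRange a).map fun i : Fin a => (T ^ (i : ℕ) * Y - 1) ^ b) =
            L.map fun i => (T ^ i * Y - 1) ^ b := by
          rw [hL, ← List.map_coe_finRange_eq_range, List.map_map]
          rfl
        rw [e1]
        exact hPa)
    exact this
  have h4 : Kl (T ^ D - 1) y := by
    obtain ⟨n, hn⟩ := h3
    refine ⟨n, ?_⟩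
    have e1 : Commute ((T ^ D - 1) ^ n) (X ^ a) :=
      (((hTX.pow_left D).sub_left (Commute.one_left _)).pow_left n).pow_right a
    rw [← Module.End.mul_apply, e1.eq, Module.End.mul_apply] at hn
    have e2 : Function.Injective (X ^ a) := by
      rw [Module.End.coe_pow]
      exact hX.iterate a
    exact e2 (by rw [hn, map_zero])
  obtain ⟨n, hn⟩ := h4
  refine ⟨n, ?_⟩
  have cT : Commute (T - 1) ((T - 1) ^ n) := (Commute.refl (T - 1)).pow_right n
  have c1 : Commute T ((T - 1) ^ n) :=
    ((Commute.refl T).sub_right (Commute.one_right _)).pow_right n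
  refine heis_fin' hTX hTY h hD (z := ((T - 1) ^ n) y) ?_ ?_ ?_ ?_
  · exact Kl.map ((c1.pow_left D).sub_left (Commute.one_left _)) ⟨n, hn⟩
  · exact Kl.map (((hTX.symm.sub_right (Commute.one_right _)).pow_right n).sub_left
      (Commute.one_left _)) ⟨a, ha⟩
  · exact Kl.map (((hTY.symm.sub_right (Commute.one_right _)).pow_right n).sub_left
      (Commute.one_left _)) hy'
  · refine ⟨n, ?_⟩
    have e1 : Commute (ss T D) (T - 1) :=
      (commute_ss (Commute.refl T) D).sub_right (Commute.one_right _)
    rw [← Module.End.mul_apply, ← e1.mul_pow, ss_mul]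
    exact hn

end char0

/-- SUB, at a vector. -/
theorem sub_pt (A : Module.End k V) : ∀ (n : ℕ) (B : Fin n → Module.End k V),
    (∀ i, Commute A (B i)) → (∀ i, Function.Injective (B i)) → ∀ x : V,
    (∀ m : Fin n → ℕ, (∀ i, m i ≤ 1) →
      ((List.ofFn fun i => B i * A ^ m i - 1).prod * (A - 1)) x = 0) →
    ((A - 1) ^ (n + 1)) x = 0 := by
  intro n
  induction n with
  | zero =>
    intro B _ _ x h
    have := h (fun _ => 0) (fun _ => by norm_num)
    simpa using this
  | succ n ih =>
    intro B hB hi x h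
    have key : ∀ m : Fin n → ℕ, (∀ i, m i ≤ 1) →
        ((List.ofFn fun i : Fin n => B i.succ * A ^ m i - 1).prod * (A - 1)) ((A - 1) x) = 0 := by
      intro m hm
      have h0 := h (Fin.cons 0 m) (fun i => by
        refine Fin.cases ?_ (fun j => ?_) i
        · simp
        · simpa using hm j)
      have h1 := h (Fin.cons 1 m) (fun i => by
        refine Fin.cases ?_ (fun j => ?_) i
        · simp
        · simpa using hm j)
      rw [List.ofFn_succ, List.prod_cons] at h0 h1
      simp only [Fin.cons_zero, Fin.cons_succ, pow_zero, mul_one, pow_one] at h0 h1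
      set P := (List.ofFn fun i : Fin n => B i.succ * A ^ m i - 1).prod with hP
      have cP : Commute A P := by
        rw [hP]
        apply Commute.list_prod_right
        intro y hy
        obtain ⟨i, rfl⟩ := List.mem_ofFn.1 hy
        exact ((hB i.succ).mul_right ((Commute.refl A).pow_right _)).sub_right
          (Commute.one_right _)
      have h2 : (B 0 * ((A - 1) * P * (A - 1))) x = 0 := by
        have e : B 0 * ((A - 1) * P * (A - 1)) =
            (B 0 * A - 1) * P * (A - 1) - (B 0 - 1) * P * (A - 1) := by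
          simp only [sub_mul, mul_sub, mul_assoc, one_mul, mul_one]
          abel
        rw [e, LinearMap.sub_apply, h0, h1, sub_zero]
      have h3 : ((A - 1) * P * (A - 1)) x = 0 := by
        apply hi 0
        rw [map_zero]
        exact h2
      have h4 : Commute (A - 1) P := cP.sub_left (Commute.one_left _)
      rw [h4.eq, mul_assoc] at h3
      rw [mul_assoc] at *
      exact h3
    have h5 := ih (fun i => B i.succ) (fun i => hB _) (fun i => hi _) ((A - 1) x) key
    rw [pow_succ, Module.End.mul_apply]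
    exact h5

end Pool.Agent.TOR.H56
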