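import Pool.Agent.Helper56_TOR.Lie

/-!
# The relations of type A
-/

open scoped BigOperators
open Finset

namespace Pool.Agent.TOR.LF

universe u
variable {V : Type u} [AddCommGroup V] [Module ℚ V]

section lie

variable {ι : Type} {X : ι → ι → Module.End ℚ V}

/-- the commutator -/
def br (A B : Module.End ℚ V) : Module.End ℚ V := A * B - B * A

theorem br_self (A : Module.End ℚ V) : br A A = 0 := sub_self _

theorem br_skew (A B : Module.End ℚ V) : br A B = - br B A := by unfold br; abel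

theorem br_neg (A B : Module.End ℚ V) : br A (-B) = - br A B := by
  unfold br; rw [mul_neg, neg_mul]; abel

theorem br_zero (A : Module.End ℚ V) : br A 0 = 0 := by unfold br; simp

theorem zero_br (A : Module.End ℚ V) : br 0 A = 0 := by unfold br; simp

theorem br_smul (A B : Module.End ℚ V) (c : ℚ) : br A (c • B) = c • br A B := by
  unfold br; rw [mul_smul_comm, smul_mul_assoc, smul_sub]

theorem smul_br (A B : Module.End ℚ V) (c : ℚ) : br (c • A) B = c • br A B := by
  unfold br; rw [mul_smul_comm, smul_mul_assoc, smul_sub]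

theorem br_br (A B C : Module.End ℚ V) : br (br A B) C = br A (br B C) - br B (br A C) := by
  unfold br
  simp only [sub_mul, mul_sub, mul_assoc]
  abel

theorem br_leib (A B C : Module.End ℚ V) : br A (br B C) = br (br A B) C + br B (br A C) := by
  rw [br_br]; abel

/-- relations of type A -/
structure RelA (X : ι → ι → Module.End ℚ V) : Prop where
  diag : ∀ a, X a a = 0
  r1 : ∀ a b c, a ≠ b → b ≠ c → a ≠ c → br (X a b) (X b c) = X a c
  r2 : ∀ a b c d, a ≠ b → c ≠ d → b ≠ c → a ≠ d → br (X a b) (X c d) = 0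

variable (R : RelA X)

include R

theorem RelA.r1' {a b c : ι} (h1 : a ≠ b) (h2 : b ≠ c) (h3 : a ≠ c) :
    br (X b c) (X a b) = - X a c := by
  rw [br_skew, R.r1 a b c h1 h2 h3]

/-- the roots other than the one of `H` -/
theorem RelA.h1 {a b c d : ι} (hab : a ≠ b) (hcd : c ≠ d) (hne : ¬ (c = a ∧ d = b))
    (hne' : ¬ (c = b ∧ d = a)) : ∃ l : ℚ, br (br (X a b) (X b a)) (X c d) = l • X c d ∧
      (c = a → l = 1) ∧ (d = b → l = 1) ∧ (c = b → l = -1) ∧ (d = a → l = -1) := by
  rw [br_br]
  by_cases hca : c = a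
  · subst hca
    have hdb : d ≠ b := fun h => hne ⟨rfl, h⟩
    refine ⟨1, ?_, fun _ => rfl, fun _ => rfl, fun h => absurd h hab,
      fun h => absurd h hcd.symm⟩
    rw [R.r1 b c d hab.symm hcd hdb.symm, R.r1 c b d hab hdb.symm hcd,
      R.r2 c b c d hab hcd hab.symm hcd, br_zero, sub_zero, one_smul]
  by_cases hcb : c = b
  · subst hcb
    have hda : d ≠ a := fun h => hne' ⟨rfl, h⟩
    refine ⟨-1, ?_, fun h => absurd h hca, fun h => absurd h.symm hcd, fun _ => rfl,
      fun h => absurd h hda⟩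
    rw [R.r2 c a c d hab.symm hcd hab hcd, R.r1 a c d hab hcd hda.symm,
      R.r1 c a d hab.symm hda.symm hcd, br_zero, zero_sub, neg_smul, one_smul]
  by_cases hda : d = a
  · subst hda
    refine ⟨-1, ?_, fun h => absurd h hca, fun h => absurd h hab, fun h => absurd h hcb,
      fun _ => rfl⟩
    rw [R.r2 b d c d hab.symm hcd (fun h => hcd h.symm) (fun h => hab h.symm),
      R.r1' (X := X) hcd hab (fun h => hcb h), br_zero, zero_sub, br_neg,
      R.r1' (X := X) hcb hab.symm hcd, neg_neg, neg_smul, one_smul]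
  by_cases hdb : d = b
  · subst hdb
    refine ⟨1, ?_, fun _ => rfl, fun _ => rfl, fun h => absurd h hcb, fun h => absurd h hda⟩
    rw [R.r1' (X := X) hcd hab.symm hca, R.r2 a d c d hab hcd (fun h => hcd h.symm) hab, br_zero,
      sub_zero, br_neg, R.r1' (X := X) hca hab hcd, neg_neg, one_smul]
  · refine ⟨0, ?_, fun h => absurd h hca, fun h => absurd h hdb, fun h => absurd h hcb,
      fun h => absurd h hda⟩
    rw [R.r2 b a c d hab.symm hcd (fun h => hca h.symm) (fun h => hdb h.symm),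
      R.r2 a b c d hab hcd (fun h => hcb h.symm) (fun h => hda h.symm), br_zero, br_zero,
      sub_zero, zero_smul]

theorem RelA.h2 (h3 : ∀ a b : ι, ∃ c, c ≠ a ∧ c ≠ b) {a b : ι} (hab : a ≠ b) :
    br (br (X a b) (X b a)) (X a b) = (2 : ℚ) • X a b := by
  obtain ⟨c, hca, hcb⟩ := h3 a b
  have e1 := R.r1 a c b hca.symm hcb hab
  obtain ⟨l, h1, h2, -⟩ := R.h1 (c := a) (d := c) hab hca.symm (fun h => hcb h.2)
    (fun h => hab h.1)
  obtain ⟨l', h1', -, h2', -⟩ := R.h1 (c := c) (d := b) hab hcb (fun h => hca h.1)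
    (fun h => hab.symm h.2)
  have hl := h2 rfl
  have hl' := h2' rfl
  subst hl hl'
  have e2 : br (br (X a b) (X b a)) (br (X a c) (X c b)) = (2 : ℚ) • br (X a c) (X c b) := by
    rw [br_leib, h1, h1', one_smul, one_smul, two_smul]
  rwa [e1] at e2

theorem RelA.h2' (h3 : ∀ a b : ι, ∃ c, c ≠ a ∧ c ≠ b) {a b : ι} (hab : a ≠ b) :
    br (br (X a b) (X b a)) (X b a) = -(2 : ℚ) • X b a := by
  have e1 : br (X a b) (X b a) = - br (X b a) (X a b) := br_skew _ _
  rw [e1, ← neg_one_smul ℚ, smul_br, R.h2 h3 hab.symm, smul_smul]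
  norm_num

/-- every root vector is an eigenvector -/
theorem RelA.h3 (h3 : ∀ a b : ι, ∃ c, c ≠ a ∧ c ≠ b) {a b c d : ι} (hab : a ≠ b) :
    ∃ l : ℚ, br (br (X a b) (X b a)) (X c d) = l • X c d := by
  by_cases hcd : c = d
  · subst hcd
    exact ⟨0, by rw [R.diag, br_zero, smul_zero]⟩
  by_cases h1 : c = a ∧ d = b
  · obtain ⟨rfl, rfl⟩ := h1
    exact ⟨2, R.h2 h3 hab⟩
  by_cases h2 : c = b ∧ d = a
  · obtain ⟨rfl, rfl⟩ := h2
    exact ⟨-2, R.h2' h3 hab⟩
  obtain ⟨l, h4, -⟩ := R.h1 hab hcd h1 h2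
  exact ⟨l, h4⟩

/-- finite dimensional stable subspaces -/
theorem RelA.fin [Finite ι] (h3 : ∀ a b : ι, ∃ c, c ≠ a ∧ c ≠ b) (hX : ∀ a b, LN (X a b))
    (x : V) : ∃ W : Submodule ℚ V, W.FG ∧ x ∈ W ∧ ∀ a b, Stb (X a b) W := by
  classical
  let y : (ι × ι) ⊕ (ι × ι) → Module.End ℚ V := fun s => match s with
    | Sum.inl p => X p.1 p.2
    | Sum.inr p => br (X p.1 p.2) (X p.2 p.1)
  have yX : ∀ a b, X a b ∈ Submodule.span ℚ (Set.range y) := fun a b =>
    Submodule.subset_span ⟨Sum.inl (a, b), rfl⟩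
  have yH : ∀ a b, br (X a b) (X b a) ∈ Submodule.span ℚ (Set.range y) := fun a b =>
    Submodule.subset_span ⟨Sum.inr (a, b), rfl⟩
  have HX : ∀ a b c d, br (br (X a b) (X b a)) (X c d) ∈ Submodule.span ℚ (Set.range y) := by
    intro a b c d
    by_cases hab : a = b
    · subst hab
      rw [br_self, zero_br]
      exact Submodule.zero_mem _
    obtain ⟨l, hl⟩ := R.h3 h3 (c := c) (d := d) hab
    rw [hl]
    exact Submodule.smul_mem _ _ (yX c d)
  obtain ⟨W, h4, h5, h6⟩ := fin_of_lie' y x (by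
    rintro (⟨a, b⟩ | ⟨a, b⟩)
    · exact (hX a b).lfin
    · by_cases hab : a = b
      · subst hab
        show LFin (br (X a a) (X a a))
        rw [br_self]
        exact LN.lfin (fun x => ⟨1, by simp⟩)
      · exact h_lfin (hX a b) (hX b a) rfl (R.h2 h3 hab) (R.h2' h3 hab)) (by
    rintro (⟨a, b⟩ | ⟨a, b⟩) (⟨c, d⟩ | ⟨c, d⟩)
    · show br (X a b) (X c d) ∈ _
      by_cases hab : a = b
      · subst hab
        rw [R.diag, zero_br]
        exact Submodule.zero_mem _
      by_cases hcd : c = d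
      · subst hcd
        rw [R.diag, br_zero]
        exact Submodule.zero_mem _
      by_cases hbc : b = c
      · subst hbc
        by_cases had : a = d
        · subst had
          exact yH a b
        · rw [R.r1 a b d hab hcd had]
          exact yX a d
      · by_cases had : a = d
        · subst had
          rw [R.r1' (X := X) hcd hab (fun h => hbc h.symm)]
          exact Submodule.neg_mem _ (yX c b)
        · rw [R.r2 a b c d hab hcd hbc had]
          exact Submodule.zero_mem _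
    · show br (X a b) (br (X c d) (X d c)) ∈ _
      rw [br_skew]
      exact Submodule.neg_mem _ (HX c d a b)
    · exact HX a b c d
    · show br (br (X a b) (X b a)) (br (X c d) (X d c)) ∈ _
      by_cases hab : a = b
      · subst hab
        rw [br_self, zero_br]
        exact Submodule.zero_mem _
      obtain ⟨l, hl⟩ := R.h3 h3 (c := c) (d := d) hab
      obtain ⟨l', hl'⟩ := R.h3 h3 (c := d) (d := c) hab
      rw [br_leib, hl, hl', smul_br, br_smul]
      exact Submodule.add_mem _ (Submodule.smul_mem _ _ (yH c d)) (Submodule.smul_mem _ _ (yH c d)))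
  exact ⟨W, h4, h5, fun a b => h6 (Sum.inl (a, b))⟩

end lie

/-- a finite dimensional subspace stable under an invertible operator -/
theorem Stb.inv {T T' : Module.End ℚ V} {W : Submodule ℚ V} (hW : W.FG) (h : Stb T W)
    (h2 : T' * T = 1) : Stb T' W := by
  intro w hw
  have hfd : FiniteDimensional ℚ W := Module.Finite.iff_fg.2 hW
  set S : W →ₗ[ℚ] W := T.restrict h with hS
  have hinj : Function.Injective S := by
    intro a b hab
    have h3 : T (a : V) = T (b : V) := congrArg Subtype.val hab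
    have h4 := congrArg T' h3
    rw [← Module.End.mul_apply, ← Module.End.mul_apply, h2] at h4
    exact Subtype.ext h4
  obtain ⟨w', hw'⟩ := (LinearMap.injective_iff_surjective.1 hinj) ⟨w, hw⟩
  have h3 : T (w' : V) = w := congrArg Subtype.val hw'
  have h4 : T' w = w' := by
    rw [← h3, ← Module.End.mul_apply, h2]
    rfl
  rw [h4]
  exact w'.2

/-- operators with the commutator relations of elementary matrices -/
theorem gl_fin {ι : Type} [Finite ι] (h3 : ∀ a b : ι, ∃ c, c ≠ a ∧ c ≠ b)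
    (T : ι → ι → Module.End ℚ V) (hT : ∀ a b, a ≠ b → LU (T a b))
    (r1 : ∀ a b c, a ≠ b → b ≠ c → a ≠ c → T a b * T b c = T a c * T b c * T a b)
    (r2 : ∀ a b c d, a ≠ b → c ≠ d → b ≠ c → a ≠ d → Commute (T a b) (T c d)) (x : V) :
    ∃ W : Submodule ℚ V, W.FG ∧ x ∈ W ∧ ∀ a b, a ≠ b → Stb (T a b) W := by
  classical
  have h0 : ∀ a b, ∃ X : Module.End ℚ V, (a ≠ b → IsLog (T a b) X) ∧ (a = b → X = 0) := by
    intro a b
    by_cases hab : a = b
    · exact ⟨0, fun h => absurd hab h, fun _ => rfl⟩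
    · obtain ⟨X, hX⟩ := exists_log (hT a b hab)
      exact ⟨X, fun _ => hX, fun h => absurd h hab⟩
  choose X hX hX0 using h0
  have R : RelA X := by
    refine ⟨fun a => hX0 a a rfl, ?_, ?_⟩
    · intro a b c h1 h2 h4
      exact heis (hX a b h1) (hX b c h2) (hX a c h4) (r1 a b c h1 h2 h4)
        (r2 a c a b h4 h1 (Ne.symm h4) h1) (r2 a c b c h4 h2 h2.symm h4)
    · intro a b c d h1 h2 h4 h5
      have h6 : Commute (X a b) (T c d) := ((hX a b h1).comm (r2 a b c d h1 h2 h4 h5).symm).symm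
      exact sub_eq_zero.2 ((hX c d h2).comm h6).eq
  obtain ⟨W, h4, h5, h6⟩ := R.fin h3 (fun a b => by
    by_cases hab : a = b
    · rw [hX0 a b hab]
      exact fun x => ⟨1, by simp⟩
    · exact (hX a b hab).ln) x
  exact ⟨W, h4, h5, fun a b hab => (hX a b hab).stb (h6 a b)⟩

end Pool.Agent.TOR.LF
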