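import Pool.Agent.Helper56_TOR.Glz
import Pool.Agent.Helper56_TOR.GlLie

/-!
# Local finiteness of representations of the automorphism group of a free group
-/

open scoped BigOperators
open Finset

namespace Pool.Agent.TOR.H56

open Pool.Agent.TOR.LF Pool.Agent.TOR.GLZ

section fg

variable {n : ℕ}

/-- exponents -/
def cnt : FreeGroup (Fin n) →* Multiplicative (Fin n → ℤ) :=
  FreeGroup.lift fun i => Multiplicative.ofAdd (ee i)

/-- the vector of exponents -/
def cv (x : FreeGroup (Fin n)) : Fin n → ℤ := Multiplicative.toAdd (cnt x)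

theorem cv_mul (x y : FreeGroup (Fin n)) : cv (x * y) = cv x + cv y := by
  unfold cv; rw [map_mul]; rfl

theorem cv_inv (x : FreeGroup (Fin n)) : cv x⁻¹ = - cv x := by
  unfold cv; rw [map_inv]; rfl

theorem cv_one : cv (1 : FreeGroup (Fin n)) = 0 := by
  unfold cv; rw [map_one]; rfl

theorem cv_of (i : Fin n) : cv (FreeGroup.of i) = ee i := by
  unfold cv cnt; rw [FreeGroup.lift_apply_of]; rfl

theorem cv_of_ab {x y : FreeGroup (Fin n)} (h : Abelianization.of x = Abelianization.of y) :
    cv x = cv y := by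
  have h1 : ∀ z : FreeGroup (Fin n), Abelianization.lift cnt (Abelianization.of z) = cnt z := fun z =>
    Abelianization.lift_apply_of _ _
  unfold cv
  rw [← h1 x, ← h1 y, h]

/-- the inverse of the vector of exponents -/
def bk : Multiplicative (Fin n → ℤ) →* Abelianization (FreeGroup (Fin n)) where
  toFun u := ∏ i, (Abelianization.of (FreeGroup.of i)) ^ (Multiplicative.toAdd u i)
  map_one' := by
    apply prod_eq_one
    intro i _
    rw [toAdd_one, Pi.zero_apply, zpow_zero]
  map_mul' u v := by
    rw [← prod_mul_distrib]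
    refine prod_congr rfl fun i _ => ?_
    rw [toAdd_mul, Pi.add_apply, zpow_add]

theorem bk_cnt (x : FreeGroup (Fin n)) : bk (cnt x) = Abelianization.of x := by
  have h : bk.comp cnt = (Abelianization.of : FreeGroup (Fin n) →* _) := by
    apply FreeGroup.ext_hom
    intro i
    rw [MonoidHom.comp_apply]
    unfold cnt
    rw [FreeGroup.lift_apply_of]
    show ∏ j, (Abelianization.of (FreeGroup.of j)) ^ ((ee i : Fin n → ℤ) j) = _
    rw [prod_eq_single i]
    · rw [ee_same, zpow_one]
    · intro j _ hj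
      rw [ee_ne hj, zpow_zero]
    · intro h
      exact absurd (mem_univ i) h
  exact DFunLike.congr_fun h x

theorem ab_of_cv {x y : FreeGroup (Fin n)} (h : cv x = cv y) :
    Abelianization.of x = Abelianization.of y := by
  rw [← bk_cnt x, ← bk_cnt y]
  exact congrArg bk (Multiplicative.toAdd.injective h)

/-- the action on the vectors of exponents -/
def abf (φ : MulAut (FreeGroup (Fin n))) : Module.End ℤ (Fin n → ℤ) where
  toFun u := ∑ i, u i • cv (φ (FreeGroup.of i))
  map_add' u v := by
    rw [← sum_add_distrib]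
    exact sum_congr rfl fun i _ => by rw [Pi.add_apply, add_smul]
  map_smul' c u := by
    rw [smul_sum]
    exact sum_congr rfl fun i _ => by rw [Pi.smul_apply, smul_assoc, RingHom.id_apply]

theorem abf_ee (φ : MulAut (FreeGroup (Fin n))) (i : Fin n) :
    abf φ (ee i) = cv (φ (FreeGroup.of i)) := by
  show ∑ j, (ee i : Fin n → ℤ) j • cv (φ (FreeGroup.of j)) = _
  rw [sum_eq_single i]
  · rw [ee_same, one_smul]
  · intro j _ hj
    rw [ee_ne hj, zero_smul]
  · intro h
    exact absurd (mem_univ i) h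

theorem cv_apply (φ : MulAut (FreeGroup (Fin n))) (x : FreeGroup (Fin n)) :
    cv (φ x) = abf φ (cv x) := by
  induction x using FreeGroup.induction_on with
  | C1 => rw [map_one, cv_one, map_zero]
  | of i => rw [cv_of, abf_ee]
  | inv_of i h => rw [map_inv, cv_inv, cv_inv, map_neg, h]
  | mul x y hx hy => rw [map_mul, cv_mul, cv_mul, map_add, hx, hy]

theorem end_ext {A B : Module.End ℤ (Fin n → ℤ)} (h : ∀ i, A (ee i) = B (ee i)) : A = B := by
  apply LinearMap.ext
  intro u
  rw [sum_ee u, map_sum, map_sum]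
  exact sum_congr rfl fun i _ => by rw [map_smul, map_smul, h]

/-- the action on the vectors of exponents -/
def ab : MulAut (FreeGroup (Fin n)) →* Module.End ℤ (Fin n → ℤ) where
  toFun := abf
  map_one' := by
    apply end_ext
    intro i
    rw [abf_ee, Module.End.one_apply]
    exact cv_of i
  map_mul' φ ψ := by
    apply end_ext
    intro i
    rw [abf_ee, Module.End.mul_apply, abf_ee, ← cv_apply]
    rfl

theorem ab_ee (φ : MulAut (FreeGroup (Fin n))) (i : Fin n) :
    ab φ (ee i) = cv (φ (FreeGroup.of i)) := abf_ee φ i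

theorem ab_one_iff (φ : MulAut (FreeGroup (Fin n))) :
    (∀ x : FreeGroup (Fin n), Abelianization.of (φ x) = Abelianization.of x) ↔ ab φ = 1 := by
  constructor
  · intro h
    apply end_ext
    intro i
    rw [ab_ee, cv_of_ab (h _), cv_of]
    rfl
  · intro h x
    apply ab_of_cv
    have h1 := cv_apply φ x
    have h2 : abf φ = 1 := h
    rw [h2] at h1
    exact h1

/-- transvection -/
def tt (a b : Fin n) (h : a ≠ b) : MulAut (FreeGroup (Fin n)) :=
  MonoidHom.toMulEquiv
    (FreeGroup.lift fun c => if c = b then FreeGroup.of a * FreeGroup.of b else FreeGroup.of c)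
    (FreeGroup.lift fun c => if c = b then (FreeGroup.of a)⁻¹ * FreeGroup.of b else FreeGroup.of c)
    (by
      apply FreeGroup.ext_hom
      intro c
      rw [MonoidHom.comp_apply, FreeGroup.lift_apply_of, MonoidHom.id_apply]
      split_ifs with hc
      · rw [map_mul, FreeGroup.lift_apply_of, FreeGroup.lift_apply_of, if_neg h, if_pos rfl, hc,
          mul_inv_cancel_left]
      · rw [FreeGroup.lift_apply_of, if_neg hc])
    (by
      apply FreeGroup.ext_hom
      intro c
      rw [MonoidHom.comp_apply, FreeGroup.lift_apply_of, MonoidHom.id_apply]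
      split_ifs with hc
      · rw [map_mul, map_inv, FreeGroup.lift_apply_of, FreeGroup.lift_apply_of, if_neg h,
          if_pos rfl, hc, inv_mul_cancel_left]
      · rw [FreeGroup.lift_apply_of, if_neg hc])

theorem tt_apply (a b : Fin n) (h : a ≠ b) (c : Fin n) : tt a b h (FreeGroup.of c) =
    if c = b then FreeGroup.of a * FreeGroup.of b else FreeGroup.of c :=
  FreeGroup.lift_apply_of

/-- sign change -/
def sg (a : Fin n) : MulAut (FreeGroup (Fin n)) :=
  MonoidHom.toMulEquiv
    (FreeGroup.lift fun c => if c = a then (FreeGroup.of a)⁻¹ else FreeGroup.of c)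
    (FreeGroup.lift fun c => if c = a then (FreeGroup.of a)⁻¹ else FreeGroup.of c)
    (by
      apply FreeGroup.ext_hom
      intro c
      rw [MonoidHom.comp_apply, FreeGroup.lift_apply_of, MonoidHom.id_apply]
      split_ifs with hc
      · rw [map_inv, FreeGroup.lift_apply_of, if_pos rfl, inv_inv, hc]
      · rw [FreeGroup.lift_apply_of, if_neg hc])
    (by
      apply FreeGroup.ext_hom
      intro c
      rw [MonoidHom.comp_apply, FreeGroup.lift_apply_of, MonoidHom.id_apply]
      split_ifs with hc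
      · rw [map_inv, FreeGroup.lift_apply_of, if_pos rfl, inv_inv, hc]
      · rw [FreeGroup.lift_apply_of, if_neg hc])

theorem sg_apply (a : Fin n) (c : Fin n) : sg a (FreeGroup.of c) =
    if c = a then (FreeGroup.of a)⁻¹ else FreeGroup.of c :=
  FreeGroup.lift_apply_of

open Classical in
/-- transvections, also for equal indices -/
noncomputable def t (a b : Fin n) : MulAut (FreeGroup (Fin n)) :=
  if h : a ≠ b then tt a b h else 1

theorem gens : Gens (ab (n := n)) t sg := by
  constructor
  · intro a b hab x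
    have h1 : t a b = tt a b hab := dif_pos hab
    rw [h1]
    have h2 : ab (tt a b hab) = 1 + (LinearMap.toSpanSingleton ℤ _ (ee a)) ∘ₗ
        (LinearMap.proj b : (Fin n → ℤ) →ₗ[ℤ] ℤ) := by
      apply end_ext
      intro c
      rw [ab_ee, tt_apply, LinearMap.add_apply, Module.End.one_apply, LinearMap.comp_apply,
        LinearMap.proj_apply, LinearMap.toSpanSingleton_apply]
      split_ifs with hc
      · rw [hc, cv_mul, cv_of, cv_of, ee_same, one_smul, add_comm]
      · rw [cv_of, ee_ne (Ne.symm hc), zero_smul, add_zero]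
    rw [h2]
    rfl
  · intro a x
    have h2 : ab (sg a) = 1 - (2 : ℤ) • ((LinearMap.toSpanSingleton ℤ _ (ee a)) ∘ₗ
        (LinearMap.proj a : (Fin n → ℤ) →ₗ[ℤ] ℤ)) := by
      apply end_ext
      intro c
      rw [ab_ee, sg_apply, LinearMap.sub_apply, Module.End.one_apply, LinearMap.smul_apply,
        LinearMap.comp_apply, LinearMap.proj_apply, LinearMap.toSpanSingleton_apply]
      split_ifs with hc
      · rw [hc, cv_inv, cv_of, ee_same, one_smul, two_smul]
        abel
      · rw [cv_of, ee_ne (Ne.symm hc), zero_smul, smul_zero, sub_zero]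
    rw [h2, LinearMap.sub_apply, Module.End.one_apply, LinearMap.smul_apply,
      LinearMap.comp_apply, LinearMap.proj_apply, LinearMap.toSpanSingleton_apply, smul_smul]

end fg

section main

variable {n : ℕ} {N : Subgroup (MulAut (FreeGroup (Fin n)))} {H : Type*} [AddCommGroup H]
  [Module ℚ H] (ρ : Representation ℚ (MulAut (FreeGroup (Fin n))) H)

theorem rho_eq (hN : ∀ φ, φ ∈ N ↔ ∀ x : FreeGroup (Fin n),
    Abelianization.of (φ x) = Abelianization.of x) (hρ : ∀ g ∈ N, ρ g = 1)
    {φ ψ : MulAut (FreeGroup (Fin n))} (h : ab φ = ab ψ) : ρ φ = ρ ψ := by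
  have h1 : ab (φ * ψ⁻¹) = 1 := by
    rw [map_mul, h, ← map_mul, mul_inv_cancel, map_one]
  have h2 := hρ (φ * ψ⁻¹) ((hN _).2 ((ab_one_iff _).2 h1))
  have h3 : φ = φ * ψ⁻¹ * ψ := by group
  rw [h3, map_mul, h2, one_mul]

theorem ab_t {a b : Fin n} (h : a ≠ b) (x : Fin n → ℤ) : ab (t a b) x = x + x b • ee a :=
  gens.ht a b h x

theorem ab_s (a : Fin n) (x : Fin n → ℤ) : ab (sg a) x = x - (2 * x a) • ee a :=
  gens.hs a x

theorem r1 {a b c : Fin n} (h1 : a ≠ b) (h2 : b ≠ c) (h3 : a ≠ c) :
    ab (t a b * t b c) = ab (t a c * t b c * t a b) := by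
  apply LinearMap.ext
  intro u
  simp only [map_mul, Module.End.mul_apply, ab_t h1, ab_t h2, ab_t h3, Pi.add_apply,
    Pi.smul_apply, ee_same, ee_ne h2.symm, ee_ne h3.symm, smul_eq_mul, mul_zero,
    mul_one, add_zero]
  module

theorem r2 {a b c d : Fin n} (h1 : a ≠ b) (h2 : c ≠ d) (h3 : b ≠ c) (h4 : a ≠ d) :
    ab (t a b * t c d) = ab (t c d * t a b) := by
  apply LinearMap.ext
  intro u
  simp only [map_mul, Module.End.mul_apply, ab_t h1, ab_t h2, Pi.add_apply,
    Pi.smul_apply, ee_ne h3, ee_ne h4.symm, smul_eq_mul, mul_zero, add_zero]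
  module

theorem r3 {a b c : Fin n} (h : b ≠ c) : ∃ z : ℤ, (z = 1 ∨ z = -1) ∧
    ab (t b c * sg a) = ab (sg a * t b c ^ z) := by
  by_cases hab : a = b
  · subst hab
    refine ⟨-1, Or.inr rfl, ?_⟩
    apply LinearMap.ext
    intro u
    rw [map_mul, map_mul, Module.End.mul_apply, Module.End.mul_apply, ab_s, ab_t h,
      tz gens h, ab_s]
    simp only [Pi.add_apply, Pi.sub_apply, Pi.smul_apply, ee_same, ee_ne h.symm, smul_eq_mul,
      mul_zero, mul_one, sub_zero]
    module
  · by_cases hac : a = c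
    · subst hac
      refine ⟨-1, Or.inr rfl, ?_⟩
      apply LinearMap.ext
      intro u
      rw [map_mul, map_mul, Module.End.mul_apply, Module.End.mul_apply, ab_s, ab_t h,
        tz gens h, ab_s]
      simp only [Pi.add_apply, Pi.sub_apply, Pi.smul_apply, ee_same, ee_ne h.symm, smul_eq_mul,
        mul_zero, mul_one, add_zero]
      module
    · refine ⟨1, Or.inl rfl, ?_⟩
      apply LinearMap.ext
      intro u
      rw [map_mul, map_mul, Module.End.mul_apply, Module.End.mul_apply, ab_s, ab_t h,
        tz gens h, ab_s]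
      simp only [Pi.add_apply, Pi.sub_apply, Pi.smul_apply, ee_ne hab, ee_ne (Ne.symm hac),
        smul_eq_mul, mul_zero, add_zero, sub_zero]
      module

theorem r4 (a : Fin n) : ab (sg a * sg a) = 1 := by
  apply LinearMap.ext
  intro u
  rw [map_mul, Module.End.mul_apply, ab_s, ab_s, Module.End.one_apply]
  simp only [Pi.sub_apply, Pi.smul_apply, ee_same, smul_eq_mul, mul_one]
  module

theorem r5 (a b : Fin n) : ab (sg a * sg b) = ab (sg b * sg a) := by
  by_cases h : a = b
  · rw [h]
  · apply LinearMap.ext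
    intro u
    rw [map_mul, map_mul, Module.End.mul_apply, Module.End.mul_apply, ab_s, ab_s, ab_s, ab_s]
    simp only [Pi.sub_apply, Pi.smul_apply, ee_ne h, ee_ne (Ne.symm h), smul_eq_mul, mul_zero,
      sub_zero]
    module

theorem inv_cancel (g : MulAut (FreeGroup (Fin n))) : ρ g * ρ g⁻¹ = 1 := by
  rw [← map_mul, mul_inv_cancel, map_one]

theorem inv_cancel' (g : MulAut (FreeGroup (Fin n))) : ρ g⁻¹ * ρ g = 1 := by
  rw [← map_mul, inv_mul_cancel, map_one]

/-- LF, the case of the automorphism group of a free group. -/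
theorem lf_b (hn : 3 ≤ n)
    (hN : ∀ φ, φ ∈ N ↔ ∀ x : FreeGroup (Fin n), Abelianization.of (φ x) = Abelianization.of x)
    (hρ : ∀ g ∈ N, ρ g = 1)
    (hu : ∀ a b : Fin n, a ≠ b → ∀ t : MulAut (FreeGroup (Fin n)),
      t (FreeGroup.of b) = FreeGroup.of a * FreeGroup.of b →
      (∀ c, c ≠ b → t (FreeGroup.of c) = FreeGroup.of c) → ∀ x, ∃ m : ℕ, ((ρ t - 1) ^ m) x = 0)
    (x : H) : ∃ W : Submodule ℚ H, x ∈ W ∧ FiniteDimensional ℚ W ∧ ∀ g, ∀ y ∈ W, ρ g y ∈ W := by
  classical
  have h3 : ∀ a b : Fin n, ∃ c, c ≠ a ∧ c ≠ b := by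
    intro a b
    by_contra h
    push Not at h
    have h1 : (univ : Finset (Fin n)) ⊆ {a, b} := by
      intro c _
      rw [mem_insert, mem_singleton]
      by_cases hc : c = a
      · exact Or.inl hc
      · exact Or.inr (h c hc)
    have h2 := card_le_card h1
    rw [card_univ, Fintype.card_fin] at h2
    have h4 := card_le_two (a := a) (b := b)
    omega
  obtain ⟨W0, g1, g2, g3⟩ := gl_fin h3 (fun a b => ρ (t a b)) (fun a b hab => by
    intro x
    have e1 : t a b = tt a b hab := dif_pos hab
    exact hu a b hab (t a b) (by rw [e1, tt_apply, if_pos rfl])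
      (fun c hc => by rw [e1, tt_apply, if_neg hc]) x)
    (fun a b c h1 h2 h4 => by
      rw [← map_mul, ← map_mul, ← map_mul]
      exact rho_eq ρ hN hρ (r1 h1 h2 h4))
    (fun a b c d h1 h2 h4 h5 => by
      show ρ (t a b) * ρ (t c d) = ρ (t c d) * ρ (t a b)
      rw [← map_mul, ← map_mul]
      exact rho_eq ρ hN hρ (r2 h1 h2 h4 h5)) x
  -- sign changes
  have key : ∀ S : Finset (Fin n), ∃ W : Submodule ℚ H, W.FG ∧ x ∈ W ∧
      (∀ a b, a ≠ b → Stb (ρ (t a b)) W) ∧ ∀ a ∈ S, Stb (ρ (sg a)) W := by
    intro S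
    induction S using Finset.induction_on with
    | empty => exact ⟨W0, g1, g2, g3, by simp⟩
    | insert a S _ ih =>
      obtain ⟨W, k1, k2, k3, k4⟩ := ih
      have hz : ∀ b c, b ≠ c → ∀ z : ℤ, (z = 1 ∨ z = -1) → Stb (ρ (t b c ^ z)) W := by
        intro b c hbc z hz
        rcases hz with rfl | rfl
        · rw [zpow_one]; exact k3 b c hbc
        · rw [zpow_neg_one]
          exact (k3 b c hbc).inv k1 (inv_cancel' ρ _)
      refine ⟨W ⊔ W.map (ρ (sg a)), k1.sup (k1.map _), Submodule.mem_sup_left k2, ?_, ?_⟩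
      · intro b c hbc w hw
        obtain ⟨u, hu1, v, hv1, rfl⟩ := Submodule.mem_sup.1 hw
        obtain ⟨v', hv', rfl⟩ := Submodule.mem_map.1 hv1
        rw [map_add]
        refine Submodule.add_mem _ (Submodule.mem_sup_left (k3 b c hbc u hu1))
          (Submodule.mem_sup_right ?_)
        obtain ⟨z, hz1, hz2⟩ := r3 (a := a) hbc
        have e1 := rho_eq ρ hN hρ hz2
        rw [map_mul, map_mul] at e1
        rw [← Module.End.mul_apply, e1]
        exact Submodule.mem_map.2 ⟨_, hz b c hbc z hz1 v' hv', rfl⟩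
      · intro b hb w hw
        obtain ⟨u, hu1, v, hv1, rfl⟩ := Submodule.mem_sup.1 hw
        obtain ⟨v', hv', rfl⟩ := Submodule.mem_map.1 hv1
        rw [map_add]
        by_cases hba : b = a
        · subst hba
          refine Submodule.add_mem _ (Submodule.mem_sup_right (Submodule.mem_map.2 ⟨u, hu1, rfl⟩))
            (Submodule.mem_sup_left ?_)
          have e1 : ρ (sg b * sg b) = ρ 1 := rho_eq ρ hN hρ (by rw [r4, map_one])
          rw [map_mul, map_one] at e1
          rw [← Module.End.mul_apply, e1]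
          exact hv'
        · have hb' : b ∈ S := mem_of_mem_insert_of_ne hb hba
          refine Submodule.add_mem _ (Submodule.mem_sup_left (k4 b hb' u hu1))
            (Submodule.mem_sup_right ?_)
          have e1 := rho_eq ρ hN hρ (r5 b a)
          rw [map_mul, map_mul] at e1
          rw [← Module.End.mul_apply, e1]
          exact Submodule.mem_map.2 ⟨_, k4 b hb' v' hv', rfl⟩
  obtain ⟨W, k1, k2, k3, k4⟩ := key univ
  refine ⟨W, k2, Module.Finite.iff_fg.2 k1, ?_⟩
  have hE : ∀ e ∈ EE t (sg (n := n)), Stb (ρ e) W := by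
    intro e he
    unfold EE at he
    induction he using Subgroup.closure_induction with
    | mem y hy =>
      rcases hy with ⟨a, b, hab, rfl⟩ | ⟨a, rfl⟩
      · exact k3 a b hab
      · exact k4 a (mem_univ a)
    | one => rw [map_one]; exact Stb.one
    | mul y z _ _ h1 h2 => rw [map_mul]; exact h1.mul h2
    | inv y _ h1 => exact h1.inv k1 (inv_cancel' ρ y)
  intro g
  obtain ⟨e, he, h1⟩ := gen gens g
  have h2 : ρ (e * g) = ρ 1 := rho_eq ρ hN hρ (by rw [h1, map_one])
  rw [map_one, map_mul] at h2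
  have h4 : ρ g = ρ e⁻¹ := by
    have h5 : ρ e⁻¹ * (ρ e * ρ g) = ρ g := by
      rw [← mul_assoc, inv_cancel', one_mul]
    rw [← h5, h2, mul_one]
  intro y hy
  rw [h4]
  exact hE _ (Subgroup.inv_mem _ he) y hy

end main

end Pool.Agent.TOR.H56
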