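import Pool.Agent.Helper56_TOR.Qe
import Pool.Agent.Helper56_TOR.GlLie

/-!
# Representations with quasi unipotent transvections are locally finite
-/

open scoped BigOperators
open Finset

namespace Pool.Agent.TOR.QD

open Pool.Agent.TOR.LF

universe v u

section quad

variable {n : ℕ} {A : Type v} [AddCommGroup A] [Module ℚ A]

/-- the values on the basis -/
def yy (q : HH n → A) (p : (Fin 2 × Fin n) × (Fin 2 × Fin n)) : A :=
  if p.1 = p.2 then q (bb p.1) else q (bb p.1 + bb p.2)

/-- the matrix of the quadratic form -/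
noncomputable def bet (q : HH n → A) (a c : Fin 2 × Fin n) : A :=
  if a = c then q (bb a) else (1 / 2 : ℚ) • (q (bb a + bb c) - q (bb a) - q (bb c))

theorem bet_mem (q : HH n → A) (a c : Fin 2 × Fin n) :
    bet q a c ∈ Submodule.span ℚ (Set.range (yy q)) := by
  have h1 : ∀ a, q (bb a) ∈ Submodule.span ℚ (Set.range (yy q)) := fun a =>
    Submodule.subset_span ⟨(a, a), by simp [yy]⟩
  unfold bet
  split_ifs with h
  · exact h1 a
  · refine Submodule.smul_mem _ _ (Submodule.sub_mem _ (Submodule.sub_mem _ ?_ (h1 a)) (h1 c))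
    exact Submodule.subset_span ⟨(a, c), by simp [yy, h]⟩

theorem bet_symm (q : HH n → A) (a c : Fin 2 × Fin n) : bet q a c = bet q c a := by
  unfold bet
  by_cases h : a = c
  · subst h; rfl
  · rw [if_neg h, if_neg (fun h' => h h'.symm), add_comm (bb a)]
    module

/-- the bilinear form -/
noncomputable def Bil (q : HH n → A) (x y : HH n) : A :=
  ∑ a, ∑ c, ((x a : ℚ) * (y c : ℚ)) • bet q a c

theorem Bil_mem (q : HH n → A) (x y : HH n) :
    Bil q x y ∈ Submodule.span ℚ (Set.range (yy q)) :=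
  Submodule.sum_mem _ fun a _ => Submodule.sum_mem _ fun c _ =>
    Submodule.smul_mem _ _ (bet_mem q a c)

theorem Bil_add_left (q : HH n → A) (x x' y : HH n) :
    Bil q (x + x') y = Bil q x y + Bil q x' y := by
  unfold Bil
  rw [← sum_add_distrib]
  refine sum_congr rfl fun a _ => ?_
  rw [← sum_add_distrib]
  refine sum_congr rfl fun c _ => ?_
  rw [Pi.add_apply]
  push_cast
  module

theorem Bil_symm (q : HH n → A) (x y : HH n) : Bil q x y = Bil q y x := by
  unfold Bil
  rw [sum_comm]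
  refine sum_congr rfl fun c _ => sum_congr rfl fun a _ => ?_
  rw [bet_symm, mul_comm]

theorem Bil_add_right (q : HH n → A) (x y y' : HH n) :
    Bil q x (y + y') = Bil q x y + Bil q x y' := by
  rw [Bil_symm, Bil_add_left, Bil_symm q y, Bil_symm q y']

theorem Bil_smul_left (q : HH n → A) (k : ℤ) (x y : HH n) :
    Bil q (k • x) y = (k : ℚ) • Bil q x y := by
  unfold Bil
  rw [smul_sum]
  refine sum_congr rfl fun a _ => ?_
  rw [smul_sum]
  refine sum_congr rfl fun c _ => ?_
  rw [Pi.smul_apply, smul_eq_mul]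
  push_cast
  module

theorem Bil_smul_right (q : HH n → A) (k : ℤ) (x y : HH n) :
    Bil q x (k • y) = (k : ℚ) • Bil q x y := by
  rw [Bil_symm, Bil_smul_left, Bil_symm]

theorem Bil_bb (q : HH n → A) (a c : Fin 2 × Fin n) : Bil q (bb a) (bb c) = bet q a c := by
  unfold Bil
  rw [sum_eq_single a, sum_eq_single c]
  · simp
  · intro d _ hd
    simp [Pi.single_eq_of_ne hd]
  · intro h; exact absurd (mem_univ c) h
  · intro d _ hd
    simp [Pi.single_eq_of_ne hd]
  · intro h; exact absurd (mem_univ a) h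

/-- the diagonal of the bilinear form respects all relations between squares -/
theorem Bil_QL (q : HH n → A) : QL (omn n) (fun v => Bil q v v) := by
  intro L g1 g2 h3
  -- coordinates
  have key : ∀ a c : Fin 2 × Fin n, (L.map fun p => p.1 * p.2 a * p.2 c).sum = 0 := by
    intro a c
    obtain ⟨s, i⟩ := a
    have h4 : ∀ x, (L.map fun p => p.1 * omn n p.2 x * p.2 c).sum = 0 := by
      intro x
      have h5 := congrFun (h3 x) c
      rw [Pi.zero_apply, Pi.list_sum_apply, List.map_map] at h5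
      rw [← h5]
      congr 1
    have h6 : ∀ x : HH n, omn n x (pv i 0 1) = x (0, i) := by
      intro x
      rw [omn_alt.skew, omn_pv]
      ring
    have h7 : ∀ x : HH n, omn n x (pv i (-1) 0) = x (1, i) := by
      intro x
      rw [omn_alt.skew, omn_pv]
      ring
    fin_cases s
    · have h5 := h4 (pv i 0 1)
      simp only [h6] at h5
      exact h5
    · have h5 := h4 (pv i (-1) 0)
      simp only [h7] at h5
      exact h5
  have e1 : (L.map fun p => (p.1 : ℚ) • Bil q p.2 p.2).sum =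
      ∑ a, ∑ c, (((L.map fun p => p.1 * p.2 a * p.2 c).sum : ℤ) : ℚ) • bet q a c := by
    clear g1 g2 h3 key
    induction L with
    | nil => simp
    | cons p L ih =>
      rw [List.map_cons, List.sum_cons, ih]
      unfold Bil
      rw [smul_sum, ← sum_add_distrib]
      refine sum_congr rfl fun a _ => ?_
      rw [smul_sum, ← sum_add_distrib]
      refine sum_congr rfl fun c _ => ?_
      rw [List.map_cons, List.sum_cons]
      push_cast
      module
  rw [e1]
  refine sum_eq_zero fun a _ => sum_eq_zero fun c _ => ?_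
  rw [key]
  simp

/-- `q` is quadratic -/
theorem quad (hn : 3 ≤ n) {q : HH n → A} (h : QL (omn n) q) {v : HH n} (hv : Uni (omn n) v) :
    q v = Bil q v v := by
  have h1 : QL (omn n) (fun v => q v - Bil q v v) := by
    intro L g1 g2 g3
    have k1 := h L g1 g2 g3
    have k2 := Bil_QL q L g1 g2 g3
    have e : (L.map fun p => (p.1 : ℚ) • (q p.2 - Bil q p.2 p.2)).sum =
        (L.map fun p => (p.1 : ℚ) • q p.2).sum - (L.map fun p => (p.1 : ℚ) • Bil q p.2 p.2).sum := by
      clear g1 g2 g3 k1 k2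
      induction L with
      | nil => simp
      | cons p L ih =>
        rw [List.map_cons, List.sum_cons, ih, List.map_cons, List.sum_cons, List.map_cons,
          List.sum_cons]
        module
    rw [e, k1, k2, sub_zero]
  have h2 := van hn h1 (fun a => by
    show q (bb a) - Bil q (bb a) (bb a) = 0
    rw [Bil_bb]
    unfold bet
    rw [if_pos rfl, sub_self]) (fun a c hac => by
    show q (bb a + bb c) - Bil q (bb a + bb c) (bb a + bb c) = 0
    rw [Bil_add_left, Bil_add_right, Bil_add_right, Bil_bb, Bil_bb, Bil_bb, Bil_bb]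
    unfold bet
    rw [if_pos rfl, if_pos rfl, if_neg hac, if_neg hac.symm, add_comm (bb c) (bb a)]
    module) v hv
  exact sub_eq_zero.1 h2

end quad

section logs

variable {V : Type u} [AddCommGroup V] [Module ℚ V]

theorem log_inv {T T' X : Module.End ℚ V} (h : IsLog T X) (h1 : T * T' = 1) (h2 : T' * T = 1) :
    IsLog T' (-X) := by
  have hc : Commute T T' := h1.trans h2.symm
  have hLU : LU T' := by
    intro x
    obtain ⟨m, hm⟩ := h.lu x
    refine ⟨m, ?_⟩
    have e : T' - 1 = (-T') * (T - 1) := by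
      rw [mul_sub, mul_one, neg_mul, h2]
      abel
    have hc' : Commute (-T') (T - 1) :=
      (Commute.neg_left (hc.symm.sub_right (Commute.one_right _)))
    rw [e, hc'.mul_pow, Module.End.mul_apply, hm, map_zero]
  obtain ⟨Y, hY⟩ := exists_log hLU
  have h3 := h.mul hY hc
  rw [h1] at h3
  have h4 := h3.uniq IsLog.one
  have h5 : Y = -X := (neg_eq_of_add_eq_zero_right h4).symm
  rw [← h5]
  exact hY

theorem log_conj {T X S S' : Module.End ℚ V} (h : IsLog T X) (h1 : S * S' = 1)
    (h2 : S' * S = 1) : IsLog (S * T * S') (S * X * S') := by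
  have h3 : ∀ x, S' (S x) = x := fun x => LinearMap.congr_fun h2 x
  have h4 : ∀ x, S (S' x) = x := fun x => LinearMap.congr_fun h1 x
  have e : ∀ (Y : Module.End ℚ V) (j : ℕ) (x : V), ((S * Y * S') ^ j) x = S ((Y ^ j) (S' x)) := by
    intro Y j
    induction j with
    | zero => intro x; simp [h4]
    | succ j ih =>
      intro x
      rw [pow_succ, Module.End.mul_apply, ih, pow_succ, Module.End.mul_apply]
      simp only [Module.End.mul_apply, h3]
  intro x
  obtain ⟨m, g1, g2⟩ := h (S' x)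
  refine ⟨m, by rw [e, g1, map_zero], fun a => ?_⟩
  rw [e, g2, map_sum]
  exact sum_congr rfl fun j _ => by rw [map_smul, e]

end logs

/-! ### the operators -/

/-- the setting: a group acting on the standard lattice through lifts of transvections -/
structure Dat (n : ℕ) {𝒢 : Type*} [Group 𝒢] {V : Type u} [AddCommGroup V] [Module ℚ V]
    (ab : 𝒢 →* Module.End ℤ (HH n)) (ρ : Representation ℚ 𝒢 V) (t : HH n → 𝒢) (M : ℕ) : Prop where
  hn : 3 ≤ n
  hk : ∀ g, ab g = 1 → ρ g = 1
  hom : ∀ g x y, omn n (ab g x) (ab g y) = omn n x y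
  ht : ∀ v, Uni (omn n) v → ∀ x, ab (t v) x = x + omn n v x • v
  hu : ∀ v, Uni (omn n) v → LU (ρ (t v) ^ M)

section main

variable {n : ℕ} {𝒢 : Type*} [Group 𝒢] {V : Type u} [AddCommGroup V] [Module ℚ V]
  {ab : 𝒢 →* Module.End ℤ (HH n)} {ρ : Representation ℚ 𝒢 V} {t : HH n → 𝒢} {M : ℕ}
  (D : Dat n ab ρ t M)

include D

theorem Dat.rho_eq {g h : 𝒢} (e : ab g = ab h) : ρ g = ρ h := by
  have h1 : ab (g * h⁻¹) = 1 := by
    rw [map_mul, e, ← map_mul, mul_inv_cancel, map_one]
  have h2 := D.hk _ h1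
  have h3 : g = g * h⁻¹ * h := by group
  rw [h3, map_mul, h2, one_mul]

omit D in
theorem ri (g : 𝒢) : ρ g * ρ g⁻¹ = 1 := by rw [← map_mul, mul_inv_cancel, map_one]

omit D in
theorem ri' (g : 𝒢) : ρ g⁻¹ * ρ g = 1 := by rw [← map_mul, inv_mul_cancel, map_one]

/-- powers of the lifts -/
theorem Dat.tz {v : HH n} (hv : Uni (omn n) v) (k : ℤ) (x : HH n) :
    ab (t v ^ k) x = x + (k * omn n v x) • v := by
  have h1 : ∀ (k : ℕ) x, ab (t v ^ k) x = x + ((k : ℤ) * omn n v x) • v := by
    intro k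
    induction k with
    | zero => intro x; simp
    | succ k ih =>
      intro x
      rw [pow_succ, map_mul, Module.End.mul_apply, D.ht v hv, ih, map_add, map_smul, omn_alt v]
      push_cast
      module
  obtain ⟨k, rfl | rfl⟩ := k.eq_nat_or_neg
  · rw [zpow_natCast]
    exact h1 k x
  · have h2 : ab (t v ^ k) (ab (t v ^ (-(k : ℤ))) x) = x := by
      rw [← Module.End.mul_apply, ← map_mul, zpow_neg, zpow_natCast, mul_inv_cancel, map_one,
        Module.End.one_apply]
    set z := ab (t v ^ (-(k : ℤ))) x with hz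
    rw [h1] at h2
    rw [← h2, map_add, map_smul, omn_alt v]
    module

/-- the logarithms -/
noncomputable def Dat.q (D : Dat n ab ρ t M) (v : HH n) : Module.End ℚ V := by
  classical
  exact if h : Uni (omn n) v then (exists_log (D.hu v h)).choose else 0

theorem Dat.hq {v : HH n} (hv : Uni (omn n) v) : IsLog (ρ (t v) ^ M) (D.q v) := by
  unfold Dat.q
  rw [dif_pos hv]
  exact (exists_log (D.hu v hv)).choose_spec

theorem Dat.hqz {v : HH n} (hv : Uni (omn n) v) (k : ℤ) :
    IsLog (ρ (t v ^ ((M : ℤ) * k))) ((k : ℚ) • D.q v) := by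
  have h1 : ∀ k : ℕ, IsLog (ρ (t v ^ ((M : ℤ) * (k : ℤ)))) ((k : ℚ) • D.q v) := by
    intro k
    have := (D.hq hv).pow k
    rw [← pow_mul, ← map_pow] at this
    have e : t v ^ ((M : ℤ) * (k : ℤ)) = t v ^ (M * k) := by
      rw [← Nat.cast_mul, zpow_natCast]
    rw [e]
    exact this
  obtain ⟨k, rfl | rfl⟩ := k.eq_nat_or_neg
  · have := h1 k
    simpa using this
  · have := log_inv (h1 k) (T' := ρ (t v ^ ((M : ℤ) * (-(k : ℤ))))) (by
      rw [← map_mul, ← zpow_add]; simp) (by
      rw [← map_mul, ← zpow_add]; simp)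
    rw [← neg_smul] at this
    push_cast
    exact this

/-- the product of a list -/
def pr (t : HH n → 𝒢) (M : ℕ) (L : List (ℤ × HH n)) : 𝒢 := (L.map fun p => t p.2 ^ ((M : ℤ) * p.1)).prod

theorem Dat.ab_pr (L : List (ℤ × HH n)) : (∀ p ∈ L, Uni (omn n) p.2) →
    (∀ p ∈ L, ∀ p' ∈ L, omn n p.2 p'.2 = 0) → ∀ x, ab (pr t M L) x =
      x + (M : ℤ) • (L.map fun p => (p.1 * omn n p.2 x) • p.2).sum := by
  induction L with
  | nil => intro _ _ x; simp [pr]
  | cons p L ih =>
    intro h1 h2 x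
    have e : pr t M (p :: L) = t p.2 ^ ((M : ℤ) * p.1) * pr t M L := by
      unfold pr; rw [List.map_cons, List.prod_cons]
    rw [e, map_mul, Module.End.mul_apply, ih (fun r hr => h1 r (List.mem_cons_of_mem _ hr))
      (fun r hr r' hr' => h2 r (List.mem_cons_of_mem _ hr) r' (List.mem_cons_of_mem _ hr')),
      D.tz (h1 p List.mem_cons_self), List.map_cons, List.sum_cons]
    have h3 : omn n p.2 (L.map fun r => (r.1 * omn n r.2 x) • r.2).sum = 0 := by
      rw [map_list_sum, List.map_map]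
      apply List.sum_eq_zero
      intro y hy
      obtain ⟨r, hr, rfl⟩ := List.mem_map.1 hy
      rw [Function.comp_apply, map_smul, h2 p List.mem_cons_self r (List.mem_cons_of_mem _ hr),
        smul_zero]
    rw [map_add, map_smul, h3, smul_zero, add_zero]
    module

theorem Dat.log_pr (L : List (ℤ × HH n)) : (∀ p ∈ L, Uni (omn n) p.2) →
    (∀ p ∈ L, ∀ p' ∈ L, omn n p.2 p'.2 = 0) →
    IsLog (ρ (pr t M L)) (L.map fun p => (p.1 : ℚ) • D.q p.2).sum := by
  induction L with
  | nil => intro _ _; simpa [pr] using IsLog.one (V := V)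
  | cons p L ih =>
    intro h1 h2
    have h1' : ∀ r ∈ L, Uni (omn n) r.2 := fun r hr => h1 r (List.mem_cons_of_mem _ hr)
    have h2' : ∀ r ∈ L, ∀ r' ∈ L, omn n r.2 r'.2 = 0 :=
      fun r hr r' hr' => h2 r (List.mem_cons_of_mem _ hr) r' (List.mem_cons_of_mem _ hr')
    have e : pr t M (p :: L) = t p.2 ^ ((M : ℤ) * p.1) * pr t M L := by
      unfold pr; rw [List.map_cons, List.prod_cons]
    have hp := h1 p List.mem_cons_self
    have hc : Commute (ρ (t p.2 ^ ((M : ℤ) * p.1))) (ρ (pr t M L)) := by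
      show _ * _ = _ * _
      rw [← map_mul, ← map_mul]
      apply D.rho_eq
      apply LinearMap.ext
      intro x
      have h3 : ∀ x, omn n p.2 (L.map fun r => (r.1 * omn n r.2 x) • r.2).sum = 0 := by
        intro x
        rw [map_list_sum, List.map_map]
        apply List.sum_eq_zero
        intro y hy
        obtain ⟨r, hr, rfl⟩ := List.mem_map.1 hy
        rw [Function.comp_apply, map_smul, h2 p List.mem_cons_self r (List.mem_cons_of_mem _ hr),
          smul_zero]
      have h4 : ∀ (c : ℤ), (L.map fun r => (r.1 * omn n r.2 (x + c • p.2)) • r.2).sum =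
          (L.map fun r => (r.1 * omn n r.2 x) • r.2).sum := by
        intro c
        congr 1
        apply List.map_congr_left
        intro r hr
        rw [map_add, map_smul, h2 r (List.mem_cons_of_mem _ hr) p List.mem_cons_self, smul_zero,
          add_zero]
      rw [map_mul, map_mul, Module.End.mul_apply, Module.End.mul_apply, D.ab_pr L h1' h2',
        D.tz hp, D.tz hp, D.ab_pr L h1' h2', h4, map_add, map_smul, h3]
      module
    rw [e, map_mul, List.map_cons, List.sum_cons]
    exact (D.hqz hp p.1).mul (ih h1' h2') hc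

theorem Dat.ql : QL (omn n) D.q := by
  intro L h1 h2 h3
  have h4 : ab (pr t M L) = 1 := by
    apply LinearMap.ext
    intro x
    rw [D.ab_pr L h1 h2, h3, smul_zero, add_zero, Module.End.one_apply]
  have h5 := D.log_pr L h1 h2
  rw [D.hk _ h4] at h5
  exact h5.uniq IsLog.one

theorem Dat.uni_ab {v : HH n} (hv : Uni (omn n) v) (g : 𝒢) : Uni (omn n) (ab g v) := by
  obtain ⟨y, hy⟩ := hv
  exact ⟨ab g y, by rw [D.hom, hy]⟩

/-- equivariance -/
theorem Dat.equiv {v : HH n} (hv : Uni (omn n) v) (g : 𝒢) :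
    ρ g * D.q v * ρ g⁻¹ = D.q (ab g v) := by
  have h1 := log_conj (D.hq hv) (ri (ρ := ρ) g) (ri' g)
  have h2 := D.hq (D.uni_ab hv g)
  have e : ρ g * ρ (t v) ^ M * ρ g⁻¹ = ρ (t (ab g v)) ^ M := by
    rw [← map_pow, ← map_pow, ← map_mul, ← map_mul]
    apply D.rho_eq
    apply LinearMap.ext
    intro x
    have g1 : ab g (ab g⁻¹ x) = x := by
      rw [← Module.End.mul_apply, ← map_mul, mul_inv_cancel, map_one, Module.End.one_apply]
    have g2 : omn n v (ab g⁻¹ x) = omn n (ab g v) x := by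
      rw [← D.hom g v (ab g⁻¹ x), g1]
    rw [← zpow_natCast, ← zpow_natCast, map_mul, map_mul, Module.End.mul_apply,
      Module.End.mul_apply, D.tz hv, D.tz (D.uni_ab hv g), map_add, map_smul, g1, g2]
  rw [e] at h1
  exact h1.uniq h2

theorem Dat.q_quad {v : HH n} (hv : Uni (omn n) v) : D.q v = Bil D.q v v := quad D.hn D.ql hv

theorem Dat.q_mem (v : HH n) : D.q v ∈ Submodule.span ℚ (Set.range (yy D.q)) := by
  by_cases hv : Uni (omn n) v
  · rw [D.q_quad hv]
    exact Bil_mem _ _ _
  · unfold Dat.q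
    rw [dif_neg hv]
    exact Submodule.zero_mem _

/-- brackets -/
theorem Dat.bracket {u w : HH n} (hu : Uni (omn n) u) (hw : Uni (omn n) w) :
    D.q w * D.q u - D.q u * D.q w ∈ Submodule.span ℚ (Set.range (yy D.q)) := by
  set c : ℤ := - ((M : ℤ) * omn n u w) with hc
  have h1 := bracket_of (D.hq hu) (X := D.q w) (Z := (2 * c : ℚ) • Bil D.q w u)
    (W := ((c : ℚ) ^ 2) • Bil D.q u u) (by
    intro b x
    set g : 𝒢 := t u ^ (M * b) with hg
    have e1 : ρ g = (ρ (t u) ^ M) ^ b := by rw [hg, map_pow, pow_mul]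
    rw [← e1]
    have e2 := D.equiv hw g⁻¹
    rw [inv_inv] at e2
    have e3 : ab g⁻¹ w = w + ((b : ℤ) * c) • u := by
      have e4 : g⁻¹ = t u ^ (-((M : ℤ) * (b : ℤ))) := by
        rw [hg, zpow_neg, ← Nat.cast_mul, zpow_natCast]
      rw [e4, D.tz hu, hc]
      congr 2
      ring
    have hw' : Uni (omn n) (w + ((b : ℤ) * c) • u) := by
      rw [← e3]; exact D.uni_ab hw _
    have e5 : D.q w + (b : ℚ) • ((2 * c : ℚ) • Bil D.q w u) +
        ((b : ℚ) ^ 2) • (((c : ℚ) ^ 2) • Bil D.q u u) = D.q (w + ((b : ℤ) * c) • u) := by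
      rw [D.q_quad hw, D.q_quad hw', Bil_add_left, Bil_add_right, Bil_add_right, Bil_smul_left,
        Bil_smul_left, Bil_smul_right, Bil_smul_right, Bil_symm D.q u w]
      push_cast
      module
    have e6 : D.q w * ρ g = ρ g * (ρ g⁻¹ * D.q w * ρ g) := by
      rw [← mul_assoc, ← mul_assoc, ri, one_mul]
    rw [← Module.End.mul_apply, e6, e2, e3, ← e5]
    rfl)
  rw [h1]
  exact Submodule.smul_mem _ _ (Bil_mem _ _ _)

omit D in
theorem bb_inj {a c : Fin 2 × Fin n} (e : (bb a : HH n) = bb c) : a = c := by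
  by_contra h'
  have h3 := congrFun e a
  have h4 : (bb a : HH n) a = 1 := Pi.single_eq_same _ _
  have h5 : (bb c : HH n) a = 0 := Pi.single_eq_of_ne h' _
  rw [h4, h5] at h3
  exact one_ne_zero h3

/-- a stable finite dimensional subspace for all powers of transvections -/
theorem Dat.fin1 (x : V) : ∃ W : Submodule ℚ V, W.FG ∧ x ∈ W ∧
    ∀ v, Uni (omn n) v → Stb (ρ (t v ^ M)) W := by
  classical
  have hy : ∀ p, ∃ v, yy D.q p = D.q v ∧ Uni (omn n) v := by
    rintro ⟨⟨s, i⟩, ⟨r, j⟩⟩
    have hb : ∀ a b : ℤ, IsCoprime a b → ∀ i : Fin n, Uni (omn n) (pv i a b) := by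
      intro a b hab i
      obtain ⟨c, d, -, e⟩ := uni_pv i hab
      exact ⟨_, e⟩
    have hb1 : ∀ (s : Fin 2) (i : Fin n), ∃ a b : ℤ, bb (s, i) = pv i a b ∧
        ((a = 1 ∧ b = 0) ∨ (a = 0 ∧ b = 1)) := by
      intro s i
      fin_cases s
      · exact ⟨1, 0, (pv10 i).symm, Or.inl ⟨rfl, rfl⟩⟩
      · exact ⟨0, 1, (pv01 i).symm, Or.inr ⟨rfl, rfl⟩⟩
    obtain ⟨a, b, e1, h1⟩ := hb1 s i
    obtain ⟨a', b', e2, h2⟩ := hb1 r j
    have hab : IsCoprime a b := by
      rcases h1 with ⟨rfl, rfl⟩ | ⟨rfl, rfl⟩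
      · exact isCoprime_one_left
      · exact isCoprime_one_right
    unfold yy
    dsimp only
    split_ifs with h
    · exact ⟨_, rfl, by rw [e1]; exact hb a b hab i⟩
    · refine ⟨_, rfl, ?_⟩
      rw [e1, e2]
      by_cases hij : i = j
      · subst hij
        have hsr : s ≠ r := fun h' => h (by rw [h'])
        rw [← pv_add]
        apply hb
        rcases h1 with ⟨rfl, rfl⟩ | ⟨rfl, rfl⟩ <;> rcases h2 with ⟨rfl, rfl⟩ | ⟨rfl, rfl⟩
        · exact absurd (bb_inj (e1.trans e2.symm)) h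
        · exact isCoprime_one_left
        · exact isCoprime_one_left
        · exact absurd (bb_inj (e1.trans e2.symm)) h
      · obtain ⟨c, d, -, e⟩ := uni_pv i hab
        refine ⟨pv i c d, ?_⟩
        rw [map_add, LinearMap.add_apply, e, omn_pp, if_neg (Ne.symm hij), add_zero]
  obtain ⟨W, h1, h2, h3⟩ := fin_of_lie' (yy D.q) x (fun p => by
    obtain ⟨v, e, hv⟩ := hy p
    rw [e]
    exact (D.hq hv).ln.lfin) (fun p p' => by
    obtain ⟨v, e, hv⟩ := hy p
    obtain ⟨v', e', hv'⟩ := hy p'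
    rw [e, e']
    exact D.bracket hv' hv)
  refine ⟨W, h1, h2, fun v hv => ?_⟩
  have h4 : ∀ X ∈ Submodule.span ℚ (Set.range (yy D.q)), Stb X W := by
    intro X hX
    induction hX using Submodule.span_induction with
    | mem X hX =>
      obtain ⟨p, rfl⟩ := hX
      exact h3 p
    | zero => exact fun w _ => W.zero_mem
    | add X Y _ _ hX hY => exact hX.add hY
    | smul c X _ hX => exact hX.smul c
  rw [map_pow]
  exact (D.hq hv).stb (h4 _ (D.q_mem v))

/-- LF, the quasi form, abstract setting -/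
theorem Dat.fin2 (R : Finset 𝒢)
    (hR : ∀ g, ∃ r ∈ R, ∃ h ∈ Subgroup.closure {h : 𝒢 | ∃ v, Uni (omn n) v ∧ h = t v ^ M},
      ab g = ab (r * h)) (x : V) :
    ∃ W : Submodule ℚ V, W.FG ∧ x ∈ W ∧ ∀ g, Stb (ρ g) W := by
  classical
  obtain ⟨W0, h1, h2, h3⟩ := D.fin1 x
  have h4 : ∀ h ∈ Subgroup.closure {h : 𝒢 | ∃ v, Uni (omn n) v ∧ h = t v ^ M}, Stb (ρ h) W0 := by
    intro h hh
    induction hh using Subgroup.closure_induction with
    | mem y hy =>
      obtain ⟨v, hv, rfl⟩ := hy
      exact h3 v hv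
    | one => rw [map_one]; exact Stb.one
    | mul y z _ _ k1 k2 => rw [map_mul]; exact k1.mul k2
    | inv y _ k1 => exact k1.inv h1 (ri' y)
  refine ⟨⨆ r ∈ insert 1 R, W0.map (ρ r), ?_, ?_, ?_⟩
  · have : ∀ S : Finset 𝒢, (⨆ r ∈ S, W0.map (ρ r)).FG := by
      intro S
      induction S using Finset.induction_on with
      | empty => simpa using Submodule.fg_bot
      | insert a S _ ih =>
        rw [Finset.iSup_insert]
        exact (h1.map _).sup ih
    exact this _
  · have h5 : W0.map (ρ 1) ≤ ⨆ r ∈ insert 1 R, W0.map (ρ r) :=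
      le_iSup₂ (f := fun r (_ : r ∈ insert 1 R) => W0.map (ρ r)) 1 (mem_insert_self 1 R)
    apply h5
    rw [map_one]
    exact ⟨x, h2, rfl⟩
  · intro g w hw
    have h6 : (⨆ r ∈ insert 1 R, W0.map (ρ r)) ≤
        (⨆ r ∈ insert 1 R, W0.map (ρ r)).comap (ρ g) := by
      refine iSup₂_le fun r _ => ?_
      rintro _ ⟨w0, hw0, rfl⟩
      rw [Submodule.mem_comap]
      obtain ⟨r', hr', h, hh, e⟩ := hR (g * r)
      have h5 : W0.map (ρ r') ≤ ⨆ r ∈ insert 1 R, W0.map (ρ r) :=
        le_iSup₂ (f := fun r (_ : r ∈ insert 1 R) => W0.map (ρ r)) r' (mem_insert_of_mem hr')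
      apply h5
      rw [← Module.End.mul_apply, ← map_mul, D.rho_eq e, map_mul, Module.End.mul_apply]
      exact ⟨_, h4 h hh w0 hw0, rfl⟩
    exact h6 hw

end main

end Pool.Agent.TOR.QD
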