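import Pool.Agent.Helper56_TOR.Sur
import Pool.Agent.Helper56_TOR.Qu
import Pool.Agent.Helper29_TOR.Fi5

/-!
# Local finiteness of representations of the stabiliser of the boundary word
-/

open scoped BigOperators
open Finset

namespace Pool.Agent.TOR.QD

open Pool.Agent.TOR.LF Pool.Agent.TOR.H29 Pool.Agent.TOR.H59

universe u

variable {n : ℕ} {Γ : Subgroup (MulAut (FreeGroup (Fin 2 × Fin n)))} {V : Type u}
  [AddCommGroup V] [Module ℚ V] (ρ : Representation ℚ Γ V)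

theorem lu_inv (g : Γ) (M : ℕ) (h : LU (ρ g⁻¹ ^ M)) : LU (ρ g ^ M) := by
  obtain ⟨X, hX⟩ := exists_log h
  have h1 : ρ g⁻¹ ^ M * ρ g ^ M = 1 := by
    rw [← map_pow, ← map_pow, ← map_mul]
    simp
  have h2 : ρ g ^ M * ρ g⁻¹ ^ M = 1 := by
    rw [← map_pow, ← map_pow, ← map_mul]
    simp
  exact (log_inv hX h1 h2).lu

/-- LF, the case of the stabiliser of the boundary word, with quasi unipotent transvections -/
theorem lf_a (hn : 3 ≤ n) (hΓ : ∀ φ, φ ∈ Γ ↔ φ (zeta n) = zeta n)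
    (hρ : ∀ g : Γ, (∀ x : FreeGroup (Fin 2 × Fin n),
      Abelianization.of ((g : MulAut (FreeGroup (Fin 2 × Fin n))) x) = Abelianization.of x) →
      ρ g = 1) {M : ℕ} (hM : 0 < M)
    (hu : ∀ v : Fin 2 × Fin n → ℤ, (∃ w, sf v w = 1) → ∀ t : Γ,
      (∀ x : FreeGroup (Fin 2 × Fin n), ev ((t : MulAut (FreeGroup (Fin 2 × Fin n))) x) =
        ev x + sf (ev x) v • v) → ∀ y, ∃ m : ℕ, ((ρ t ^ M - 1) ^ m) y = 0) (x : V) :
    ∃ W : Submodule ℚ V, x ∈ W ∧ FiniteDimensional ℚ W ∧ ∀ g : Γ, ∀ y ∈ W, ρ g y ∈ W := by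
  classical
  have hn0 : 0 < n := by omega
  have G := gen_stab hΓ hn0
  set ab := (ac (n := n)).comp Γ.subtype with hab
  have hex : ∀ v : HH n, ∃ g : Γ, Uni (omn n) v → ∀ x, ab g x = x + omn n v x • v := by
    intro v
    by_cases hv : Uni (omn n) v
    · obtain ⟨g, -, hg⟩ := G.tv hv
      exact ⟨g, fun _ => hg⟩
    · exact ⟨1, fun h => absurd h hv⟩
  choose t ht using hex
  have D : Dat n ab ρ t M := by
    refine ⟨hn, fun g hg => hρ g ((ac_one_iff _).2 hg), G.hom, ht, fun v hv => ?_⟩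
    refine lu_inv ρ (t v) M (hu v hv (t v)⁻¹ fun x => ?_)
    have h1 : ab (t v) (ev x + sf (ev x) v • v) = ev x := by
      rw [ht v hv]
      have e1 : sf (ev x) v = - omn n v (ev x) := sf_swap _ _
      rw [map_add, map_smul, omn_alt v, smul_zero, add_zero, e1]
      module
    have h2 := ab_inv (ab := ab) (t v) (ev x + sf (ev x) v • v)
    rw [h1] at h2
    rw [← h2]
    exact (ac_ev _ x).symm
  obtain ⟨W, h1, h2, h3⟩ := D.fin1 x
  set π : Γ →* Pool.Agent.TOR.FI.AA n := (Pool.Agent.TOR.FI.abA (n := n)).comp Γ.subtype with hπ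
  have hS : ∀ g, π g ∈ Pool.Agent.TOR.FI.Sp n := fun g =>
    Pool.Agent.TOR.FI.abA_mem hn0 ((hΓ _).1 g.2)
  have hfi := Pool.Agent.TOR.FI.fi_comap hn hM π hS
  have hcomp : ∀ (g : Γ) (y : HH n), π g y = ab g y := by
    intro g y
    obtain ⟨z, rfl⟩ := Pool.Agent.TOR.FI.ev_surj y
    show Pool.Agent.TOR.FI.abA (g : MulAut (FreeGroup (Fin 2 × Fin n))) (ev z) =
      ac (g : MulAut (FreeGroup (Fin 2 × Fin n))) (ev z)
    rw [Pool.Agent.TOR.FI.abA_ev, ac_ev]
  have key : ∀ a ∈ Pool.Agent.TOR.FI.NS (M : ℤ) (∅ : Finset (Fin n)),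
      ∃ g : Γ, π g = a ∧ Stb (ρ g) W ∧ Stb (ρ g⁻¹) W := by
    intro a ha
    unfold Pool.Agent.TOR.FI.NS at ha
    induction ha using Subgroup.closure_induction with
    | mem a ha =>
      obtain ⟨v, hv, rfl⟩ := ha
      have hv' : Uni (omn n) v := hv.2
      refine ⟨(t v ^ M)⁻¹, ?_, ?_, ?_⟩
      · apply Pool.Agent.TOR.FI.aa_ext
        intro y
        have e1 : (t v ^ M)⁻¹ = t v ^ (-(M : ℤ)) := by rw [zpow_neg, zpow_natCast]
        rw [hcomp, e1, D.tz hv', Pool.Agent.TOR.FI.tv_app]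
        have e2 : sf y v = - omn n v y := sf_swap _ _
        rw [e2]
        congr 2
        ring
      · exact (h3 v hv').inv h1 (ri' _)
      · rw [inv_inv]
        exact h3 v hv'
    | one => exact ⟨1, map_one π, by rw [map_one]; exact Stb.one, by
        rw [inv_one, map_one]; exact Stb.one⟩
    | mul a b _ _ ha hb =>
      obtain ⟨g, g1, g2, g3⟩ := ha
      obtain ⟨h, k1, k2, k3⟩ := hb
      refine ⟨g * h, by rw [map_mul, g1, k1], by rw [map_mul]; exact g2.mul k2, ?_⟩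
      rw [mul_inv_rev, map_mul]
      exact k3.mul g3
    | inv a _ ha =>
      obtain ⟨g, g1, g2, g3⟩ := ha
      exact ⟨g⁻¹, by rw [map_inv, g1], g3, by rw [inv_inv]; exact g2⟩
  obtain ⟨W', k1, k2, k3⟩ := Pool.Agent.TOR.FI.lf_index (k := ℚ) ρ
    ((Pool.Agent.TOR.FI.NS (M : ℤ) (∅ : Finset (Fin n))).comap π) hfi W
    (Module.Finite.iff_fg.2 h1) (by
    intro g hg w hw
    obtain ⟨h, e1, e2, -⟩ := key (π g) hg
    have e3 : ρ g = ρ h := by
      apply D.rho_eq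
      apply LinearMap.ext
      intro y
      rw [← hcomp, ← hcomp, e1]
    rw [e3]
    exact e2 w hw)
  exact ⟨W', k1 h2, k2, k3⟩

end Pool.Agent.TOR.QD
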