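import Mathlib

/-!
# The general linear group over the integers is generated by transvections and sign changes
-/

open scoped BigOperators
open Finset

namespace Pool.Agent.TOR.GLZ

variable {n : ℕ} {𝒢 : Type} [Group 𝒢]

/-- the standard basis -/
abbrev ee (i : Fin n) : Fin n → ℤ := Pi.single i 1

/-- elements acting as transvections and as sign changes -/
structure Gens (ab : 𝒢 →* Module.End ℤ (Fin n → ℤ)) (t : Fin n → Fin n → 𝒢) (s : Fin n → 𝒢) :
    Prop where
  ht : ∀ i j, i ≠ j → ∀ x, ab (t i j) x = x + x j • ee i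
  hs : ∀ i x, ab (s i) x = x - (2 * x i) • ee i

/-- the subgroup generated by them -/
def EE (t : Fin n → Fin n → 𝒢) (s : Fin n → 𝒢) : Subgroup 𝒢 :=
  Subgroup.closure ({g | ∃ i j, i ≠ j ∧ g = t i j} ∪ Set.range s)

section

variable (ab : 𝒢 →* Module.End ℤ (Fin n → ℤ)) (t : Fin n → Fin n → 𝒢) (s : Fin n → 𝒢)

/-- `g` fixes the first basis vectors -/
def fx (k : ℕ) (g : 𝒢) : Prop := ∀ l : Fin n, l.val < k → ab g (ee l) = ee l

theorem ee_ne {l j : Fin n} (h : j ≠ l) : (ee l : Fin n → ℤ) j = 0 := Pi.single_eq_of_ne h _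

theorem ee_same (l : Fin n) : (ee l : Fin n → ℤ) l = 1 := Pi.single_eq_same _ _

theorem sum_ee (u : Fin n → ℤ) : u = ∑ l, u l • (ee l : Fin n → ℤ) := by
  funext j
  rw [Finset.sum_apply, Finset.sum_eq_single j]
  · rw [Pi.smul_apply, ee_same, smul_eq_mul, mul_one]
  · intro l _ hl
    rw [Pi.smul_apply, ee_ne hl.symm, smul_zero]
  · intro h
    exact absurd (Finset.mem_univ j) h

theorem fx_fix {k : ℕ} {g : 𝒢} (h : fx ab k g) {u : Fin n → ℤ} (hu : ∀ l : Fin n, k ≤ l.val → u l = 0) :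
    ab g u = u := by
  conv_lhs => rw [sum_ee u]
  conv_rhs => rw [sum_ee u]
  rw [map_sum]
  refine sum_congr rfl fun l _ => ?_
  rw [map_smul]
  rcases Nat.lt_or_ge l.val k with h1 | h1
  · rw [h l h1]
  · rw [hu l h1, zero_smul, zero_smul]

theorem fx_mul {k : ℕ} {g g' : 𝒢} (h : fx ab k g) (h' : fx ab k g') : fx ab k (g * g') := by
  intro l hl
  rw [map_mul, Module.End.mul_apply, h' l hl, h l hl]

theorem fx_inv {k : ℕ} {g : 𝒢} (h : fx ab k g) : fx ab k g⁻¹ := by
  intro l hl
  have h1 : ab g⁻¹ (ab g (ee l)) = ee l := by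
    rw [← Module.End.mul_apply, ← map_mul, inv_mul_cancel, map_one]
    rfl
  rwa [h l hl] at h1

variable {ab t s} (hg : Gens ab t s)

include hg

theorem tz {i j : Fin n} (hij : i ≠ j) (z : ℤ) (x : Fin n → ℤ) :
    ab (t i j ^ z) x = x + (z * x j) • ee i := by
  induction z using Int.induction_on generalizing x with
  | zero => simp
  | succ z ih =>
    rw [zpow_add_one, map_mul, Module.End.mul_apply, hg.ht i j hij, ih, Pi.add_apply,
      Pi.smul_apply, ee_ne hij.symm, smul_zero, add_zero, add_assoc, ← add_smul]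
    congr 2
    ring
  | pred z ih =>
    have h1 : ab (t i j)⁻¹ x = x - x j • ee i := by
      have h2 : ab (t i j) (x - x j • ee i) = x := by
        rw [hg.ht i j hij, Pi.sub_apply, Pi.smul_apply, ee_ne hij.symm, smul_zero, sub_zero]
        abel
      rw [← h2, ← Module.End.mul_apply, ← map_mul, inv_mul_cancel, map_one, h2]
      rfl
    rw [zpow_sub_one, map_mul, Module.End.mul_apply, h1, ih, Pi.sub_apply, Pi.smul_apply,
      ee_ne hij.symm, smul_zero, sub_zero, sub_eq_add_neg, ← neg_smul, add_assoc, ← add_smul]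
    congr 2
    ring

omit hg in
theorem tz_mem {i j : Fin n} (hij : i ≠ j) (z : ℤ) : t i j ^ z ∈ EE t s := by
  have h : t i j ∈ EE t s := Subgroup.subset_closure (Or.inl ⟨i, j, hij, rfl⟩)
  exact (EE t s).zpow_mem h z

omit hg in
theorem s_mem (i : Fin n) : s i ∈ EE t s := Subgroup.subset_closure (Or.inr ⟨i, rfl⟩)

theorem tz_fx {i j : Fin n} (hij : i ≠ j) (z : ℤ) {k : ℕ} (hj : k ≤ j.val) :
    fx ab k (t i j ^ z) := by
  intro l hl
  rw [tz hg hij, ee_ne (by
    rintro rfl
    omega), mul_zero, zero_smul, add_zero]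

theorem s_fx {i : Fin n} {k : ℕ} (hj : k ≤ i.val) : fx ab k (s i) := by
  intro l hl
  rw [hg.hs, ee_ne (by
    rintro rfl
    omega), mul_zero, zero_smul, sub_zero]

omit hg in
theorem unit_of {k : Fin n} {g : 𝒢} (h : fx ab k g) {j : Fin n} (hj : k ≤ j)
    (h0 : ∀ l, k ≤ l → l ≠ j → (ab g (ee k)) l = 0) : IsUnit ((ab g (ee k)) j) := by
  set v := ab g (ee k) with hv
  have h1 : ab g⁻¹ v = ee k := by
    rw [hv, ← Module.End.mul_apply, ← map_mul, inv_mul_cancel, map_one]
    rfl
  have h2 : v = (v - v j • ee j) + v j • ee j := by abel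
  have h3 : ab g⁻¹ (v - v j • ee j) = v - v j • ee j := by
    apply fx_fix ab (fx_inv ab h)
    intro l hl
    rw [Pi.sub_apply, Pi.smul_apply]
    by_cases hlj : l = j
    · subst hlj
      rw [ee_same, smul_eq_mul, mul_one, sub_self]
    · rw [ee_ne hlj, smul_zero, sub_zero]
      exact h0 l (by rwa [Fin.le_def]) hlj
  rw [h2, map_add, h3, map_smul] at h1
  have h4 := congrFun h1 k
  rw [Pi.add_apply, Pi.sub_apply, Pi.smul_apply, Pi.smul_apply, ee_same] at h4
  by_cases hkj : k = j
  · subst hkj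
    rw [ee_same] at h4
    simp only [smul_eq_mul, mul_one, sub_self, zero_add] at h4
    exact IsUnit.of_mul_eq_one _ h4
  · rw [ee_ne hkj, smul_zero, sub_zero, h0 k le_rfl hkj, zero_add, smul_eq_mul] at h4
    exact IsUnit.of_mul_eq_one _ h4

/-- Euclid -/
theorem euclid {k : Fin n} (m : ℕ) : ∀ g : 𝒢, fx ab k g →
    ∑ l ∈ univ.filter (fun l => k ≤ l), ((ab g (ee k)) l).natAbs = m →
    ∃ e ∈ EE t s, fx ab k (e * g) ∧ ∃ j, k ≤ j ∧
      ∀ l, k ≤ l → l ≠ j → (ab (e * g) (ee k)) l = 0 := by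
  induction m using Nat.strong_induction_on with
  | _ m ih =>
    intro g hf hm
    set v := ab g (ee k) with hv
    by_cases h : ∃ j, k ≤ j ∧ ∀ l, k ≤ l → l ≠ j → v l = 0
    · obtain ⟨j, hj, h0⟩ := h
      exact ⟨1, Subgroup.one_mem _, by rwa [one_mul], j, hj, by rwa [one_mul]⟩
    · push Not at h
      obtain ⟨i, hi, hik, hvi⟩ := h k le_rfl
      obtain ⟨j, hj, hji, hvj⟩ := h i hi
      -- choose the larger one
      have key : ∀ i j : Fin n, k ≤ i → k ≤ j → i ≠ j → v i ≠ 0 → v j ≠ 0 →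
          (v j).natAbs ≤ (v i).natAbs → ∃ e ∈ EE t s, fx ab k (e * g) ∧ ∃ j, k ≤ j ∧
            ∀ l, k ≤ l → l ≠ j → (ab (e * g) (ee k)) l = 0 := by
        intro i j hi hj hij hvi hvj hle
        obtain ⟨z, hz⟩ : ∃ z : ℤ, (v i + z * v j).natAbs < (v i).natAbs := by
          rcases lt_or_gt_of_ne hvi with h1 | h1 <;> rcases lt_or_gt_of_ne hvj with h2 | h2
          · exact ⟨-1, by omega⟩
          · exact ⟨1, by omega⟩
          · exact ⟨1, by omega⟩
          · exact ⟨-1, by omega⟩
        have hf' : fx ab k (t i j ^ z * g) := fx_mul ab (tz_fx hg hij z hj) hf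
        have hw : ab (t i j ^ z * g) (ee k) = v + (z * v j) • ee i := by
          rw [map_mul, Module.End.mul_apply, tz hg hij]
        have hlt : ∑ l ∈ univ.filter (fun l => k ≤ l),
            ((ab (t i j ^ z * g) (ee k)) l).natAbs < m := by
          rw [← hm, hw]
          apply sum_lt_sum
          · intro l _
            rw [Pi.add_apply, Pi.smul_apply]
            by_cases hl : l = i
            · subst hl
              rw [ee_same, smul_eq_mul, mul_one]
              exact hz.le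
            · rw [ee_ne hl, smul_zero, add_zero]
          · refine ⟨i, mem_filter.2 ⟨mem_univ _, hi⟩, ?_⟩
            rw [Pi.add_apply, Pi.smul_apply, ee_same, smul_eq_mul, mul_one]
            exact hz
        obtain ⟨e, he, h1, h2⟩ := ih _ hlt _ hf' rfl
        refine ⟨e * t i j ^ z, Subgroup.mul_mem _ he (tz_mem hij z), ?_, ?_⟩
        · rw [mul_assoc]; exact h1
        · rw [mul_assoc]; exact h2
      rcases le_total (v j).natAbs (v i).natAbs with h1 | h1
      · exact key i j hi hj hji.symm hvi hvj h1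
      · exact key j i hj hi hji hvj hvi h1

/-- one coordinate becomes one -/
theorem make_one {k : Fin n} {g : 𝒢} (hf : fx ab k g) :
    ∃ e ∈ EE t s, fx ab k (e * g) ∧ (ab (e * g) (ee k)) k = 1 := by
  obtain ⟨e, he, h1, j, hj, h2⟩ := euclid hg _ g hf rfl
  have h3 := unit_of h1 hj h2
  by_cases hkj : k = j
  · subst hkj
    rcases Int.isUnit_iff.1 h3 with h4 | h4
    · exact ⟨e, he, h1, h4⟩
    · refine ⟨s k * e, Subgroup.mul_mem _ (s_mem k) he, ?_, ?_⟩
      · rw [mul_assoc]
        exact fx_mul ab (s_fx hg le_rfl) h1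
      · rw [mul_assoc, map_mul, Module.End.mul_apply, hg.hs, h4, Pi.sub_apply, Pi.smul_apply,
          ee_same, h4]
        norm_num
  · set c := (ab (e * g) (ee k)) j with hc
    refine ⟨t k j ^ c * e, Subgroup.mul_mem _ (tz_mem hkj c) he, ?_, ?_⟩
    · rw [mul_assoc]
      exact fx_mul ab (tz_fx hg hkj c hj) h1
    · rw [mul_assoc, map_mul, Module.End.mul_apply, tz hg hkj, Pi.add_apply, Pi.smul_apply,
        ee_same, h2 k le_rfl hkj, ← hc]
      rcases Int.isUnit_iff.1 h3 with h4 | h4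
      · rw [h4]; norm_num
      · rw [h4]; norm_num

/-- clearing the other coordinates -/
theorem clear {k : Fin n} {g : 𝒢} (hf : fx ab k g) (S : Finset (Fin n)) :
    ∃ e ∈ EE t s, fx ab k (e * g) ∧ (ab (e * g) (ee k)) k = 1 ∧
      ∀ i ∈ S, i ≠ k → (ab (e * g) (ee k)) i = 0 := by
  induction S using Finset.induction_on with
  | empty =>
    obtain ⟨e, he, h1, h2⟩ := make_one hg hf
    exact ⟨e, he, h1, h2, by simp⟩
  | insert i S _ ih =>
    obtain ⟨e, he, h1, h2, h3⟩ := ih
    by_cases hik : i = k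
    · refine ⟨e, he, h1, h2, fun l hl hlk => ?_⟩
      rcases mem_insert.1 hl with rfl | hl
      · exact absurd hik hlk
      · exact h3 l hl hlk
    · set c := (ab (e * g) (ee k)) i with hc
      have hw : ab (t i k ^ (-c) * e * g) (ee k) = ab (e * g) (ee k) + (-c * 1) • ee i := by
        rw [mul_assoc, map_mul, Module.End.mul_apply, tz hg hik, h2]
      refine ⟨t i k ^ (-c) * e, Subgroup.mul_mem _ (tz_mem hik _) he, ?_, ?_, ?_⟩
      · rw [mul_assoc]
        exact fx_mul ab (tz_fx hg hik _ le_rfl) h1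
      · rw [hw, Pi.add_apply, Pi.smul_apply, ee_ne (Ne.symm hik), smul_zero, add_zero]
        exact h2
      · intro l hl hlk
        rw [hw, Pi.add_apply, Pi.smul_apply]
        by_cases hli : l = i
        · subst hli
          rw [ee_same, ← hc, smul_eq_mul]
          ring
        · rw [ee_ne hli, smul_zero, add_zero]
          exact h3 l (mem_of_mem_insert_of_ne hl hli) hlk

theorem gen_aux (g : 𝒢) (k : ℕ) (hk : k ≤ n) : ∃ e ∈ EE t s, fx ab k (e * g) := by
  induction k with
  | zero => exact ⟨1, Subgroup.one_mem _, fun l hl => absurd hl (by omega)⟩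
  | succ k ih =>
    obtain ⟨e, he, h1⟩ := ih (by omega)
    obtain ⟨e', he', h2, h3, h4⟩ := clear hg (k := ⟨k, hk⟩) h1 univ
    refine ⟨e' * e, Subgroup.mul_mem _ he' he, ?_⟩
    rw [mul_assoc]
    intro l hl
    rcases Nat.lt_or_ge l.val k with h5 | h5
    · exact h2 l h5
    · have h6 : l = ⟨k, hk⟩ := Fin.ext (by simp only; omega)
      rw [h6]
      funext i
      by_cases hi : i = ⟨k, hk⟩
      · rw [hi, h3, ee_same]
      · rw [h4 i (mem_univ _) hi, ee_ne hi]

/-- generation -/
theorem gen (g : 𝒢) : ∃ e ∈ EE t s, ab (e * g) = 1 := by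
  obtain ⟨e, he, h1⟩ := gen_aux hg g n le_rfl
  refine ⟨e, he, ?_⟩
  apply LinearMap.ext
  intro u
  exact fx_fix ab h1 (fun l hl => absurd l.isLt (by omega))

end

end Pool.Agent.TOR.GLZ
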