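import Pool.Agent.Helper56_TOR.Log

/-!
# Locally finite Lie algebras of operators
-/

open scoped BigOperators
open Finset

namespace Pool.Agent.TOR.LF

universe u
variable {V : Type u} [AddCommGroup V] [Module ℚ V]

/-- the subspace is stable under the operator -/
def Stb (A : Module.End ℚ V) (W : Submodule ℚ V) : Prop := ∀ w ∈ W, A w ∈ W

/-- every vector is in a finite dimensional stable subspace -/
def LFin (A : Module.End ℚ V) : Prop := ∀ x, ∃ W : Submodule ℚ V, W.FG ∧ x ∈ W ∧ Stb A W

theorem Stb.sup {A : Module.End ℚ V} {W W' : Submodule ℚ V} (h : Stb A W) (h' : Stb A W') :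
    Stb A (W ⊔ W') := by
  intro w hw
  obtain ⟨a, ha, b, hb, rfl⟩ := Submodule.mem_sup.1 hw
  rw [map_add]
  exact (W ⊔ W').add_mem (Submodule.mem_sup_left (h a ha)) (Submodule.mem_sup_right (h' b hb))

theorem Stb.add {A B : Module.End ℚ V} {W : Submodule ℚ V} (h : Stb A W) (h' : Stb B W) :
    Stb (A + B) W := fun w hw => W.add_mem (h w hw) (h' w hw)

theorem Stb.neg {A : Module.End ℚ V} {W : Submodule ℚ V} (h : Stb A W) : Stb (-A) W :=
  fun w hw => W.neg_mem (h w hw)

theorem Stb.sub {A B : Module.End ℚ V} {W : Submodule ℚ V} (h : Stb A W) (h' : Stb B W) :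
    Stb (A - B) W := fun w hw => W.sub_mem (h w hw) (h' w hw)

theorem Stb.mul {A B : Module.End ℚ V} {W : Submodule ℚ V} (h : Stb A W) (h' : Stb B W) :
    Stb (A * B) W := fun w hw => h _ (h' w hw)

theorem Stb.one {W : Submodule ℚ V} : Stb (1 : Module.End ℚ V) W := fun _ hw => hw

theorem Stb.pow {A : Module.End ℚ V} {W : Submodule ℚ V} (h : Stb A W) (n : ℕ) :
    Stb (A ^ n) W := by
  induction n with
  | zero => rw [pow_zero]; exact Stb.one
  | succ n ih => rw [pow_succ]; exact ih.mul h

theorem Stb.smul {A : Module.End ℚ V} {W : Submodule ℚ V} (h : Stb A W) (c : ℚ) :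
    Stb (c • A) W := fun w hw => W.smul_mem c (h w hw)

/-- a subspace stable under the logarithm is stable under the operator -/
theorem IsLog.stb {T X : Module.End ℚ V} (h : IsLog T X) {W : Submodule ℚ V} (hW : Stb X W) :
    Stb T W := by
  intro w hw
  obtain ⟨n, -, ha⟩ := h w
  have h1 := ha 1
  rw [pow_one] at h1
  rw [h1]
  exact W.sum_mem fun j _ => W.smul_mem _ (hW.pow j w hw)

/-! ### operators which are algebraic with rational roots at a vector -/

/-- a product of factors `A - c` kills `x` -/
def Spl (A : Module.End ℚ V) (x : V) : Prop :=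
  ∃ L : List ℚ, ((L.map fun c => A - c • (1 : Module.End ℚ V)).prod) x = 0

theorem comm_fac (A : Module.End ℚ V) (c : ℚ) (L : List ℚ) :
    Commute (A - c • (1 : Module.End ℚ V))
      ((L.map fun c => A - c • (1 : Module.End ℚ V)).prod) := by
  apply Commute.list_prod_right
  intro y hy
  obtain ⟨d, -, rfl⟩ := List.mem_map.1 hy
  have h1 : ∀ (B : Module.End ℚ V) (e : ℚ), Commute B (e • (1 : Module.End ℚ V)) := fun B e =>
    (Commute.one_right B).smul_right e
  exact (((Commute.refl A).sub_left (h1 A c).symm).sub_right (h1 _ d))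

theorem Spl.lfin {A : Module.End ℚ V} {x : V} (h : Spl A x) :
    ∃ W : Submodule ℚ V, W.FG ∧ x ∈ W ∧ Stb A W := by
  obtain ⟨L, hL⟩ := h
  induction L generalizing x with
  | nil =>
    have hx : x = 0 := by simpa using hL
    refine ⟨⊥, Submodule.fg_bot, by rw [hx]; exact Submodule.zero_mem _, ?_⟩
    intro w hw
    rw [Submodule.mem_bot] at hw
    rw [hw, map_zero]
    exact Submodule.zero_mem _
  | cons c L ih =>
    rw [List.map_cons, List.prod_cons, (comm_fac A c L).eq, Module.End.mul_apply] at hL
    obtain ⟨W, h1, h2, h3⟩ := ih hL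
    refine ⟨W ⊔ Submodule.span ℚ {x}, h1.sup (Submodule.fg_span_singleton x),
      Submodule.mem_sup_right (Submodule.mem_span_singleton_self x), ?_⟩
    intro w hw
    obtain ⟨a, ha, b, hb, rfl⟩ := Submodule.mem_sup.1 hw
    obtain ⟨t, rfl⟩ := Submodule.mem_span_singleton.1 hb
    have e : A (a + t • x) = (A a + t • ((A - c • (1 : Module.End ℚ V)) x)) + (t * c) • x := by
      rw [map_add, map_smul, LinearMap.sub_apply, LinearMap.smul_apply, Module.End.one_apply,
        smul_sub, smul_smul]
      abel
    rw [e]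
    refine Submodule.add_mem _ (Submodule.mem_sup_left (W.add_mem (h3 a ha) (W.smul_mem t h2)))
      (Submodule.mem_sup_right (Submodule.smul_mem _ _ (Submodule.mem_span_singleton_self x)))

theorem LN.lfin {X : Module.End ℚ V} (h : LN X) : LFin X := by
  intro x
  obtain ⟨n, hn⟩ := h x
  apply Spl.lfin
  refine ⟨List.replicate n 0, ?_⟩
  rw [List.map_replicate, List.prod_replicate, zero_smul, sub_zero]
  exact hn

theorem Spl.of_fac {A : Module.End ℚ V} {x : V} (L : List ℚ)
    (h : Spl A (((L.map fun c => A - c • (1 : Module.End ℚ V)).prod) x)) : Spl A x := by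
  obtain ⟨L', h'⟩ := h
  refine ⟨L' ++ L, ?_⟩
  rw [List.map_append, List.prod_append, Module.End.mul_apply]
  exact h'

section sl2

variable {e f h : Module.End ℚ V}

/-- commutation of `e` with the powers of `f` at a vector killed by `e` -/
theorem e_pow (h1 : e * f - f * e = h) (h3 : h * f - f * h = -(2 : ℚ) • f) {v : V}
    (hv : e v = 0) (m : ℕ) :
    e ((f ^ (m + 1)) v) = ((m : ℚ) + 1) • (f ^ m) ((h - (m : ℚ) • (1 : Module.End ℚ V)) v) := by
  have hf : ∀ m : ℕ, h * f ^ m = f ^ m * h - (2 * (m : ℚ)) • f ^ m := by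
    intro m
    induction m with
    | zero => simp
    | succ m ih =>
      have e1 : h * f = f * h - (2 : ℚ) • f := by
        rw [sub_eq_iff_eq_add] at h3
        rw [h3, neg_smul]
        abel
      rw [pow_succ, ← mul_assoc, ih, sub_mul, mul_assoc, e1, mul_sub, smul_mul_assoc,
        mul_smul_comm, mul_assoc]
      push_cast
      rw [mul_add, mul_one, add_smul]
      abel
  induction m with
  | zero =>
    have e1 : e * f = h + f * e := by rw [← h1]; abel
    have e2 := LinearMap.congr_fun e1 v
    simp only [Module.End.mul_apply, LinearMap.add_apply, hv, map_zero, add_zero] at e2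
    simp [e2]
  | succ m ih =>
    have e1 : e * f = h + f * e := by rw [← h1]; abel
    have e2 := LinearMap.congr_fun e1 ((f ^ (m + 1)) v)
    simp only [Module.End.mul_apply, LinearMap.add_apply] at e2
    rw [pow_succ' f (m + 1), Module.End.mul_apply, e2, ih]
    have e3 := LinearMap.congr_fun (hf (m + 1)) v
    simp only [Module.End.mul_apply, LinearMap.sub_apply, LinearMap.smul_apply] at e3
    rw [e3, map_smul]
    have e4 : f ((f ^ m) ((h - (m : ℚ) • (1 : Module.End ℚ V)) v)) =
        (f ^ (m + 1)) (h v) - (m : ℚ) • (f ^ (m + 1)) v := by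
      rw [← Module.End.mul_apply, ← pow_succ', LinearMap.sub_apply, LinearMap.smul_apply,
        Module.End.one_apply, map_sub, map_smul]
    have e5 : (f ^ (m + 1)) ((h - ((m + 1 : ℕ) : ℚ) • (1 : Module.End ℚ V)) v) =
        (f ^ (m + 1)) (h v) - ((m + 1 : ℕ) : ℚ) • (f ^ (m + 1)) v := by
      rw [LinearMap.sub_apply, LinearMap.smul_apply, Module.End.one_apply, map_sub, map_smul]
    rw [e4, e5]
    push_cast
    module

theorem spl_top (h1 : e * f - f * e = h) (h2 : h * e - e * h = (2 : ℚ) • e)
    (h3 : h * f - f * h = -(2 : ℚ) • f) (m : ℕ) : ∀ v : V, e v = 0 → (f ^ m) v = 0 → Spl h v := by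
  induction m with
  | zero =>
    intro v _ hf
    exact ⟨[], by simpa using hf⟩
  | succ m ih =>
    intro v he hf
    have e1 := e_pow h1 h3 he m
    rw [hf, map_zero] at e1
    have e2 : (f ^ m) ((h - (m : ℚ) • (1 : Module.End ℚ V)) v) = 0 := by
      rcases smul_eq_zero.1 e1.symm with e3 | e3
      · exact absurd e3 (by positivity)
      · exact e3
    have e3 : e ((h - (m : ℚ) • (1 : Module.End ℚ V)) v) = 0 := by
      have e4 : e * h = h * e - (2 : ℚ) • e := by rw [← h2]; abel
      have e5 := LinearMap.congr_fun e4 v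
      simp only [Module.End.mul_apply, LinearMap.sub_apply, LinearMap.smul_apply, he, map_zero,
        smul_zero, sub_zero] at e5
      rw [LinearMap.sub_apply, LinearMap.smul_apply, Module.End.one_apply, map_sub, map_smul, e5,
        he, smul_zero, sub_zero]
    have e4 := ih _ e3 e2
    apply Spl.of_fac [(m : ℚ)]
    simpa using e4

theorem spl_h (hf : LN f) (h1 : e * f - f * e = h) (h2 : h * e - e * h = (2 : ℚ) • e)
    (h3 : h * f - f * h = -(2 : ℚ) • f) (n : ℕ) : ∀ v : V, (e ^ n) v = 0 → Spl h v := by
  induction n with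
  | zero =>
    intro v hv
    exact ⟨[], by simpa using hv⟩
  | succ n ih =>
    intro v hv
    rw [pow_succ, Module.End.mul_apply] at hv
    obtain ⟨L, hL⟩ := ih _ hv
    -- shift
    have key : ∀ L : List ℚ, ((L.map fun c => h - c • (1 : Module.End ℚ V)).prod) * e =
        e * (((L.map fun c => c - 2).map fun c => h - c • (1 : Module.End ℚ V)).prod) := by
      intro L
      induction L with
      | nil => simp
      | cons c L ihL =>
        rw [List.map_cons, List.prod_cons, mul_assoc, ihL, List.map_cons, List.map_cons,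
          List.prod_cons, ← mul_assoc, ← mul_assoc]
        congr 1
        have e4 : h * e = e * h + (2 : ℚ) • e := by rw [← h2]; abel
        rw [sub_mul, mul_sub, e4, smul_mul_assoc, one_mul, mul_smul_comm, mul_one, sub_smul]
        abel
    have h4 := LinearMap.congr_fun (key L) v
    rw [Module.End.mul_apply, hL, Module.End.mul_apply] at h4
    obtain ⟨m, hm⟩ := hf ((((L.map fun c => c - 2).map fun c =>
      h - c • (1 : Module.End ℚ V)).prod) v)
    exact Spl.of_fac _ (spl_top h1 h2 h3 m _ h4.symm hm)

/-- the semisimple element of an integrable `sl₂` is locally finite -/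
theorem h_lfin (he : LN e) (hf : LN f) (h1 : e * f - f * e = h)
    (h2 : h * e - e * h = (2 : ℚ) • e) (h3 : h * f - f * h = -(2 : ℚ) • f) : LFin h := by
  intro x
  obtain ⟨n, hn⟩ := he x
  exact (spl_h hf h1 h2 h3 n x hn).lfin

end sl2

/-! ### Words -/

theorem fg_stb {A : Module.End ℚ V} (h : LFin A) {U : Submodule ℚ V} (hU : U.FG) :
    ∃ W : Submodule ℚ V, W.FG ∧ U ≤ W ∧ Stb A W := by
  obtain ⟨S, rfl⟩ := hU
  classical
  induction S using Finset.induction_on with
  | empty =>
    refine ⟨⊥, Submodule.fg_bot, by simp, ?_⟩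
    intro w hw
    rw [Submodule.mem_bot] at hw
    rw [hw, map_zero]
    exact Submodule.zero_mem _
  | insert a S _ ih =>
    obtain ⟨W, h1, h2, h3⟩ := ih
    obtain ⟨W', h1', h2', h3'⟩ := h a
    refine ⟨W' ⊔ W, h1'.sup h1, ?_, h3'.sup h3⟩
    rw [Finset.coe_insert, Submodule.span_insert]
    exact sup_le_sup ((Submodule.span_singleton_le_iff_mem _ _).2 h2') h2

section words

variable {m : ℕ} (y : Fin m → Module.End ℚ V) (x : V)

/-- the value of a word -/
def wd (L : List (Fin m)) : V := ((L.map y).prod) x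

/-- the span of the words of length less than `d` -/
def Gd (d : ℕ) : Submodule ℚ V := Submodule.span ℚ {v | ∃ L : List (Fin m), L.length < d ∧ v = wd y x L}

theorem wd_cons (a : Fin m) (L : List (Fin m)) : wd y x (a :: L) = y a (wd y x L) := by
  unfold wd
  rw [List.map_cons, List.prod_cons, Module.End.mul_apply]

theorem wd_mem {d : ℕ} {L : List (Fin m)} (h : L.length < d) : wd y x L ∈ Gd y x d :=
  Submodule.subset_span ⟨L, h, rfl⟩

theorem Gd_mono {d d' : ℕ} (h : d ≤ d') : Gd y x d ≤ Gd y x d' := by
  apply Submodule.span_le.2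
  rintro _ ⟨L, hL, rfl⟩
  exact wd_mem y x (lt_of_lt_of_le hL h)

theorem Gd_map {d : ℕ} (a : Fin m) {v : V} (h : v ∈ Gd y x d) : y a v ∈ Gd y x (d + 1) := by
  have : Gd y x d ≤ (Gd y x (d + 1)).comap (y a) := by
    apply Submodule.span_le.2
    rintro _ ⟨L, hL, rfl⟩
    rw [SetLike.mem_coe, Submodule.mem_comap, ← wd_cons]
    exact wd_mem y x (by rw [List.length_cons]; omega)
  exact this h

theorem perm_mem (hb : ∀ i j, y i * y j - y j * y i ∈ Submodule.span ℚ (Set.range y))
    {L L' : List (Fin m)} (h : L.Perm L') : wd y x L - wd y x L' ∈ Gd y x L.length := by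
  induction h with
  | nil => rw [sub_self]; exact Submodule.zero_mem _
  | cons a h ih =>
    rw [wd_cons, wd_cons, ← map_sub, List.length_cons]
    exact Gd_map y x a ih
  | swap a b L =>
    rw [wd_cons, wd_cons, wd_cons, wd_cons]
    have h1 : y b (y a (wd y x L)) - y a (y b (wd y x L)) =
        (y b * y a - y a * y b) (wd y x L) := rfl
    rw [h1]
    have h2 : Submodule.span ℚ (Set.range y) ≤
        (Gd y x (b :: a :: L).length).comap (LinearMap.applyₗ (wd y x L)) := by
      apply Submodule.span_le.2
      rintro _ ⟨c, rfl⟩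
      rw [SetLike.mem_coe, Submodule.mem_comap, LinearMap.applyₗ_apply_apply, ← wd_cons]
      exact wd_mem y x (by simp only [List.length_cons]; omega)
    exact h2 (hb b a)
  | trans h1 h2 ih1 ih2 =>
    have := Submodule.add_mem _ ih1 (by rw [h1.length_eq]; exact ih2)
    rwa [sub_add_sub_cancel] at this

theorem sorted_mem (hy : ∀ i, LFin (y i)) (k : ℕ) : ∃ W : Submodule ℚ V, W.FG ∧
    ∀ L : List (Fin m), L.Pairwise (fun a b => b ≤ a) → (∀ i ∈ L, i.val < k) → wd y x L ∈ W := by
  induction k with
  | zero =>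
    refine ⟨Submodule.span ℚ {x}, Submodule.fg_span_singleton x, fun L _ h => ?_⟩
    rcases L with _ | ⟨a, L⟩
    · exact Submodule.mem_span_singleton_self x
    · exact absurd (h a (List.mem_cons_self)) (by omega)
  | succ k ih =>
    obtain ⟨W0, h1, h2⟩ := ih
    by_cases hk : k < m
    · obtain ⟨W, h3, h4, h5⟩ := fg_stb (hy ⟨k, hk⟩) h1
      refine ⟨W, h3, fun L => ?_⟩
      induction L with
      | nil =>
        intro _ _
        exact h4 (h2 [] List.Pairwise.nil (by simp))
      | cons a L ihL =>
        intro hp hl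
        rw [List.pairwise_cons] at hp
        have ha := hl a List.mem_cons_self
        rcases Nat.lt_or_ge a.val k with h6 | h6
        · apply h4
          apply h2
          · rw [List.pairwise_cons]
            exact hp
          · intro i hi
            rcases List.mem_cons.1 hi with rfl | hi
            · exact h6
            · have := hp.1 i hi
              rw [Fin.le_def] at this
              omega
        · have h7 : a = ⟨k, hk⟩ := Fin.ext (by simp only; omega)
          rw [wd_cons, h7]
          exact h5 _ (ihL hp.2 fun i hi => hl i (List.mem_cons_of_mem _ hi))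
    · refine ⟨W0, h1, fun L hp hl => h2 L hp fun i hi => ?_⟩
      have := i.isLt
      omega

/-- a finite dimensional space of locally finite operators which is closed under brackets is
locally finite -/
theorem fin_of_lie (hy : ∀ i, LFin (y i))
    (hb : ∀ i j, y i * y j - y j * y i ∈ Submodule.span ℚ (Set.range y)) :
    ∃ W : Submodule ℚ V, W.FG ∧ x ∈ W ∧ ∀ i, Stb (y i) W := by
  obtain ⟨O, h1, h2⟩ := sorted_mem y x hy m
  have h3 : ∀ d, Gd y x d ≤ O := by
    intro d
    induction d with
    | zero =>
      apply Submodule.span_le.2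
      rintro _ ⟨L, hL, rfl⟩
      omega
    | succ d ih =>
      apply Submodule.span_le.2
      rintro _ ⟨L, hL, rfl⟩
      have h4 := perm_mem y x hb (List.perm_insertionSort (fun a b => b ≤ a) L).symm
      have h5 := h2 (List.insertionSort (fun a b => b ≤ a) L)
        (List.pairwise_insertionSort (fun a b : Fin m => b ≤ a) L) (fun i _ => i.isLt)
      have h6 := O.add_mem (ih (Gd_mono y x (by omega) h4)) h5
      rwa [sub_add_cancel] at h6
  refine ⟨⨆ d, Gd y x d, ?_, ?_, ?_⟩
  · have h4 : ⨆ d, Gd y x d ≤ O := iSup_le h3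
    exact Submodule.FG.of_le h1 h4
  · exact Submodule.mem_iSup_of_mem 1 (wd_mem y x (L := []) (by simp))
  · intro i w hw
    have hdir : Directed (· ≤ ·) (Gd y x) := by
      intro a b
      exact ⟨max a b, Gd_mono y x (le_max_left _ _), Gd_mono y x (le_max_right _ _)⟩
    obtain ⟨d, hd⟩ := (Submodule.mem_iSup_of_directed _ hdir).1 hw
    exact Submodule.mem_iSup_of_mem (d + 1) (Gd_map y x i hd)

end words

/-- the same for any finite index type -/
theorem fin_of_lie' {ι : Type*} [Finite ι] (y : ι → Module.End ℚ V) (x : V)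
    (hy : ∀ i, LFin (y i))
    (hb : ∀ i j, y i * y j - y j * y i ∈ Submodule.span ℚ (Set.range y)) :
    ∃ W : Submodule ℚ V, W.FG ∧ x ∈ W ∧ ∀ i, Stb (y i) W := by
  obtain ⟨m, ⟨e⟩⟩ := Finite.exists_equiv_fin ι
  obtain ⟨W, h1, h2, h3⟩ := fin_of_lie (fun i => y (e.symm i)) x (fun i => hy _) (fun i j => by
    have h4 : Set.range (fun i => y (e.symm i)) = Set.range y := e.symm.surjective.range_comp y
    rw [h4]
    exact hb _ _)
  refine ⟨W, h1, h2, fun i => ?_⟩
  have := h3 (e i)
  simpa using this

end Pool.Agent.TOR.LF
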