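import Mathlib

/-!
# Locally unipotent operators and their logarithms
-/

open scoped BigOperators
open Finset

namespace Pool.Agent.TOR.LF

universe u
variable {V : Type u} [AddCommGroup V] [Module ℚ V]

/-! ## Polynomial functions with values in `V` -/

theorem poly_uniq (n : ℕ) (v : ℕ → V) (h : ∀ a : ℕ, ∑ j ∈ range n, ((a : ℚ) ^ j) • v j = 0) :
    ∀ j < n, v j = 0 := by
  intro j hj
  rw [← Module.forall_dual_apply_eq_zero_iff ℚ]
  intro φ
  set p : Polynomial ℚ := ∑ j ∈ range n, Polynomial.C (φ (v j)) * Polynomial.X ^ j with hp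
  have h1 : p = 0 := by
    apply Polynomial.eq_zero_of_infinite_isRoot
    apply Set.Infinite.mono (s := Set.range (fun a : ℕ => (a : ℚ)))
    · rintro _ ⟨a, rfl⟩
      show Polynomial.eval (a : ℚ) p = 0
      rw [hp, Polynomial.eval_finsetSum]
      have h2 := congrArg φ (h a)
      rw [map_sum, map_zero] at h2
      rw [← h2]
      refine sum_congr rfl fun i _ => ?_
      rw [map_smul, smul_eq_mul, Polynomial.eval_mul, Polynomial.eval_C, Polynomial.eval_pow,
        Polynomial.eval_X, mul_comm]
    · exact Set.infinite_range_of_injective Nat.cast_injective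
  have h2 : p.coeff j = φ (v j) := by
    rw [hp, Polynomial.finsetSum_coeff]
    rw [sum_eq_single j]
    · rw [Polynomial.coeff_C_mul, Polynomial.coeff_X_pow, if_pos rfl, mul_one]
    · intro i _ hi
      rw [Polynomial.coeff_C_mul, Polynomial.coeff_X_pow, if_neg (Ne.symm hi), mul_zero]
    · intro h3
      exact absurd (mem_range.2 hj) h3
  rw [← h2, h1, Polynomial.coeff_zero]

/-- `F` is a polynomial function of the natural number `a`, with linear coefficient `v`. -/
def PF (F : ℕ → V) (v : V) : Prop :=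
  ∃ (n : ℕ) (w : ℕ → V), (∀ a : ℕ, F a = ∑ j ∈ range n, ((a : ℚ) ^ j) • w j) ∧ 1 < n ∧ w 1 = v

theorem PF.ext_n {F : ℕ → V} {v : V} (h : PF F v) : ∃ (n₀ : ℕ), ∀ n ≥ n₀, ∃ w : ℕ → V,
    (∀ a : ℕ, F a = ∑ j ∈ range n, ((a : ℚ) ^ j) • w j) ∧ w 1 = v := by
  obtain ⟨n, w, h1, h2, h3⟩ := h
  refine ⟨n, fun m hm => ⟨fun j => if j < n then w j else 0, ?_, ?_⟩⟩
  · intro a
    rw [h1 a]
    rw [← sum_subset (range_subset_range.2 hm)]
    · exact sum_congr rfl fun j hj => by simp only [if_pos (mem_range.1 hj)]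
    · intro j _ hj
      simp only [mem_range] at hj
      simp only [if_neg hj, smul_zero]
  · simp only [if_pos h2, h3]

theorem PF.uniq {F : ℕ → V} {v v' : V} (h : PF F v) (h' : PF F v') : v = v' := by
  obtain ⟨n, hn⟩ := h.ext_n
  obtain ⟨m, hm⟩ := h'.ext_n
  obtain ⟨w, h1, h2⟩ := hn (max (max n m) 2) (le_trans (le_max_left _ _) (le_max_left _ _))
  obtain ⟨w', h1', h2'⟩ := hm (max (max n m) 2) (le_trans (le_max_right _ _) (le_max_left _ _))
  have h3 := poly_uniq (max (max n m) 2) (fun j => w j - w' j) (by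
    intro a
    simp only [smul_sub, sum_sub_distrib]
    rw [← h1, ← h1', sub_self]) 1 (lt_of_lt_of_le one_lt_two (le_max_right _ _))
  rw [← h2, ← h2']
  exact sub_eq_zero.1 h3

theorem PF.congr {F G : ℕ → V} {v : V} (h : PF F v) (e : ∀ a, F a = G a) : PF G v := by
  have : F = G := funext e
  rwa [← this]

theorem PF.add {F G : ℕ → V} {v v' : V} (h : PF F v) (h' : PF G v') :
    PF (fun a => F a + G a) (v + v') := by
  obtain ⟨n, hn⟩ := h.ext_n
  obtain ⟨m, hm⟩ := h'.ext_n
  obtain ⟨w, h1, h2⟩ := hn (max (max n m) 2) (le_trans (le_max_left _ _) (le_max_left _ _))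
  obtain ⟨w', h1', h2'⟩ := hm (max (max n m) 2) (le_trans (le_max_right _ _) (le_max_left _ _))
  refine ⟨max (max n m) 2, fun j => w j + w' j, ?_, lt_of_lt_of_le one_lt_two (le_max_right _ _), ?_⟩
  · intro a
    beta_reduce
    rw [h1, h1', ← sum_add_distrib]
    exact sum_congr rfl fun j _ => (smul_add _ _ _).symm
  · simp only [h2, h2']

theorem PF.map {F : ℕ → V} {v : V} (h : PF F v) (S : Module.End ℚ V) :
    PF (fun a => S (F a)) (S v) := by
  obtain ⟨n, w, h1, h2, h3⟩ := h
  refine ⟨n, fun j => S (w j), ?_, h2, ?_⟩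
  · intro a
    simp only [h1 a, map_sum, map_smul]
  · simp only [h3]

theorem PF.smul {F : ℕ → V} {v : V} (h : PF F v) : PF (fun a => (a : ℚ) • F a) (F 0) := by
  obtain ⟨n, w, h1, h2, h3⟩ := h
  refine ⟨n + 1, fun j => if j = 0 then 0 else w (j - 1), ?_, by omega, ?_⟩
  · intro a
    beta_reduce
    rw [h1 a, smul_sum, sum_range_succ']
    simp only [if_true, smul_zero, add_zero]
    refine sum_congr rfl fun j _ => ?_
    rw [if_neg (Nat.succ_ne_zero j), Nat.add_sub_cancel, smul_smul, pow_succ, mul_comm]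
  · simp only [one_ne_zero, if_false, Nat.sub_self]
    rw [h1 0, sum_eq_single 0]
    · simp
    · intro j _ hj
      simp [hj]
    · intro h4
      simp only [mem_range, not_lt] at h4
      omega

theorem PF.zero : PF (fun _ : ℕ => (0 : V)) 0 :=
  ⟨2, fun _ => 0, fun a => by simp, by norm_num, rfl⟩

theorem PF.powsmul {F : ℕ → V} {v : V} (h : PF F v) (j : ℕ) :
    PF (fun a => ((a : ℚ) ^ (j + 2)) • F a) 0 := by
  induction j with
  | zero =>
    have h1 := h.smul.smul
    simp only [Nat.cast_zero, zero_smul] at h1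
    refine h1.congr fun a => ?_
    rw [smul_smul, pow_two]
  | succ j ih =>
    have h1 := ih.smul
    simp only [Nat.cast_zero] at h1
    rw [zero_pow (by omega), zero_smul] at h1
    refine h1.congr fun a => ?_
    rw [smul_smul, pow_succ' _ (j + 2)]

/-! ## Logarithms -/

/-- `X` is locally nilpotent. -/
def LN (X : Module.End ℚ V) : Prop := ∀ x, ∃ n : ℕ, (X ^ n) x = 0

/-- `T` is locally unipotent. -/
abbrev LU (T : Module.End ℚ V) : Prop := LN (T - 1)

/-- `X` is a logarithm of `T`. -/
def IsLog (T X : Module.End ℚ V) : Prop :=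
  ∀ x, ∃ n : ℕ, (X ^ n) x = 0 ∧
    ∀ a : ℕ, (T ^ a) x = ∑ j ∈ range n, ((a : ℚ) ^ j / (j.factorial : ℚ)) • (X ^ j) x

theorem pow_zero_of_le {X : Module.End ℚ V} {x : V} {n m : ℕ} (h : (X ^ n) x = 0) (hm : n ≤ m) :
    (X ^ m) x = 0 := by
  obtain ⟨k, rfl⟩ := Nat.exists_eq_add_of_le hm
  rw [add_comm, pow_add, Module.End.mul_apply, h, map_zero]

theorem IsLog.ln {T X : Module.End ℚ V} (h : IsLog T X) : LN X := fun x =>
  ⟨(h x).choose, (h x).choose_spec.1⟩

theorem IsLog.pf {T X : Module.End ℚ V} (h : IsLog T X) (x : V) : PF (fun a => (T ^ a) x) (X x) := by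
  obtain ⟨n, hn, ha⟩ := h x
  refine ⟨n + 2, fun j => (1 / (j.factorial : ℚ)) • (X ^ j) x, ?_, by omega, by simp⟩
  intro a
  beta_reduce
  rw [ha a, ← sum_subset (range_subset_range.2 (by omega : n ≤ n + 2))]
  · refine sum_congr rfl fun j _ => ?_
    rw [smul_smul]
    congr 1
    ring
  · intro j _ hj
    simp only [mem_range, not_lt] at hj
    simp only [pow_zero_of_le hn hj, smul_zero]

/-- The operator `∑ c_k N^k`. -/
noncomputable def evN (N : Module.End ℚ V) (hN : LN N) (c : ℕ → ℚ) : Module.End ℚ V := by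
  classical
  have key : ∀ (x : V) (n : ℕ), (N ^ n) x = 0 →
      ∑ k ∈ range (Nat.find (hN x)), c k • (N ^ k) x = ∑ k ∈ range n, c k • (N ^ k) x := by
    intro x n hn
    apply sum_subset (range_subset_range.2 (Nat.find_min' (hN x) hn))
    intro k _ hk
    simp only [mem_range, not_lt] at hk
    rw [pow_zero_of_le (Nat.find_spec (hN x)) hk, smul_zero]
  exact
  { toFun := fun x => ∑ k ∈ range (Nat.find (hN x)), c k • (N ^ k) x
    map_add' := by
      intro x y
      set m := max (Nat.find (hN x)) (Nat.find (hN y)) with hm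
      have hx : (N ^ m) x = 0 := pow_zero_of_le (Nat.find_spec (hN x)) (le_max_left _ _)
      have hy : (N ^ m) y = 0 := pow_zero_of_le (Nat.find_spec (hN y)) (le_max_right _ _)
      rw [key (x + y) m (by rw [map_add, hx, hy, add_zero]), key x m hx, key y m hy,
        ← sum_add_distrib]
      exact sum_congr rfl fun k _ => by rw [map_add, smul_add]
    map_smul' := by
      intro a x
      have hx := Nat.find_spec (hN x)
      rw [key (a • x) (Nat.find (hN x)) (by rw [map_smul, hx, smul_zero]), smul_sum]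
      exact sum_congr rfl fun k _ => by rw [map_smul, smul_comm, RingHom.id_apply] }

theorem evN_apply (N : Module.End ℚ V) (hN : LN N) (c : ℕ → ℚ) (x : V) (n : ℕ)
    (hn : (N ^ n) x = 0) : evN N hN c x = ∑ k ∈ range n, c k • (N ^ k) x := by
  classical
  show ∑ k ∈ range (Nat.find (hN x)), c k • (N ^ k) x = ∑ k ∈ range n, c k • (N ^ k) x
  apply sum_subset (range_subset_range.2 (Nat.find_min' (hN x) hn))
  intro k _ hk
  simp only [mem_range, not_lt] at hk
  rw [pow_zero_of_le (Nat.find_spec (hN x)) hk, smul_zero]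

theorem evN_comm (N : Module.End ℚ V) (hN : LN N) (c : ℕ → ℚ) (S : Module.End ℚ V)
    (hS : Commute S N) (x : V) : S (evN N hN c x) = evN N hN c (S x) := by
  obtain ⟨n, hn⟩ := hN x
  have h1 : ∀ k, S ((N ^ k) x) = (N ^ k) (S x) := by
    intro k
    have := (hS.pow_right k).eq
    exact LinearMap.congr_fun this x
  rw [evN_apply N hN c x n hn, evN_apply N hN c (S x) n (by rw [← h1, hn, map_zero]), map_sum]
  exact sum_congr rfl fun k _ => by rw [map_smul, h1]

/-- the coefficients of the binomial polynomials -/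
noncomputable def sc (j k : ℕ) : ℚ := (descPochhammer ℚ k).coeff j / (k.factorial : ℚ)

theorem sc_zero {j k : ℕ} (h : k < j) : sc j k = 0 := by
  rw [sc, Polynomial.coeff_eq_zero_of_natDegree_lt, zero_div]
  rw [descPochhammer_natDegree]
  exact h

theorem choose_eq (a k n : ℕ) (h : k < n) :
    (a.choose k : ℚ) = ∑ j ∈ range n, (a : ℚ) ^ j * sc j k := by
  have h1 : (descPochhammer ℚ k).eval (a : ℚ) = (a.descFactorial k : ℚ) :=
    descPochhammer_eval_eq_descFactorial ℚ a k
  have h2 : (a.descFactorial k : ℚ) = (k.factorial : ℚ) * (a.choose k : ℚ) := by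
    rw [Nat.descFactorial_eq_factorial_mul_choose, Nat.cast_mul]
  have h3 : (k.factorial : ℚ) ≠ 0 := by exact_mod_cast k.factorial_ne_zero
  rw [h2] at h1
  have h4 : (a.choose k : ℚ) = (descPochhammer ℚ k).eval (a : ℚ) / (k.factorial : ℚ) := by
    rw [h1]
    field_simp
  rw [h4, Polynomial.eval_eq_sum_range' (n := n) (by rw [descPochhammer_natDegree]; exact h),
    sum_div]
  exact sum_congr rfl fun j _ => by rw [sc]; ring

theorem pow_eq {T : Module.End ℚ V} (x : V) (n : ℕ) (hn : ((T - 1) ^ n) x = 0) (a : ℕ) :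
    (T ^ a) x = ∑ k ∈ range n, (a.choose k : ℚ) • ((T - 1) ^ k) x := by
  have h1 : T ^ a = ((T - 1) + 1) ^ a := by rw [sub_add_cancel]
  rw [h1, (Commute.one_right (T - 1)).add_pow]
  simp only [one_pow, mul_one]
  rw [LinearMap.sum_apply]
  have h2 : ∀ k, (((T - 1) ^ k * ((a.choose k : ℕ) : Module.End ℚ V)) x) =
      (a.choose k : ℚ) • ((T - 1) ^ k) x := by
    intro k
    rw [Module.End.mul_apply]
    have : (((a.choose k : ℕ) : Module.End ℚ V)) x = (a.choose k : ℚ) • x := by
      rw [Module.End.natCast_apply]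
      rw [Nat.cast_smul_eq_nsmul]
    rw [this, map_smul]
  simp only [h2]
  rcases le_total n (a + 1) with h | h
  · symm
    apply sum_subset (range_subset_range.2 h)
    intro k _ hk
    simp only [mem_range, not_lt] at hk
    rw [pow_zero_of_le hn hk, smul_zero]
  · apply sum_subset (range_subset_range.2 h)
    intro k _ hk
    simp only [mem_range, not_lt] at hk
    rw [Nat.choose_eq_zero_of_lt (by omega), Nat.cast_zero, zero_smul]

/-- the `j`-th coefficient operator of `a ↦ T ^ a` -/
noncomputable def cj (T : Module.End ℚ V) (hT : LU T) (j : ℕ) : Module.End ℚ V :=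
  evN (T - 1) hT (sc j)

theorem cj_zero {T : Module.End ℚ V} (hT : LU T) {x : V} {n : ℕ} (hn : ((T - 1) ^ n) x = 0) {j : ℕ}
    (hj : n ≤ j) : cj T hT j x = 0 := by
  rw [cj, evN_apply _ _ _ _ n hn]
  refine sum_eq_zero fun k hk => ?_
  rw [sc_zero (by have := mem_range.1 hk; omega), zero_smul]

theorem pow_cj {T : Module.End ℚ V} (hT : LU T) (x : V) (n : ℕ) (hn : ((T - 1) ^ n) x = 0)
    (a : ℕ) : (T ^ a) x = ∑ j ∈ range n, ((a : ℚ) ^ j) • cj T hT j x := by
  rw [pow_eq x n hn a]
  have h1 : ∀ k ∈ range n, (a.choose k : ℚ) • ((T - 1) ^ k) x =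
      ∑ j ∈ range n, ((a : ℚ) ^ j * sc j k) • ((T - 1) ^ k) x := by
    intro k hk
    rw [choose_eq a k n (mem_range.1 hk), sum_smul]
  rw [sum_congr rfl h1, sum_comm]
  refine sum_congr rfl fun j _ => ?_
  rw [cj, evN_apply _ _ _ _ n hn, smul_sum]
  exact sum_congr rfl fun k _ => by rw [smul_smul]

theorem cj_nil {T : Module.End ℚ V} (hT : LU T) {x : V} {n : ℕ} (hn : ((T - 1) ^ n) x = 0) (i : ℕ) :
    ((T - 1) ^ n) (cj T hT i x) = 0 := by
  rw [cj, evN_comm (T - 1) hT (sc i) ((T - 1) ^ n) ((Commute.refl _).pow_left n), hn, map_zero]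

theorem cj_one {T : Module.End ℚ V} (hT : LU T) (j : ℕ) (x : V) :
    cj T hT j (cj T hT 1 x) = ((j : ℚ) + 1) • cj T hT (j + 1) x := by
  obtain ⟨n, hn⟩ := hT x
  by_cases hj : n ≤ j
  · rw [cj_zero hT (cj_nil hT hn 1) hj, cj_zero hT hn (by omega), smul_zero]
  push Not at hj
  -- enlarge `n` to have `2 ≤ n`
  obtain ⟨m, hm2, hm, hjm⟩ : ∃ m, 2 ≤ m ∧ ((T - 1) ^ m) x = 0 ∧ j < m :=
    ⟨n + 2, by omega, pow_zero_of_le hn (by omega), by omega⟩
  have hA : ∀ a : ℕ, (T ^ a) (cj T hT 1 x) =
      ∑ k ∈ range m, ((k : ℚ) * (a : ℚ) ^ (k - 1)) • cj T hT k x := by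
    intro a
    have h1 : ∀ b : ℕ, ∑ i ∈ range m, ((b : ℚ) ^ i) • ((T ^ a) (cj T hT i x) -
        ∑ k ∈ range m, ((k.choose i : ℚ) * (a : ℚ) ^ (k - i)) • cj T hT k x) = 0 := by
      intro b
      have e1 : (T ^ a) ((T ^ b) x) = (T ^ (a + b)) x := by
        rw [pow_add, Module.End.mul_apply]
      rw [pow_cj hT x m hm b, pow_cj hT x m hm (a + b), map_sum] at e1
      simp only [smul_sub, sum_sub_distrib]
      rw [sub_eq_zero]
      have e2 : ∀ i ∈ range m, (T ^ a) (((b : ℚ) ^ i) • cj T hT i x) =
          ((b : ℚ) ^ i) • (T ^ a) (cj T hT i x) := fun i _ => map_smul _ _ _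
      rw [sum_congr rfl e2] at e1
      rw [e1]
      have e3 : ∀ k ∈ range m, (((a + b : ℕ) : ℚ) ^ k) • cj T hT k x =
          ∑ i ∈ range m, (b : ℚ) ^ i • ((k.choose i : ℚ) * (a : ℚ) ^ (k - i)) • cj T hT k x := by
        intro k hk
        have hk' := mem_range.1 hk
        rw [Nat.cast_add, add_comm (a : ℚ), add_pow, sum_smul]
        rw [← sum_subset (range_subset_range.2 (by omega : k + 1 ≤ m))]
        · refine sum_congr rfl fun i _ => ?_
          rw [smul_smul]
          congr 1
          ring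
        · intro i _ hi
          simp only [mem_range, not_lt] at hi
          rw [Nat.choose_eq_zero_of_lt (by omega), Nat.cast_zero, zero_mul, zero_smul, smul_zero]
      rw [sum_congr rfl e3, sum_comm]
      exact sum_congr rfl fun i _ => by rw [smul_sum]
    have h2 := poly_uniq m _ h1 1 (by omega)
    rw [sub_eq_zero] at h2
    rw [h2]
    exact sum_congr rfl fun k _ => by rw [Nat.choose_one_right]
  have hB : ∀ a : ℕ, ∑ i ∈ range m, ((a : ℚ) ^ i) • (cj T hT i (cj T hT 1 x) -
      ((i : ℚ) + 1) • cj T hT (i + 1) x) = 0 := by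
    intro a
    simp only [smul_sub, sum_sub_distrib]
    rw [sub_eq_zero, ← pow_cj hT (cj T hT 1 x) m (cj_nil hT hm 1) a, hA a]
    obtain ⟨m', rfl⟩ : ∃ m', m = m' + 1 := ⟨m - 1, by omega⟩
    rw [sum_range_succ', sum_range_succ]
    rw [cj_zero hT hm (le_refl (m' + 1))]
    simp only [Nat.cast_zero, zero_mul, zero_smul, add_zero, smul_zero, add_tsub_cancel_right]
    refine sum_congr rfl fun i _ => ?_
    rw [smul_smul]
    congr 1
    push_cast
    ring
  have h3 := poly_uniq m _ hB j hjm
  exact sub_eq_zero.1 h3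

theorem exists_log {T : Module.End ℚ V} (hT : LU T) : ∃ X, IsLog T X := by
  refine ⟨cj T hT 1, ?_⟩
  have h0 : ∀ x, cj T hT 0 x = x := by
    intro x
    obtain ⟨n, hn⟩ := hT x
    by_cases h : n = 0
    · subst h
      simp only [pow_zero, Module.End.one_apply] at hn
      rw [hn, map_zero]
    · have h1 := pow_cj hT x n hn 0
      rw [pow_zero, Module.End.one_apply] at h1
      rw [sum_eq_single 0] at h1
      · simpa using h1.symm
      · intro j _ hj
        simp [hj]
      · intro h2
        simp only [mem_range, not_lt] at h2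
        omega
  have hp : ∀ (j : ℕ) (x : V), ((cj T hT 1) ^ j) x = (j.factorial : ℚ) • cj T hT j x := by
    intro j
    induction j with
    | zero => intro x; simp [h0]
    | succ j ih =>
      intro x
      rw [pow_succ, Module.End.mul_apply, ih, cj_one, smul_smul]
      congr 1
      rw [Nat.factorial_succ]
      push_cast
      ring
  intro x
  obtain ⟨n, hn⟩ := hT x
  refine ⟨n, ?_, ?_⟩
  · rw [hp, cj_zero hT hn le_rfl, smul_zero]
  · intro a
    rw [pow_cj hT x n hn a]
    refine sum_congr rfl fun j _ => ?_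
    rw [hp, smul_smul]
    congr 1
    have : (j.factorial : ℚ) ≠ 0 := by exact_mod_cast j.factorial_ne_zero
    field_simp

theorem IsLog.uniq {T X X' : Module.End ℚ V} (h : IsLog T X) (h' : IsLog T X') : X = X' :=
  LinearMap.ext fun x => (h.pf x).uniq (h'.pf x)

theorem IsLog.comm {T X S : Module.End ℚ V} (h : IsLog T X) (hS : Commute S T) : Commute S X := by
  apply LinearMap.ext
  intro x
  have h1 := (h.pf x).map S
  have h2 := h.pf (S x)
  refine (h1.congr fun a => ?_).uniq h2
  exact LinearMap.congr_fun (hS.pow_right a).eq x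

/-- the derivative of `T ^ a (F a)` -/
theorem IsLog.pf_comp {T X : Module.End ℚ V} (h : IsLog T X) {F : ℕ → V} {v : V} (hF : PF F v) :
    PF (fun a => (T ^ a) (F a)) (X (F 0) + v) := by
  obtain ⟨n, w, h1, h2, h3⟩ := hF
  have e1 : ∀ a, (T ^ a) (F a) = ∑ j ∈ range n, ((a : ℚ) ^ j) • (T ^ a) (w j) := by
    intro a
    rw [h1 a, map_sum]
    exact sum_congr rfl fun j _ => map_smul _ _ _
  have hw0 : F 0 = w 0 := by
    rw [h1 0, sum_eq_single 0]
    · simp
    · intro j _ hj
      simp [hj]
    · intro h4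
      simp only [mem_range, not_lt] at h4
      omega
  have key : ∀ m, PF (fun a => ∑ j ∈ range m, ((a : ℚ) ^ (j + 2)) • (T ^ a) (w (j + 2))) 0 := by
    intro m
    induction m with
    | zero => simpa using PF.zero (V := V)
    | succ m ih =>
      have h5 := ih.add ((h.pf (w (m + 2))).powsmul m)
      rw [add_zero] at h5
      exact h5.congr fun a => by rw [sum_range_succ]
  obtain ⟨m, rfl⟩ : ∃ m, n = m + 2 := ⟨n - 2, by omega⟩
  have h5 := ((key m).add (h.pf (w 1)).smul).add (h.pf (w 0))
  rw [hw0, ← h3]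
  have h6 : (0 : V) + (T ^ 0) (w 1) + X (w 0) = X (w 0) + w 1 := by
    rw [pow_zero, Module.End.one_apply, zero_add, add_comm]
  rw [h6] at h5
  refine h5.congr fun a => ?_
  rw [e1, sum_range_succ', sum_range_succ']
  simp only [zero_add, pow_one, pow_zero, one_smul]

theorem LU.mul {T T' : Module.End ℚ V} (h : LU T) (h' : LU T') (hc : Commute T T') :
    LU (T * T') := by
  intro x
  obtain ⟨n, hn⟩ := h x
  obtain ⟨m, hm⟩ := h' x
  refine ⟨n + m, ?_⟩
  have e : T * T' - 1 = (T - 1) * T' + (T' - 1) := by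
    rw [sub_mul, one_mul]
    abel
  have hc1 : Commute (T - 1) T' := (hc.sub_left (Commute.one_left _))
  have hc2 : Commute (T - 1) (T' - 1) := hc1.sub_right (Commute.one_right _)
  have hc3 : Commute ((T - 1) * T') (T' - 1) :=
    Commute.mul_left hc2 ((Commute.refl T').sub_right (Commute.one_right _))
  rw [e, hc3.add_pow, LinearMap.sum_apply]
  refine sum_eq_zero fun k _ => ?_
  rw [Module.End.mul_apply, Module.End.mul_apply]
  have h3 : ((((n + m).choose k : ℕ) : Module.End ℚ V)) x = ((n + m).choose k : ℚ) • x := by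
    rw [Module.End.natCast_apply, Nat.cast_smul_eq_nsmul]
  rw [h3, map_smul, map_smul]
  rcases le_total n k with hk | hk
  · have h4 : (((T - 1) * T') ^ k) (((T' - 1) ^ (n + m - k)) x) = 0 := by
      rw [hc1.mul_pow, Module.End.mul_apply]
      have e1 : ((T - 1) ^ k) ((T' ^ k) (((T' - 1) ^ (n + m - k)) x)) =
          (T' ^ k) (((T' - 1) ^ (n + m - k)) (((T - 1) ^ k) x)) := by
        have c1 : Commute ((T - 1) ^ k) (T' ^ k * (T' - 1) ^ (n + m - k)) :=
          ((hc1.pow_pow k k).mul_right (hc2.pow_pow k _))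
        have := LinearMap.congr_fun c1.eq x
        simpa only [Module.End.mul_apply] using this
      rw [e1, pow_zero_of_le hn hk, map_zero, map_zero]
    rw [h4, smul_zero]
  · rw [pow_zero_of_le hm (by omega), map_zero, smul_zero]

theorem IsLog.lu {T X : Module.End ℚ V} (h : IsLog T X) : LU T := by
  intro x
  obtain ⟨n, hn, ha⟩ := h x
  -- `T` acts on the span of the `X^j x` and `T - 1` raises `j`
  have key : ∀ k : ℕ, ∀ i, n ≤ i + k → ((T - 1) ^ k) ((X ^ i) x) = 0 := by
    intro k
    induction k with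
    | zero =>
      intro i hi
      rw [pow_zero, Module.End.one_apply, pow_zero_of_le hn (by omega)]
    | succ k ih =>
      intro i hi
      rw [pow_succ, Module.End.mul_apply]
      have hcm : Commute (X ^ i) T := ((h.comm (Commute.refl T)).symm.pow_left i)
      have h1 : (T - 1) ((X ^ i) x) = ∑ j ∈ range n,
          (if j = 0 then (0 : ℚ) else 1 / (j.factorial : ℚ)) • (X ^ (i + j)) x := by
        have e2 : T ((X ^ i) x) = (X ^ i) (T x) := (LinearMap.congr_fun hcm.eq x).symm
        rw [LinearMap.sub_apply, Module.End.one_apply, e2]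
        have e3 := ha 1
        rw [pow_one] at e3
        rw [e3, map_sum]
        by_cases hn0 : n = 0
        · subst hn0
          simp only [pow_zero, Module.End.one_apply] at hn
          simp [hn]
        obtain ⟨n', rfl⟩ : ∃ n', n = n' + 1 := ⟨n - 1, by omega⟩
        rw [sum_range_succ', sum_range_succ']
        simp only [Nat.cast_one, one_pow, pow_zero, Nat.factorial_zero, div_one, one_smul,
          Module.End.one_apply, Nat.succ_ne_zero, if_false, if_true, zero_smul, add_zero]
        rw [add_sub_cancel_right]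
        refine sum_congr rfl fun j _ => ?_
        rw [map_smul, ← Module.End.mul_apply, ← pow_add]
      rw [h1, map_sum]
      refine sum_eq_zero fun j _ => ?_
      rw [map_smul]
      by_cases hj : j = 0
      · rw [if_pos hj, zero_smul]
      · rw [ih (i + j) (by omega), smul_zero]
  refine ⟨n, ?_⟩
  have := key n 0 (by omega)
  simpa using this

theorem IsLog.mul {T T' X X' : Module.End ℚ V} (h : IsLog T X) (h' : IsLog T' X')
    (hc : Commute T T') : IsLog (T * T') (X + X') := by
  obtain ⟨Y, hY⟩ := exists_log (h.lu.mul h'.lu hc)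
  have : Y = X + X' := by
    apply LinearMap.ext
    intro x
    have h1 := h.pf_comp (h'.pf x)
    rw [pow_zero, Module.End.one_apply] at h1
    refine (hY.pf x).uniq (h1.congr fun a => ?_)
    rw [hc.mul_pow, Module.End.mul_apply]
  rw [← this]
  exact hY

theorem IsLog.one : IsLog (1 : Module.End ℚ V) 0 := by
  intro x
  refine ⟨1, by simp, fun a => by simp⟩

theorem IsLog.pow {T X : Module.End ℚ V} (h : IsLog T X) (k : ℕ) : IsLog (T ^ k) ((k : ℚ) • X) := by
  induction k with
  | zero => simpa using IsLog.one (V := V)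
  | succ k ih =>
    have h1 := ih.mul h ((Commute.refl T).pow_left k)
    rw [pow_succ]
    have e : ((k : ℚ) • X + X) = (((k + 1 : ℕ) : ℚ) • X) := by
      push_cast
      rw [add_smul, one_smul]
    rwa [e] at h1

/-- The derivation principle: if `X B^b = B^b (X + b Z + b^2 W)` for all `b`, then
`[X, Y] = Z` for the logarithm `Y` of `B`. -/
theorem bracket_of {B X Y Z W : Module.End ℚ V} (hB : IsLog B Y)
    (h : ∀ (b : ℕ) (x : V), X ((B ^ b) x) = (B ^ b) (X x + (b : ℚ) • Z x + ((b : ℚ) ^ 2) • W x)) :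
    X * Y - Y * X = Z := by
  apply LinearMap.ext
  intro x
  have h1 := (hB.pf x).map X
  have h2 : PF (fun b : ℕ => X x + (b : ℚ) • Z x + ((b : ℚ) ^ 2) • W x) (Z x) := by
    refine ⟨3, fun j => if j = 0 then X x else if j = 1 then Z x else W x, ?_, by norm_num, by simp⟩
    intro a
    simp [sum_range_succ]
  have h3 := hB.pf_comp h2
  have h4 := h1.uniq (h3.congr fun b => (h b x).symm)
  simp only [LinearMap.sub_apply, Module.End.mul_apply]
  rw [h4]
  simp

/-- Heisenberg relations for the logarithms. -/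
theorem heis {A B C X Y Z : Module.End ℚ V} (hA : IsLog A X) (hB : IsLog B Y) (hC : IsLog C Z)
    (h : A * B = C * B * A) (hCA : Commute C A) (hCB : Commute C B) : X * Y - Y * X = Z := by
  have e1 : ∀ x, X (B x) = B (X x + Z x) := by
    intro x
    have h1 := hA.pf (B x)
    have h2 := (hC.mul hA hCA)
    have h3 := (h2.pf x).map B
    have h4 : ∀ a : ℕ, A ^ a * B = B * (C * A) ^ a := by
      intro a
      induction a with
      | zero => simp
      | succ a ih =>
        rw [pow_succ, mul_assoc, h, pow_succ, ← mul_assoc B, ← ih]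
        have h5 : Commute (A ^ a) C := (hCA.symm.pow_left a)
        calc A ^ a * (C * B * A) = (A ^ a * C) * B * A := by simp only [mul_assoc]
          _ = C * A ^ a * B * A := by rw [h5.eq]
          _ = (C * (B * (C * A) ^ a)) * A := by rw [mul_assoc C, ih]
          _ = (B * (C * A) ^ a * C) * A := by
              have h6 : Commute C (B * (C * A) ^ a) :=
                hCB.mul_right (((Commute.refl C).mul_right hCA).pow_right a)
              rw [h6.eq]
          _ = A ^ a * B * (C * A) := by rw [ih]; simp only [mul_assoc]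
    have h5 := h1.uniq (h3.congr fun a => by
      have := LinearMap.congr_fun (h4 a) x
      simp only [Module.End.mul_apply] at this
      rw [this])
    rw [h5]
    simp only [LinearMap.add_apply, add_comm]
  have hZB : Commute B Z := hC.comm hCB.symm
  apply bracket_of (W := 0) hB
  intro b
  induction b with
  | zero => intro x; simp
  | succ b ih =>
    intro x
    rw [pow_succ, Module.End.mul_apply, ih, Module.End.mul_apply]
    congr 1
    have e2 : Z (B x) = B (Z x) := (LinearMap.congr_fun hZB.eq x).symm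
    rw [e1, e2]
    simp only [LinearMap.zero_apply, smul_zero, add_zero, map_add, map_smul]
    push_cast
    module

end Pool.Agent.TOR.LF
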