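import Mathlib

/-!
# Functions on unimodular vectors which are quadratic in the isotropic directions
-/

open scoped BigOperators
open Finset

namespace Pool.Agent.TOR.QD

universe u v w
variable {H : Type u} [AddCommGroup H] {H' : Type w} [AddCommGroup H']
  {A : Type v} [AddCommGroup A] [Module ℚ A]

/-- unimodular vectors -/
def Uni (om : H →ₗ[ℤ] H →ₗ[ℤ] ℤ) (x : H) : Prop := ∃ y, om x y = 1

/-- `q` respects all relations between squares of orthogonal vectors -/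
def QL (om : H →ₗ[ℤ] H →ₗ[ℤ] ℤ) (q : H → A) : Prop :=
  ∀ L : List (ℤ × H), (∀ p ∈ L, Uni om p.2) → (∀ p ∈ L, ∀ p' ∈ L, om p.2 p'.2 = 0) →
    (∀ x, (L.map fun p => (p.1 * om p.2 x) • p.2).sum = 0) →
    (L.map fun p => (p.1 : ℚ) • q p.2).sum = 0

/-- alternating -/
def Alt (om : H →ₗ[ℤ] H →ₗ[ℤ] ℤ) : Prop := ∀ x, om x x = 0

theorem Alt.skew {om : H →ₗ[ℤ] H →ₗ[ℤ] ℤ} (h : Alt om) (x y : H) : om x y = - om y x := by
  have h1 := h (x + y)
  simp only [map_add, LinearMap.add_apply, h x, h y] at h1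
  linarith

theorem Uni.neg {om : H →ₗ[ℤ] H →ₗ[ℤ] ℤ} {x : H} (h : Uni om x) : Uni om (-x) := by
  obtain ⟨y, hy⟩ := h
  exact ⟨-y, by rw [map_neg, map_neg, LinearMap.neg_apply, neg_neg, hy]⟩

theorem uni_of {om : H →ₗ[ℤ] H →ₗ[ℤ] ℤ} {x : H} (y : H) (h : om x y = 1 ∨ om x y = -1) :
    Uni om x := by
  rcases h with h | h
  · exact ⟨y, h⟩
  · exact ⟨-y, by rw [map_neg, h, neg_neg]⟩

section rel

variable {om : H →ₗ[ℤ] H →ₗ[ℤ] ℤ} {q : H → A} (ha : Alt om) (h : QL om q)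

include ha h

theorem QL.neg {x : H} (hx : Uni om x) : q (-x) = q x := by
  have h1 := h [(1, -x), (-1, x)] (by
    intro p hp
    simp only [List.mem_cons, List.not_mem_nil, or_false] at hp
    rcases hp with rfl | rfl
    · exact hx.neg
    · exact hx) (by
    intro p hp p' hp'
    simp only [List.mem_cons, List.not_mem_nil, or_false] at hp hp'
    rcases hp with rfl | rfl <;> rcases hp' with rfl | rfl <;>
      simp [ha x]) (by
    intro z
    simp)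
  simp only [List.map_cons, List.map_nil, List.sum_cons, List.sum_nil, Int.cast_one, one_smul,
    Int.cast_neg, neg_smul, add_zero] at h1
  rw [← sub_eq_add_neg] at h1
  exact sub_eq_zero.1 h1

theorem QL.r2 {x y : H} (α β : ℤ) (hxy : om x y = 0) (hx : Uni om x) (hy : Uni om y)
    (hs : Uni om (x + y)) (hz : Uni om (α • x + β • y)) :
    q (α • x + β • y) = ((α : ℚ) ^ 2) • q x + ((β : ℚ) ^ 2) • q y +
      ((α : ℚ) * β) • (q (x + y) - q x - q y) := by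
  have hyx : om y x = 0 := by rw [ha.skew, hxy, neg_zero]
  have h1 := h [(1, α • x + β • y), (α * β - α ^ 2, x), (α * β - β ^ 2, y), (- (α * β), x + y)] (by
    intro p hp
    simp only [List.mem_cons, List.not_mem_nil, or_false] at hp
    rcases hp with rfl | rfl | rfl | rfl
    · exact hz
    · exact hx
    · exact hy
    · exact hs) (by
    intro p hp p' hp'
    simp only [List.mem_cons, List.not_mem_nil, or_false] at hp hp'
    rcases hp with rfl | rfl | rfl | rfl <;> rcases hp' with rfl | rfl | rfl | rfl <;>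
      simp [ha x, ha y, hxy, hyx]) (by
    intro z
    simp only [List.map_cons, List.map_nil, List.sum_cons, List.sum_nil, map_add, map_smul,
      LinearMap.add_apply, LinearMap.smul_apply, smul_eq_mul]
    module)
  simp only [List.map_cons, List.map_nil, List.sum_cons, List.sum_nil] at h1
  push_cast at h1
  rw [← sub_eq_zero, ← h1]
  module

theorem QL.r3 {x y z : H} (hxy : om x y = 0) (hxz : om x z = 0) (hyz : om y z = 0)
    (hx : Uni om x) (hy : Uni om y) (hz : Uni om z) (hs1 : Uni om (x + y)) (hs2 : Uni om (x + z))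
    (hs3 : Uni om (y + z)) (hs : Uni om (x + y + z)) :
    q (x + y + z) = q (x + y) + q (x + z) + q (y + z) - q x - q y - q z := by
  have hyx : om y x = 0 := by rw [ha.skew, hxy, neg_zero]
  have hzx : om z x = 0 := by rw [ha.skew, hxz, neg_zero]
  have hzy : om z y = 0 := by rw [ha.skew, hyz, neg_zero]
  have h1 := h [(1, x + y + z), (-1, x + y), (-1, x + z), (-1, y + z), (1, x), (1, y), (1, z)] (by
    intro p hp
    simp only [List.mem_cons, List.not_mem_nil, or_false] at hp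
    rcases hp with rfl | rfl | rfl | rfl | rfl | rfl | rfl <;> assumption) (by
    intro p hp p' hp'
    simp only [List.mem_cons, List.not_mem_nil, or_false] at hp hp'
    rcases hp with rfl | rfl | rfl | rfl | rfl | rfl | rfl <;>
      rcases hp' with rfl | rfl | rfl | rfl | rfl | rfl | rfl <;>
      simp [ha x, ha y, ha z, hxy, hyx, hxz, hzx, hyz, hzy]) (by
    intro w
    simp only [List.map_cons, List.map_nil, List.sum_cons, List.sum_nil, map_add,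
      LinearMap.add_apply]
    module)
  simp only [List.map_cons, List.map_nil, List.sum_cons, List.sum_nil] at h1
  push_cast at h1
  rw [← sub_eq_zero, ← h1]
  module

end rel

/-- pull back -/
theorem QL.pull {om : H →ₗ[ℤ] H →ₗ[ℤ] ℤ} {om' : H' →ₗ[ℤ] H' →ₗ[ℤ] ℤ} {q : H → A} (h : QL om q)
    (φ : H' →ₗ[ℤ] H) (e : ∀ x y, om (φ x) (φ y) = om' x y)
    (hs : ∀ x : H, ∃ y : H', ∀ z : H', om (φ z) x = om' z y) : QL om' (fun x => q (φ x)) := by
  intro L h1 h2 h3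
  have h4 := h (L.map fun p => (p.1, φ p.2)) (by
    intro p hp
    obtain ⟨p', hp', rfl⟩ := List.mem_map.1 hp
    obtain ⟨y, hy⟩ := h1 p' hp'
    exact ⟨φ y, by rw [e]; exact hy⟩) (by
    intro p hp p' hp'
    obtain ⟨r, hr, rfl⟩ := List.mem_map.1 hp
    obtain ⟨r', hr', rfl⟩ := List.mem_map.1 hp'
    show om (φ r.2) (φ r'.2) = 0
    rw [e]
    exact h2 r hr r' hr') (by
    intro x
    obtain ⟨y, hy⟩ := hs x
    have h5 := congrArg φ (h3 y)
    rw [map_list_sum, List.map_map, map_zero] at h5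
    rw [List.map_map, ← h5]
    congr 1
    apply List.map_congr_left
    intro p _
    simp only [Function.comp_apply, map_smul, hy])
  rw [List.map_map] at h4
  exact h4

/-- standard space with three blocks -/
abbrev P : Type := ℤ × ℤ × ℤ × ℤ × ℤ × ℤ

/-- standard form -/
def J : P →ₗ[ℤ] P →ₗ[ℤ] ℤ := LinearMap.mk₂ ℤ
  (fun x y => x.1 * y.2.1 - x.2.1 * y.1 + (x.2.2.1 * y.2.2.2.1 - x.2.2.2.1 * y.2.2.1) +
    (x.2.2.2.2.1 * y.2.2.2.2.2 - x.2.2.2.2.2 * y.2.2.2.2.1))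
  (by intro x y z; simp only [Prod.fst_add, Prod.snd_add]; ring)
  (by intro c x y; simp only [Prod.smul_fst, Prod.smul_snd, smul_eq_mul]; ring)
  (by intro x y z; simp only [Prod.fst_add, Prod.snd_add]; ring)
  (by intro c x y; simp only [Prod.smul_fst, Prod.smul_snd, smul_eq_mul]; ring)

theorem J_apply (x y : P) : J x y = x.1 * y.2.1 - x.2.1 * y.1 +
    (x.2.2.1 * y.2.2.2.1 - x.2.2.2.1 * y.2.2.1) +
    (x.2.2.2.2.1 * y.2.2.2.2.2 - x.2.2.2.2.2 * y.2.2.2.2.1) := rfl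

theorem J_alt : Alt J := by intro x; rw [J_apply]; ring

/-- some coordinate is `1` or `-1` -/
def pm (x : P) : Prop := (x.1 = 1 ∨ x.1 = -1) ∨ (x.2.1 = 1 ∨ x.2.1 = -1) ∨
  (x.2.2.1 = 1 ∨ x.2.2.1 = -1) ∨ (x.2.2.2.1 = 1 ∨ x.2.2.2.1 = -1) ∨
  (x.2.2.2.2.1 = 1 ∨ x.2.2.2.2.1 = -1) ∨ (x.2.2.2.2.2 = 1 ∨ x.2.2.2.2.2 = -1)

theorem pm_uni {x : P} (h : pm x) : Uni J x := by
  rcases h with h | h | h | h | h | h
  · exact uni_of (0, 1, 0, 0, 0, 0) (by rw [J_apply]; simpa using h)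
  · exact uni_of (-1, 0, 0, 0, 0, 0) (by rw [J_apply]; simpa using h)
  · exact uni_of (0, 0, 0, 1, 0, 0) (by rw [J_apply]; simpa using h)
  · exact uni_of (0, 0, -1, 0, 0, 0) (by rw [J_apply]; simpa using h)
  · exact uni_of (0, 0, 0, 0, 0, 1) (by rw [J_apply]; simpa using h)
  · exact uni_of (0, 0, 0, 0, -1, 0) (by rw [J_apply]; simpa using h)

/-- three orthogonal hyperbolic pairs -/
structure Hx (om : H →ₗ[ℤ] H →ₗ[ℤ] ℤ) (e1 f1 e2 f2 e3 f3 : H) : Prop where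
  a1 : om e1 f1 = 1
  a2 : om e2 f2 = 1
  a3 : om e3 f3 = 1
  b1 : om e1 e2 = 0
  b2 : om e1 f2 = 0
  b3 : om f1 e2 = 0
  b4 : om f1 f2 = 0
  c1 : om e1 e3 = 0
  c2 : om e1 f3 = 0
  c3 : om f1 e3 = 0
  c4 : om f1 f3 = 0
  d1 : om e2 e3 = 0
  d2 : om e2 f3 = 0
  d3 : om f2 e3 = 0
  d4 : om f2 f3 = 0

/-- the map of the standard space -/
def phi (e1 f1 e2 f2 e3 f3 : H) : P →ₗ[ℤ] H where
  toFun x := x.1 • e1 + x.2.1 • f1 + x.2.2.1 • e2 + x.2.2.2.1 • f2 + x.2.2.2.2.1 • e3 +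
    x.2.2.2.2.2 • f3
  map_add' x y := by
    simp only [Prod.fst_add, Prod.snd_add]
    module
  map_smul' c x := by
    simp only [Prod.smul_fst, Prod.smul_snd, smul_eq_mul, RingHom.id_apply]
    module

theorem phi_apply (e1 f1 e2 f2 e3 f3 : H) (x : P) : phi e1 f1 e2 f2 e3 f3 x =
    x.1 • e1 + x.2.1 • f1 + x.2.2.1 • e2 + x.2.2.2.1 • f2 + x.2.2.2.2.1 • e3 +
    x.2.2.2.2.2 • f3 := rfl

section hx

variable {om : H →ₗ[ℤ] H →ₗ[ℤ] ℤ} {q : H → A} {e1 f1 e2 f2 e3 f3 : H}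

theorem Hx.form (ha : Alt om) (g : Hx om e1 f1 e2 f2 e3 f3) (x y : P) :
    om (phi e1 f1 e2 f2 e3 f3 x) (phi e1 f1 e2 f2 e3 f3 y) = J x y := by
  obtain ⟨a1, a2, a3, b1, b2, b3, b4, c1, c2, c3, c4, d1, d2, d3, d4⟩ := g
  simp only [phi_apply, map_add, map_smul, LinearMap.add_apply, LinearMap.smul_apply, smul_eq_mul,
    ha e1, ha e2, ha e3, ha f1, ha f2, ha f3, a1, a2, a3, b1, b2, b3, b4, c1, c2, c3, c4, d1, d2,
    d3, d4, ha.skew f1 e1, ha.skew f2 e2, ha.skew f3 e3, ha.skew e2 e1, ha.skew f2 e1,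
    ha.skew e2 f1, ha.skew f2 f1, ha.skew e3 e1, ha.skew f3 e1, ha.skew e3 f1, ha.skew f3 f1,
    ha.skew e3 e2, ha.skew f3 e2, ha.skew e3 f2, ha.skew f3 f2, J_apply]
  ring

theorem Hx.ql (ha : Alt om) (g : Hx om e1 f1 e2 f2 e3 f3) (h : QL om q) :
    QL J (fun x => q (phi e1 f1 e2 f2 e3 f3 x)) := by
  refine h.pull _ (g.form ha) fun x => ⟨(- om f1 x, om e1 x, - om f2 x, om e2 x, - om f3 x,
    om e3 x), fun z => ?_⟩
  rw [J_apply, phi_apply]
  simp only [map_add, map_smul, LinearMap.add_apply, LinearMap.smul_apply, smul_eq_mul]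
  ring

end hx

section num

variable {q : P → A} (h : QL J q)

include h

/-- additivity on a hyperbolic pair, standard space -/
theorem a2P : q (1, 0, 1, 1, 0, 0) - q (1, 0, 0, 0, 0, 0) - q (0, 0, 1, 1, 0, 0) =
    (q (1, 0, 1, 0, 0, 0) - q (1, 0, 0, 0, 0, 0) - q (0, 0, 1, 0, 0, 0)) +
    (q (1, 0, 0, 1, 0, 0) - q (1, 0, 0, 0, 0, 0) - q (0, 0, 0, 1, 0, 0)) := by
  have r3 : ∀ x y z : P, J x y = 0 → J x z = 0 → J y z = 0 → pm x → pm y → pm z → pm (x + y) →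
      pm (x + z) → pm (y + z) → pm (x + y + z) →
      q (x + y + z) = q (x + y) + q (x + z) + q (y + z) - q x - q y - q z :=
    fun x y z h1 h2 h3 h4 h5 h6 h7 h8 h9 h10 => h.r3 J_alt h1 h2 h3 (pm_uni h4) (pm_uni h5)
      (pm_uni h6) (pm_uni h7) (pm_uni h8) (pm_uni h9) (pm_uni h10)
  have r2 : ∀ x y : P, J x y = 0 → pm x → pm y → pm (x + y) → pm ((1 : ℤ) • x + (-1 : ℤ) • y) →
      q ((1 : ℤ) • x + (-1 : ℤ) • y) = q x + q y - (q (x + y) - q x - q y) := by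
    intro x y h1 h2 h3 h4 h5
    rw [h.r2 J_alt 1 (-1) h1 (pm_uni h2) (pm_uni h3) (pm_uni h4) (pm_uni h5)]
    push_cast
    module
  have ng : ∀ x : P, pm x → q (-x) = q x := fun x hx => h.neg J_alt (pm_uni hx)
  have I1 := r3 (1, 0, 0, 0, 0, 0) (0, 0, 1, 0, 0, 0) (0, 0, 0, 0, 1, 0)
  have I2 := r3 (1, 0, 0, 0, 0, 0) (0, 0, 0, 1, 0, 0) (0, 0, 0, 0, 0, -1)
  have I3 := r3 (1, 0, 0, 0, 0, 0) (0, 0, 1, 0, 1, 0) (0, 0, 0, 1, 0, -1)
  have I4 := r3 (1, 0, 0, 0, 0, 0) (0, 0, 1, 1, 0, 0) (0, 0, 0, 0, 1, -1)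
  have I5 := r3 (1, 0, 0, 0, 0, 0) (0, 0, -1, 0, 0, 0) (0, 0, 0, 0, 1, 0)
  have I6 := r3 (1, 0, 0, 0, 0, 0) (0, 0, 0, -1, 0, 0) (0, 0, 0, 0, 0, -1)
  have I7 := r3 (1, 0, 0, 0, 0, 0) (0, 0, -1, 0, 1, 0) (0, 0, 0, -1, 0, -1)
  have I8 := r3 (1, 0, 0, 0, 0, 0) (0, 0, -1, -1, 0, 0) (0, 0, 0, 0, 1, -1)
  have O1 := r2 (1, 0, 0, 0, 0, 0) (0, 0, 1, 0, 0, 0)
  have O2 := r2 (1, 0, 0, 0, 0, 0) (0, 0, 0, 1, 0, 0)
  have O3 := r2 (1, 0, 0, 0, 0, 0) (0, 0, 1, 1, 0, 0)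
  have N1 := ng (0, 0, 1, 0, 0, 0)
  have N2 := ng (0, 0, 0, 1, 0, 0)
  have N3 := ng (0, 0, 1, 1, 0, 0)
  norm_num [J_apply, pm] at I1 I2 I3 I4 I5 I6 I7 I8 O1 O2 O3 N1 N2 N3
  linear_combination (norm := module) (1 / 2 : ℚ) • (I3 - I4 + I1 + I2 + I8 - I7 - I5 - I6 + O3 -
    O1 - O2 + N1 + N2 - N3)

end num

section hx2

variable {om : H →ₗ[ℤ] H →ₗ[ℤ] ℤ} {q : H → A} {e1 f1 e2 f2 e3 f3 : H}

/-- additivity on a hyperbolic pair -/
theorem Hx.add2 (ha : Alt om) (h : QL om q) (g : Hx om e1 f1 e2 f2 e3 f3) :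
    q (e1 + (e2 + f2)) - q e1 - q (e2 + f2) =
      (q (e1 + e2) - q e1 - q e2) + (q (e1 + f2) - q e1 - q f2) := by
  have h1 := a2P (g.ql ha h)
  simp only [phi_apply, one_smul, zero_smul, add_zero, zero_add] at h1
  rw [← add_assoc]
  exact h1

end hx2

section num2

variable {q : P → A} (h : QL J q)

include h

/-- parallelogram defects, standard space -/
theorem a3P : q (1, 1, 0, 0, 0, 0) + q (-1, 1, 0, 0, 0, 0) + q (0, 0, 1, 1, 0, 0) +
    q (0, 0, -1, 1, 0, 0) = (2 : ℚ) • (q (0, 1, 0, 0, 0, 0) + q (1, 0, 0, 0, 0, 0) +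
      q (0, 0, 0, 1, 0, 0) + q (0, 0, 1, 0, 0, 0)) := by
  have r2 : ∀ x y : P, J x y = 0 → pm x → pm y → pm (x + y) → pm ((1 : ℤ) • x + (-1 : ℤ) • y) →
      q ((1 : ℤ) • x + (-1 : ℤ) • y) = q x + q y - (q (x + y) - q x - q y) := by
    intro x y h1 h2 h3 h4 h5
    rw [h.r2 J_alt 1 (-1) h1 (pm_uni h2) (pm_uni h3) (pm_uni h4) (pm_uni h5)]
    push_cast
    module
  have ng : ∀ x : P, pm x → q (-x) = q x := fun x hx => h.neg J_alt (pm_uni hx)
  have a2 : ∀ e1 f1 e2 f2 e3 f3 : P, Hx J e1 f1 e2 f2 e3 f3 →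
      q (e1 + (e2 + f2)) - q e1 - q (e2 + f2) =
      (q (e1 + e2) - q e1 - q e2) + (q (e1 + f2) - q e1 - q f2) :=
    fun _ _ _ _ _ _ g => g.add2 J_alt h
  have Z2 := r2 (0, 1, 0, 1, 0, 0) (1, 0, -1, 0, 0, 0)
  have O1 := r2 (1, 0, 0, 0, 0, 0) (0, 0, 1, 0, 0, 0)
  have O2 := r2 (0, 1, 0, 0, 0, 0) (0, 0, 1, 0, 0, 0)
  have O3 := r2 (0, 0, 1, 0, 0, 0) (1, 0, 0, 0, 0, 0)
  have O4 := r2 (0, 0, 0, 1, 0, 0) (1, 0, 0, 0, 0, 0)
  have N1 := ng (0, 0, 1, 0, 0, 0)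
  have N2 := ng (1, 0, 0, 0, 0, 0)
  have Ax := a2 (0, 0, -1, 1, 0, 0) (0, 0, -1, 0, 0, 0) (1, 0, 0, 0, 0, 0) (0, 1, 0, 0, 0, 0)
    (0, 0, 0, 0, 1, 0) (0, 0, 0, 0, 0, 1) (by constructor <;> rw [J_apply] <;> norm_num)
  have A1 := a2 (1, 0, 0, 0, 0, 0) (0, 1, 0, 0, 0, 0) (0, 0, 0, 1, 0, 0) (0, 0, -1, 0, 0, 0)
    (0, 0, 0, 0, 1, 0) (0, 0, 0, 0, 0, 1) (by constructor <;> rw [J_apply] <;> norm_num)
  have A2 := a2 (0, 1, 0, 0, 0, 0) (-1, 0, 0, 0, 0, 0) (0, 0, 0, 1, 0, 0) (0, 0, -1, 0, 0, 0)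
    (0, 0, 0, 0, 1, 0) (0, 0, 0, 0, 0, 1) (by constructor <;> rw [J_apply] <;> norm_num)
  have Ay := a2 (0, 0, 1, 1, 0, 0) (0, 0, 0, 1, 0, 0) (0, 1, 0, 0, 0, 0) (-1, 0, 0, 0, 0, 0)
    (0, 0, 0, 0, 1, 0) (0, 0, 0, 0, 0, 1) (by constructor <;> rw [J_apply] <;> norm_num)
  have A3 := a2 (0, 1, 0, 0, 0, 0) (-1, 0, 0, 0, 0, 0) (0, 0, 1, 0, 0, 0) (0, 0, 0, 1, 0, 0)
    (0, 0, 0, 0, 1, 0) (0, 0, 0, 0, 0, 1) (by constructor <;> rw [J_apply] <;> norm_num)
  have A4 := a2 (-1, 0, 0, 0, 0, 0) (0, -1, 0, 0, 0, 0) (0, 0, 1, 0, 0, 0) (0, 0, 0, 1, 0, 0)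
    (0, 0, 0, 0, 1, 0) (0, 0, 0, 0, 0, 1) (by constructor <;> rw [J_apply] <;> norm_num)
  norm_num [J_apply, pm] at Z2 O1 O2 O3 O4 N1 N2 Ax A1 A2 Ay A3 A4
  linear_combination (norm := module) Z2 - Ax - Ay - A1 - A2 - A3 - A4 - O2 - O4 + O1 - O3 +
    (2 : ℚ) • N1 + (2 : ℚ) • N2

end num2

section hx3

variable {om : H →ₗ[ℤ] H →ₗ[ℤ] ℤ} {q : H → A} {e1 f1 e2 f2 e3 f3 : H}

theorem Hx.par' (ha : Alt om) (h : QL om q) (g : Hx om e1 f1 e2 f2 e3 f3) :
    (q (f1 + e1) + q (f1 - e1) - (2 : ℚ) • (q f1 + q e1)) +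
      (q (f2 + e2) + q (f2 - e2) - (2 : ℚ) • (q f2 + q e2)) = 0 := by
  have h1 := a3P (g.ql ha h)
  simp only [phi_apply, one_smul, zero_smul, add_zero, zero_add, neg_smul] at h1
  rw [neg_add_eq_sub, neg_add_eq_sub, add_comm e1 f1, add_comm e2 f2] at h1
  linear_combination (norm := module) h1

theorem Hx.rot (ha : Alt om) (g : Hx om e1 f1 e2 f2 e3 f3) : Hx om e2 f2 e3 f3 e1 f1 := by
  obtain ⟨a1, a2, a3, b1, b2, b3, b4, c1, c2, c3, c4, d1, d2, d3, d4⟩ := g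
  constructor <;> first | assumption | (rw [ha.skew, neg_eq_zero]; assumption)

/-- parallelogram law on a hyperbolic pair -/
theorem Hx.par (ha : Alt om) (h : QL om q) (g : Hx om e1 f1 e2 f2 e3 f3) :
    q (f1 + e1) + q (f1 - e1) = (2 : ℚ) • (q f1 + q e1) := by
  have h1 := g.par' ha h
  have h2 := (g.rot ha).par' ha h
  have h3 := ((g.rot ha).rot ha).par' ha h
  linear_combination (norm := module) (1 / 2 : ℚ) • (h1 - h2 + h3)

end hx3

/-! ### Euclid -/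

theorem eucl (PP : (ℤ → ℤ → A) → Prop) (h1 : ∀ φ, PP φ → PP (fun a b => φ (a + b) b))
    (h2 : ∀ φ, PP φ → PP (fun a b => φ (a - b) b)) (h3 : ∀ φ, PP φ → PP (fun a b => φ b (-a)))
    (h0 : ∀ φ, PP φ → φ 1 0 = 0) (N : ℕ) : ∀ φ, PP φ → ∀ a b : ℤ, IsCoprime a b →
      a.natAbs + b.natAbs ≤ N → φ a b = 0 := by
  induction N using Nat.strong_induction_on with
  | _ N ih =>
  -- the case of a large first coordinate
  have key : ∀ φ, PP φ → ∀ a b : ℤ, IsCoprime a b → a.natAbs + b.natAbs ≤ N →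
      b.natAbs ≤ a.natAbs → φ a b = 0 := by
    intro φ hφ a b hab hN hba
    by_cases hb : b = 0
    · subst hb
      have ha : IsUnit a := isCoprime_zero_right.1 hab
      rcases Int.isUnit_iff.1 ha with rfl | rfl
      · exact h0 φ hφ
      · have h4 := h0 _ (h3 _ (h3 _ hφ))
        simpa using h4
    · have hb1 : 1 ≤ b.natAbs := by omega
      by_cases hs : (0 < a ∧ 0 < b) ∨ (a < 0 ∧ b < 0)
      · have h4 := ih (N - 1) (by omega) _ (h1 _ hφ) (a - b) b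
          (by
            have := hab.add_mul_right_left (-1)
            rwa [show a + -1 * b = a - b by ring] at this) (by omega)
        rw [← h4]
        show φ a b = φ (a - b + b) b
        rw [sub_add_cancel]
      · have h4 := ih (N - 1) (by omega) _ (h2 _ hφ) (a + b) b
          (by
            have := hab.add_mul_right_left 1
            rwa [show a + 1 * b = a + b by ring] at this) (by omega)
        rw [← h4]
        show φ a b = φ (a + b - b) b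
        rw [add_sub_cancel_right]
  intro φ hφ a b hab hN
  rcases Nat.le_total b.natAbs a.natAbs with hba | hba
  · exact key φ hφ a b hab hN hba
  · have h4 := key _ (h3 _ hφ) (-b) a hab.symm.neg_left (by omega) (by omega)
    rw [← h4]
    show φ a b = φ a (- -b)
    rw [neg_neg]

/-- additive functions -/
theorem eu1 (φ : ℤ → ℤ → A)
    (h1 : ∀ a b c d : ℤ, a * d - b * c = 1 → φ (a + c) (b + d) = φ a b + φ c d)
    (h2 : ∀ a b c d : ℤ, a * d - b * c = 1 → φ (-a) (-b) = - φ a b)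
    (h3 : φ 1 0 = 0) (h4 : φ 0 1 = 0) (a b : ℤ) (hab : IsCoprime a b) : φ a b = 0 := by
  refine eucl (fun φ => (∀ a b c d : ℤ, a * d - b * c = 1 → φ (a + c) (b + d) = φ a b + φ c d) ∧
    (∀ a b c d : ℤ, a * d - b * c = 1 → φ (-a) (-b) = - φ a b) ∧ φ 1 0 = 0 ∧ φ 0 1 = 0)
    ?_ ?_ ?_ (fun φ h => h.2.2.1) _ φ ⟨h1, h2, h3, h4⟩ a b hab le_rfl
  · rintro φ ⟨h1, h2, h3, h4⟩
    refine ⟨?_, ?_, ?_, ?_⟩
    · intro a b c d e
      show φ (a + c + (b + d)) (b + d) = φ (a + b) b + φ (c + d) d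
      rw [← h1 (a + b) b (c + d) d (by linear_combination e)]
      congr 1
      ring
    · intro a b c d e
      show φ (-a + -b) (-b) = - φ (a + b) b
      rw [← h2 (a + b) b (c + d) d (by linear_combination e)]
      congr 1
      ring
    · show φ (1 + 0) 0 = 0
      rw [add_zero, h3]
    · show φ (0 + 1) 1 = 0
      have := h1 1 0 0 1 (by norm_num)
      rw [h3, h4] at this
      simpa using this
  · rintro φ ⟨h1, h2, h3, h4⟩
    refine ⟨?_, ?_, ?_, ?_⟩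
    · intro a b c d e
      show φ (a + c - (b + d)) (b + d) = φ (a - b) b + φ (c - d) d
      rw [← h1 (a - b) b (c - d) d (by linear_combination e)]
      congr 1
      ring
    · intro a b c d e
      show φ (-a - -b) (-b) = - φ (a - b) b
      rw [← h2 (a - b) b (c - d) d (by linear_combination e)]
      congr 1
      ring
    · show φ (1 - 0) 0 = 0
      rw [sub_zero, h3]
    · show φ (0 - 1) 1 = 0
      have h5 := h1 0 1 (-1) 0 (by norm_num)
      have h6 := h2 1 0 0 1 (by norm_num)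
      rw [h3] at h6
      norm_num at h5 h6 ⊢
      rw [h5, h4, h6, add_zero]
  · rintro φ ⟨h1, h2, h3, h4⟩
    refine ⟨?_, ?_, ?_, ?_⟩
    · intro a b c d e
      show φ (b + d) (-(a + c)) = φ b (-a) + φ d (-c)
      rw [← h1 b (-a) d (-c) (by linear_combination e)]
      congr 1
      ring
    · intro a b c d e
      show φ (-b) (- -a) = - φ b (-a)
      exact h2 b (-a) d (-c) (by linear_combination e)
    · show φ 0 (-1) = 0
      have h6 := h2 0 1 (-1) 0 (by norm_num)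
      rw [h4] at h6
      norm_num at h6
      exact h6
    · show φ 1 (-0) = 0
      rw [neg_zero, h3]

/-- quadratic functions -/
theorem eu2 (φ : ℤ → ℤ → A)
    (h1 : ∀ a b c d : ℤ, a * d - b * c = 1 →
      φ (c + a) (d + b) + φ (c - a) (d - b) = (2 : ℚ) • (φ c d + φ a b))
    (h2 : ∀ a b c d : ℤ, a * d - b * c = 1 → φ (-a) (-b) = φ a b)
    (h3 : φ 1 0 = 0) (h4 : φ 0 1 = 0) (h5 : φ 1 1 = 0) (a b : ℤ) (hab : IsCoprime a b) :
    φ a b = 0 := by
  refine eucl (fun φ => (∀ a b c d : ℤ, a * d - b * c = 1 →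
      φ (c + a) (d + b) + φ (c - a) (d - b) = (2 : ℚ) • (φ c d + φ a b)) ∧
    (∀ a b c d : ℤ, a * d - b * c = 1 → φ (-a) (-b) = φ a b) ∧ φ 1 0 = 0 ∧ φ 0 1 = 0 ∧ φ 1 1 = 0)
    ?_ ?_ ?_ (fun φ h => h.2.2.1) _ φ ⟨h1, h2, h3, h4, h5⟩ a b hab le_rfl
  · rintro φ ⟨h1, h2, h3, h4, h5⟩
    refine ⟨?_, ?_, ?_, ?_, ?_⟩
    · intro a b c d e
      show φ (c + a + (d + b)) (d + b) + φ (c - a + (d - b)) (d - b) =
        (2 : ℚ) • (φ (c + d) d + φ (a + b) b)
      rw [← h1 (a + b) b (c + d) d (by linear_combination e)]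
      congr 2 <;> ring
    · intro a b c d e
      show φ (-a + -b) (-b) = φ (a + b) b
      rw [← h2 (a + b) b (c + d) d (by linear_combination e)]
      congr 1
      ring
    · show φ (1 + 0) 0 = 0
      rw [add_zero, h3]
    · show φ (0 + 1) 1 = 0
      rw [zero_add, h5]
    · show φ (1 + 1) 1 = 0
      have h6 := h1 1 0 1 1 (by norm_num)
      norm_num at h6 ⊢
      rw [h3, h4, h5] at h6
      simpa using h6
  · rintro φ ⟨h1, h2, h3, h4, h5⟩
    have h8 : φ (-1) 1 = 0 := by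
      have h6 := h1 1 0 0 1 (by norm_num)
      norm_num at h6
      rw [h3, h4, h5] at h6
      simpa using h6
    refine ⟨?_, ?_, ?_, ?_, ?_⟩
    · intro a b c d e
      show φ (c + a - (d + b)) (d + b) + φ (c - a - (d - b)) (d - b) =
        (2 : ℚ) • (φ (c - d) d + φ (a - b) b)
      rw [← h1 (a - b) b (c - d) d (by linear_combination e)]
      congr 2 <;> ring
    · intro a b c d e
      show φ (-a - -b) (-b) = φ (a - b) b
      rw [← h2 (a - b) b (c - d) d (by linear_combination e)]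
      congr 1
      ring
    · show φ (1 - 0) 0 = 0
      rw [sub_zero, h3]
    · show φ (0 - 1) 1 = 0
      rw [zero_sub, h8]
    · show φ (1 - 1) 1 = 0
      rw [sub_self, h4]
  · rintro φ ⟨h1, h2, h3, h4, h5⟩
    have h8 : φ (-1) 1 = 0 := by
      have h6 := h1 1 0 0 1 (by norm_num)
      norm_num at h6
      rw [h3, h4, h5] at h6
      simpa using h6
    refine ⟨?_, ?_, ?_, ?_, ?_⟩
    · intro a b c d e
      show φ (d + b) (-(c + a)) + φ (d - b) (-(c - a)) = (2 : ℚ) • (φ d (-c) + φ b (-a))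
      rw [← h1 b (-a) d (-c) (by linear_combination e)]
      congr 2 <;> ring
    · intro a b c d e
      show φ (-b) (- -a) = φ b (-a)
      exact h2 b (-a) d (-c) (by linear_combination e)
    · show φ 0 (-1) = 0
      have h6 := h2 0 1 (-1) 0 (by norm_num)
      rw [h4] at h6
      norm_num at h6
      exact h6
    · show φ 1 (-0) = 0
      rw [neg_zero, h3]
    · show φ 1 (-1) = 0
      have h6 := h2 (-1) 1 0 (-1) (by norm_num)
      rw [h8] at h6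
      norm_num at h6
      exact h6

end Pool.Agent.TOR.QD
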