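import Pool.Agent.Helper56_TOR.Qd

/-!
# The standard symplectic lattice: functions with the isotropic relations are quadratic
-/

open scoped BigOperators
open Finset

namespace Pool.Agent.TOR.QD

universe v
variable {n : ℕ} {A : Type v} [AddCommGroup A] [Module ℚ A]

/-- the standard lattice -/
abbrev HH (n : ℕ) : Type := Fin 2 × Fin n → ℤ

/-- the standard form -/
def omn (n : ℕ) : HH n →ₗ[ℤ] HH n →ₗ[ℤ] ℤ := LinearMap.mk₂ ℤ
  (fun x y => ∑ i, (x (0, i) * y (1, i) - x (1, i) * y (0, i)))
  (by intro x y z; rw [← sum_add_distrib]; exact sum_congr rfl fun i _ => by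
        simp only [Pi.add_apply]; ring)
  (by intro c x y; rw [smul_sum]; exact sum_congr rfl fun i _ => by
        simp only [Pi.smul_apply, smul_eq_mul]; ring)
  (by intro x y z; rw [← sum_add_distrib]; exact sum_congr rfl fun i _ => by
        simp only [Pi.add_apply]; ring)
  (by intro c x y; rw [smul_sum]; exact sum_congr rfl fun i _ => by
        simp only [Pi.smul_apply, smul_eq_mul]; ring)

theorem omn_apply (x y : HH n) : omn n x y = ∑ i, (x (0, i) * y (1, i) - x (1, i) * y (0, i)) := rfl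

theorem omn_alt : Alt (omn n) := by
  intro x
  rw [omn_apply]
  exact sum_eq_zero fun i _ => by ring

/-- basis vectors -/
abbrev bb (a : Fin 2 × Fin n) : HH n := Pi.single a 1

/-- a vector in a block -/
def pv (i : Fin n) (a b : ℤ) : HH n := a • bb (0, i) + b • bb (1, i)

theorem pv_add (i : Fin n) (a b c d : ℤ) : pv i (a + c) (b + d) = pv i a b + pv i c d := by
  unfold pv; module

theorem pv_sub (i : Fin n) (a b c d : ℤ) : pv i (a - c) (b - d) = pv i a b - pv i c d := by
  unfold pv; module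

theorem pv_neg (i : Fin n) (a b : ℤ) : pv i (-a) (-b) = - pv i a b := by
  unfold pv; module

theorem pv_smul (i : Fin n) (c a b : ℤ) : pv i (c * a) (c * b) = c • pv i a b := by
  unfold pv; module

theorem pv10 (i : Fin n) : pv i 1 0 = bb (0, i) := by unfold pv; simp

theorem pv01 (i : Fin n) : pv i 0 1 = bb (1, i) := by unfold pv; simp

theorem pv_apply (i : Fin n) (a b : ℤ) (s : Fin 2) (j : Fin n) :
    pv i a b (s, j) = if j = i then (if s = 0 then a else b) else 0 := by
  unfold pv
  simp only [Pi.add_apply, Pi.smul_apply, smul_eq_mul, Pi.single_apply, Prod.mk.injEq]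
  fin_cases s
  · by_cases h : j = i
    · simp [h]
    · simp [h]
  · by_cases h : j = i
    · simp [h]
    · simp [h]

theorem omn_pv (i : Fin n) (a b : ℤ) (x : HH n) :
    omn n (pv i a b) x = a * x (1, i) - b * x (0, i) := by
  rw [omn_apply, sum_eq_single i]
  · rw [pv_apply, pv_apply]
    simp
  · intro j _ hj
    rw [pv_apply, pv_apply, if_neg hj, if_neg hj]
    ring
  · intro h
    exact absurd (mem_univ i) h

theorem omn_pp (i j : Fin n) (a b c d : ℤ) :
    omn n (pv i a b) (pv j c d) = if i = j then a * d - b * c else 0 := by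
  rw [omn_pv, pv_apply, pv_apply]
  by_cases h : i = j
  · simp [h]
  · simp [h]

theorem sum_pv (v : HH n) : v = ∑ i, pv i (v (0, i)) (v (1, i)) := by
  funext ⟨s, j⟩
  rw [Finset.sum_apply, sum_eq_single j]
  · rw [pv_apply]
    fin_cases s <;> simp
  · intro i _ hi
    rw [pv_apply, if_neg hi.symm]
  · intro h
    exact absurd (mem_univ j) h

theorem hx_block {i j l : Fin n} (hij : i ≠ j) (hil : i ≠ l) (hjl : j ≠ l)
    {a b c d a' b' c' d' a'' b'' c'' d'' : ℤ} (h1 : a * d - b * c = 1)
    (h2 : a' * d' - b' * c' = 1) (h3 : a'' * d'' - b'' * c'' = 1) :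
    Hx (omn n) (pv i a b) (pv i c d) (pv j a' b') (pv j c' d') (pv l a'' b'') (pv l c'' d'') := by
  constructor <;> rw [omn_pp] <;> simp [hij, hil, hjl, h1, h2, h3]

theorem uni_pv (i : Fin n) {a b : ℤ} (h : IsCoprime a b) : ∃ c d : ℤ, a * d - b * c = 1 ∧
    omn n (pv i a b) (pv i c d) = 1 := by
  obtain ⟨u, v, huv⟩ := h
  refine ⟨-v, u, by linear_combination huv, ?_⟩
  rw [omn_pp, if_pos rfl]
  linear_combination huv

theorem exists_third (hn : 3 ≤ n) (a b : Fin n) : ∃ c, a ≠ c ∧ b ≠ c := by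
  by_contra h
  push Not at h
  have h1 : (univ : Finset (Fin n)) ⊆ {a, b} := by
    intro c _
    rw [mem_insert, mem_singleton]
    by_cases hc : a = c
    · exact Or.inl hc.symm
    · exact Or.inr (h c hc).symm
  have h2 := card_le_card h1
  rw [card_univ, Fintype.card_fin] at h2
  have h4 := card_le_two (a := a) (b := b)
  omega

section van

variable {q : HH n → A} (hn : 3 ≤ n) (h : QL (omn n) q) (h1 : ∀ a, q (bb a) = 0)
  (h2 : ∀ a c, a ≠ c → q (bb a + bb c) = 0)

include hn h h1 h2

/-- one block -/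
theorem van1 (i : Fin n) {a b : ℤ} (hab : IsCoprime a b) : q (pv i a b) = 0 := by
  obtain ⟨j, hij, -⟩ := exists_third hn i i
  obtain ⟨l, hil, hjl⟩ := exists_third hn i j
  refine eu2 (fun a b => q (pv i a b)) ?_ ?_ ?_ ?_ ?_ a b hab
  · intro a b c d e
    show q (pv i (c + a) (d + b)) + q (pv i (c - a) (d - b)) =
      (2 : ℚ) • (q (pv i c d) + q (pv i a b))
    rw [pv_add, pv_sub]
    exact (hx_block hij hil hjl e (a' := 1) (b' := 0) (c' := 0) (d' := 1) (a'' := 1) (b'' := 0)
      (c'' := 0) (d'' := 1) (by norm_num) (by norm_num)).par omn_alt h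
  · intro a b c d e
    show q (pv i (-a) (-b)) = q (pv i a b)
    rw [pv_neg]
    exact h.neg omn_alt ⟨pv i c d, by rw [omn_pp, if_pos rfl, e]⟩
  · show q (pv i 1 0) = 0
    rw [pv10, h1]
  · show q (pv i 0 1) = 0
    rw [pv01, h1]
  · show q (pv i 1 1) = 0
    have e1 : pv i 1 1 = bb (0, i) + bb (1, i) := by
      unfold pv; rw [one_smul, one_smul]
    rw [e1]
    exact h2 _ _ (by simp)

/-- a fixed primitive vector in another block -/
theorem lin1 {i j : Fin n} (hij : i ≠ j) {a b : ℤ} (hab : IsCoprime a b)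
    (g1 : q (pv i a b + pv j 1 0) = 0) (g2 : q (pv i a b + pv j 0 1) = 0) {c d : ℤ}
    (hcd : IsCoprime c d) : q (pv i a b + pv j c d) = 0 := by
  obtain ⟨l, hil, hjl⟩ := exists_third hn i j
  obtain ⟨a', b', e0, e0'⟩ := uni_pv i hab
  have v1 := van1 hn h h1 h2 i hab
  have key : (fun c d => q (pv i a b + pv j c d) - q (pv i a b) - q (pv j c d)) c d = 0 := by
    refine eu1 (fun c d => q (pv i a b + pv j c d) - q (pv i a b) - q (pv j c d)) ?_ ?_ ?_ ?_ c d
      hcd
    · intro x y z t e
      show q (pv i a b + pv j (x + z) (y + t)) - q (pv i a b) - q (pv j (x + z) (y + t)) = _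
      rw [pv_add]
      exact (hx_block hij hil hjl e0 e (a'' := 1) (b'' := 0) (c'' := 0) (d'' := 1)
        (by norm_num)).add2 omn_alt h
    · intro x y z t e
      show q (pv i a b + pv j (-x) (-y)) - q (pv i a b) - q (pv j (-x) (-y)) =
        - (q (pv i a b + pv j x y) - q (pv i a b) - q (pv j x y))
      have o1 : omn n (pv i a b) (pv j x y) = 0 := by rw [omn_pp, if_neg hij]
      have o2 : omn n (pv j x y) (pv i a' b') = 0 := by rw [omn_pp, if_neg hij.symm]
      have u1 : Uni (omn n) (pv j x y) := ⟨pv j z t, by rw [omn_pp, if_pos rfl, e]⟩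
      have e2 := h.r2 omn_alt 1 (-1) o1 ⟨_, e0'⟩ u1
        ⟨pv i a' b', by rw [map_add, LinearMap.add_apply, e0', o2, add_zero]⟩
        ⟨pv i a' b', by
          rw [map_add, LinearMap.add_apply, map_smul, map_smul, LinearMap.smul_apply,
            LinearMap.smul_apply, e0', o2, smul_zero, add_zero, one_smul]⟩
      rw [one_smul, neg_smul, one_smul] at e2
      rw [pv_neg, h.neg omn_alt u1, e2]
      push_cast
      module
    · show q (pv i a b + pv j 1 0) - q (pv i a b) - q (pv j 1 0) = 0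
      rw [g1, v1, pv10, h1, sub_zero, sub_zero]
    · show q (pv i a b + pv j 0 1) - q (pv i a b) - q (pv j 0 1) = 0
      rw [g2, v1, pv01, h1, sub_zero, sub_zero]
  have key' : q (pv i a b + pv j c d) - q (pv i a b) - q (pv j c d) = 0 := key
  rw [v1, van1 hn h h1 h2 j hcd, sub_zero, sub_zero] at key'
  exact key'

/-- two blocks -/
theorem van2 {i j : Fin n} (hij : i ≠ j) {a b c d : ℤ} (hab : IsCoprime a b)
    (hcd : IsCoprime c d) : q (pv i a b + pv j c d) = 0 := by
  have k1 : q (pv j 1 0 + pv i a b) = 0 := by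
    refine lin1 hn h h1 h2 hij.symm (by exact isCoprime_one_left) ?_ ?_ hab
    · rw [pv10, pv10]; exact h2 _ _ (by simp [hij.symm])
    · rw [pv10, pv01]; exact h2 _ _ (by simp)
  have k2 : q (pv j 0 1 + pv i a b) = 0 := by
    refine lin1 hn h h1 h2 hij.symm (by exact isCoprime_one_right) ?_ ?_ hab
    · rw [pv10, pv01]; exact h2 _ _ (by simp)
    · rw [pv01, pv01]; exact h2 _ _ (by simp [hij.symm])
  exact lin1 hn h h1 h2 hij hab (by rw [add_comm]; exact k1) (by rw [add_comm]; exact k2) hcd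

omit hn h h1 h2 in
theorem exists_gcd (x y : ℤ) : ∃ d a b : ℤ, IsCoprime a b ∧ x = d * a ∧ y = d * b := by
  by_cases hxy : 0 < Int.gcd x y
  · obtain ⟨a, b, h1, h2, h3⟩ := Int.exists_gcd_one hxy
    exact ⟨Int.gcd x y, a, b, Int.isCoprime_iff_gcd_eq_one.2 h1, by rw [mul_comm]; exact h2,
      by rw [mul_comm]; exact h3⟩
  · have h1 : Int.gcd x y = 0 := by omega
    obtain ⟨h2, h3⟩ := Int.gcd_eq_zero_iff.1 h1
    exact ⟨0, 1, 0, isCoprime_one_left, by rw [h2]; ring, by rw [h3]; ring⟩

omit hn h h1 h2 in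
/-- the identity between squares -/
theorem sq_id (d : Fin n → ℤ) (p : Fin n → HH n) (w : Fin n → ℤ) :
    ∑ jk ∈ (univ : Finset (Fin n × Fin n)).filter (fun jk => jk.1 ≠ jk.2),
      (d jk.1 * d jk.2 * (w jk.1 + w jk.2)) • (p jk.1 + p jk.2) =
    (2 * ∑ j, d j * w j) • (∑ k, d k • p k) -
      ∑ j, ((4 * d j ^ 2 - 2 * d j * ∑ k, d k) * w j) • p j := by
  have e1 : ∑ jk ∈ (univ : Finset (Fin n × Fin n)).filter (fun jk => jk.1 ≠ jk.2),
      (d jk.1 * d jk.2 * (w jk.1 + w jk.2)) • (p jk.1 + p jk.2) =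
      ∑ j, ∑ k, (d j * d k * (w j + w k)) • (p j + p k) - ∑ j, (4 * d j ^ 2 * w j) • p j := by
    rw [eq_sub_iff_add_eq, sum_filter]
    have e2 : ∑ j, (4 * d j ^ 2 * w j) • p j = ∑ jk : Fin n × Fin n,
        if jk.1 ≠ jk.2 then (0 : HH n) else
          (d jk.1 * d jk.2 * (w jk.1 + w jk.2)) • (p jk.1 + p jk.2) := by
      rw [Fintype.sum_prod_type]
      refine sum_congr rfl fun j _ => ?_
      rw [sum_eq_single j]
      · rw [if_neg (by simp)]
        module
      · intro k _ hk
        rw [if_pos (fun h => hk h.symm)]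
      · intro h
        exact absurd (mem_univ j) h
    rw [e2, ← sum_add_distrib, Fintype.sum_prod_type]
    refine sum_congr rfl fun j _ => sum_congr rfl fun k _ => ?_
    dsimp only
    split_ifs <;> simp
  have t1 : ∀ j, ∑ k, (d j * d k * (w j + w k)) • (p j + p k) =
      (d j * w j * ∑ k, d k) • p j + (d j * ∑ k, d k * w k) • p j +
      (d j * w j) • (∑ k, d k • p k) + d j • (∑ k, (d k * w k) • p k) := by
    intro j
    rw [mul_sum, mul_sum, sum_smul, sum_smul, smul_sum, smul_sum, ← sum_add_distrib,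
      ← sum_add_distrib, ← sum_add_distrib]
    refine sum_congr rfl fun k _ => ?_
    module
  rw [e1, sum_congr rfl fun j _ => t1 j, sum_add_distrib, sum_add_distrib, sum_add_distrib]
  have t2 : ∑ j, (d j * ∑ k, d k * w k) • p j = (∑ j, d j * w j) • (∑ k, d k • p k) := by
    rw [smul_sum]
    exact sum_congr rfl fun j _ => by module
  have t3 : ∑ j, (d j * w j) • (∑ k, d k • p k) = (∑ j, d j * w j) • (∑ k, d k • p k) := by
    rw [sum_smul]
  have t4 : ∑ j, d j • (∑ k, (d k * w k) • p k) = ∑ j, (d j * w j * ∑ k, d k) • p j := by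
    rw [← sum_smul, smul_sum]
    exact sum_congr rfl fun j _ => by module
  have t5 : ∑ j, ((4 * d j ^ 2 - 2 * d j * ∑ k, d k) * w j) • p j =
      ∑ j, (4 * d j ^ 2 * w j) • p j - (2 : ℤ) • ∑ j, (d j * w j * ∑ k, d k) • p j := by
    rw [smul_sum, ← sum_sub_distrib]
    exact sum_congr rfl fun j _ => by module
  rw [t2, t3, t4, t5]
  module

/-- all unimodular vectors -/
theorem van (v : HH n) (hv : Uni (omn n) v) : q v = 0 := by
  classical
  choose d a b hab hd1 hd2 using fun i => exists_gcd (v (0, i)) (v (1, i))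
  set p : Fin n → HH n := fun i => pv i (a i) (b i) with hp
  have hvp : v = ∑ i, d i • p i := by
    conv_lhs => rw [sum_pv v]
    refine sum_congr rfl fun i _ => ?_
    rw [hd1, hd2, pv_smul]
  have op : ∀ i j, omn n (p i) (p j) = 0 := by
    intro i j
    rw [hp]
    dsimp only
    rw [omn_pp]
    split_ifs with hij
    · subst hij; ring
    · rfl
  have up : ∀ i, Uni (omn n) (p i) := fun i => by
    obtain ⟨c, d, -, e⟩ := uni_pv i (hab i)
    exact ⟨_, e⟩
  have upp : ∀ i j, i ≠ j → Uni (omn n) (p i + p j) := fun i j hij => by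
    obtain ⟨c, d, -, e⟩ := uni_pv i (hab i)
    refine ⟨pv i c d, ?_⟩
    · rw [map_add, LinearMap.add_apply, e, omn_pp, if_neg hij.symm, add_zero]
  set L : List (ℤ × HH n) := (-2, v) ::
    ((univ : Finset (Fin n)).toList.map (fun j => (4 * d j ^ 2 - 2 * d j * ∑ k, d k, p j)) ++
    ((univ : Finset (Fin n × Fin n)).filter (fun jk => jk.1 ≠ jk.2)).toList.map
      (fun jk => (d jk.1 * d jk.2, p jk.1 + p jk.2))) with hL
  have hmem : ∀ r ∈ L, r.2 = v ∨ (∃ j, r.2 = p j) ∨ ∃ j k, j ≠ k ∧ r.2 = p j + p k := by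
    intro r hr
    rw [hL, List.mem_cons, List.mem_append, List.mem_map, List.mem_map] at hr
    rcases hr with rfl | ⟨j, -, rfl⟩ | ⟨jk, hjk, rfl⟩
    · exact Or.inl rfl
    · exact Or.inr (Or.inl ⟨j, rfl⟩)
    · rw [Finset.mem_toList, mem_filter] at hjk
      exact Or.inr (Or.inr ⟨jk.1, jk.2, hjk.2, rfl⟩)
  have hcomb : ∀ r ∈ L, ∃ c : Fin n → ℤ, r.2 = ∑ i, c i • p i := by
    intro r hr
    rcases hmem r hr with e | ⟨j, e⟩ | ⟨j, k, -, e⟩
    · exact ⟨d, by rw [e, ← hvp]⟩
    · refine ⟨Pi.single j 1, ?_⟩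
      rw [e, sum_eq_single j]
      · rw [Pi.single_eq_same, one_smul]
      · intro i _ hi
        rw [Pi.single_eq_of_ne hi, zero_smul]
      · intro h; exact absurd (mem_univ j) h
    · refine ⟨Pi.single j 1 + Pi.single k 1, ?_⟩
      rw [e]
      simp only [Pi.add_apply, add_smul, sum_add_distrib]
      rw [sum_eq_single j, sum_eq_single k]
      · rw [Pi.single_eq_same, Pi.single_eq_same, one_smul, one_smul]
      · intro i _ hi
        rw [Pi.single_eq_of_ne hi, zero_smul]
      · intro h; exact absurd (mem_univ k) h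
      · intro i _ hi
        rw [Pi.single_eq_of_ne hi, zero_smul]
      · intro h; exact absurd (mem_univ j) h
  have key := h L (by
    intro r hr
    rcases hmem r hr with e | ⟨j, e⟩ | ⟨j, k, hjk, e⟩
    · rw [e]; exact hv
    · rw [e]; exact up j
    · rw [e]; exact upp j k hjk) (by
    intro r hr r' hr'
    obtain ⟨c, e⟩ := hcomb r hr
    obtain ⟨c', e'⟩ := hcomb r' hr'
    rw [e, e']
    simp only [map_sum, LinearMap.sum_apply, map_smul, LinearMap.smul_apply, op, smul_zero,
      sum_const_zero]) (by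
    intro x
    rw [hL, List.map_cons, List.sum_cons, List.map_append, List.sum_append, List.map_map,
      List.map_map, Finset.sum_map_toList, Finset.sum_map_toList]
    have e1 := sq_id d p (fun j => omn n (p j) x)
    have e2 : omn n v x = ∑ j, d j * omn n (p j) x := by
      rw [hvp, map_sum, LinearMap.sum_apply]
      exact sum_congr rfl fun j _ => by rw [map_smul, LinearMap.smul_apply, smul_eq_mul]
    simp only [Function.comp_apply, map_add, LinearMap.add_apply]
    rw [e1, e2, ← hvp]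
    module)
  rw [hL, List.map_cons, List.sum_cons, List.map_append, List.sum_append, List.map_map,
      List.map_map, Finset.sum_map_toList, Finset.sum_map_toList] at key
  have z1 : ∑ j : Fin n, ((fun p : ℤ × HH n => (p.1 : ℚ) • q p.2) ∘
      fun j => (4 * d j ^ 2 - 2 * d j * ∑ k, d k, p j)) j = 0 := by
    refine sum_eq_zero fun j _ => ?_
    rw [Function.comp_apply]
    show _ • q (p j) = 0
    rw [van1 hn h h1 h2 j (hab j), smul_zero]
  have z2 : ∑ jk ∈ (univ : Finset (Fin n × Fin n)).filter (fun jk => jk.1 ≠ jk.2),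
      ((fun p : ℤ × HH n => (p.1 : ℚ) • q p.2) ∘
      fun jk : Fin n × Fin n => (d jk.1 * d jk.2, p jk.1 + p jk.2)) jk = 0 := by
    refine sum_eq_zero fun jk hjk => ?_
    rw [mem_filter] at hjk
    rw [Function.comp_apply]
    show _ • q (p jk.1 + p jk.2) = 0
    rw [van2 hn h h1 h2 hjk.2 (hab _) (hab _), smul_zero]
  rw [z1, z2, add_zero, add_zero] at key
  have h3 : ((-2 : ℤ) : ℚ) • q v = 0 := key
  rcases smul_eq_zero.1 h3 with h4 | h4
  · norm_num at h4
  · exact h4

end van

end Pool.Agent.TOR.QD
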