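import Pool.Agent.Helper56_TOR.Qe

/-!
# Generation of the symplectic group over the integers by transvections
-/

open scoped BigOperators
open Finset

namespace Pool.Agent.TOR.QD

universe w

variable {n : ℕ} {𝒢 : Type w} [Group 𝒢]

/-- the setting -/
structure Gen (ab : 𝒢 →* Module.End ℤ (HH n)) (K : Subgroup 𝒢) : Prop where
  hom : ∀ g x y, omn n (ab g x) (ab g y) = omn n x y
  te : ∀ a : Fin 2 × Fin n, ∃ g ∈ K, ∀ x, ab g x = x + omn n (bb a) x • bb a
  tn : ∀ i j : Fin n, j.val = i.val + 1 → ∃ g ∈ K, ∀ x,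
    ab g x = x + omn n (bb (0, i) - bb (0, j)) x • (bb (0, i) - bb (0, j))

section ops

variable {ab : 𝒢 →* Module.End ℤ (HH n)} {K : Subgroup 𝒢}

/-- the transvection is realised -/
def TV (ab : 𝒢 →* Module.End ℤ (HH n)) (K : Subgroup 𝒢) (v : HH n) : Prop :=
  ∃ g ∈ K, ∀ x, ab g x = x + omn n v x • v

theorem ab_inv (g : 𝒢) (x : HH n) : ab g⁻¹ (ab g x) = x := by
  rw [← Module.End.mul_apply, ← map_mul, inv_mul_cancel, map_one, Module.End.one_apply]

theorem ab_inv' (g : 𝒢) (x : HH n) : ab g (ab g⁻¹ x) = x := by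
  rw [← Module.End.mul_apply, ← map_mul, mul_inv_cancel, map_one, Module.End.one_apply]

theorem TV.neg {v : HH n} (h : TV ab K v) : TV ab K (-v) := by
  obtain ⟨g, hg, h1⟩ := h
  refine ⟨g, hg, fun x => ?_⟩
  rw [h1, map_neg, LinearMap.neg_apply]
  module

theorem TV.conj (hom : ∀ g x y, omn n (ab g x) (ab g y) = omn n x y) {v : HH n} (h : TV ab K v)
    {k : 𝒢} (hk : k ∈ K) : TV ab K (ab k v) := by
  obtain ⟨g, hg, h1⟩ := h
  refine ⟨k * g * k⁻¹, K.mul_mem (K.mul_mem hk hg) (K.inv_mem hk), fun x => ?_⟩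
  rw [map_mul, map_mul, Module.End.mul_apply, Module.End.mul_apply, h1, map_add, map_smul,
    ab_inv']
  congr 2
  rw [← hom k v (ab k⁻¹ x), ab_inv']

/-- powers -/
theorem TV.zpow {v : HH n} (h : TV ab K v) (k : ℤ) :
    ∃ g ∈ K, ∀ x, ab g x = x + (k * omn n v x) • v := by
  obtain ⟨g, hg, h1⟩ := h
  have h2 : ∀ k : ℕ, ∀ x, ab (g ^ k) x = x + ((k : ℤ) * omn n v x) • v := by
    intro k
    induction k with
    | zero => intro x; simp
    | succ k ih =>
      intro x
      rw [pow_succ, map_mul, Module.End.mul_apply, h1, ih, map_add, map_smul, omn_alt v]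
      push_cast
      module
  obtain ⟨k, rfl | rfl⟩ := k.eq_nat_or_neg
  · exact ⟨g ^ k, K.pow_mem hg k, h2 k⟩
  · refine ⟨(g ^ k)⁻¹, K.inv_mem (K.pow_mem hg k), fun x => ?_⟩
    have h3 := ab_inv' (ab := ab) (g ^ k) x
    set z := ab (g ^ k)⁻¹ x
    rw [h2] at h3
    rw [← h3, map_add, map_smul, omn_alt v]
    module

/-- the transformations attached to two orthogonal vectors -/
theorem EV_of {u v : HH n} (huv : omn n u v = 0) (hu : TV ab K u) (hv : TV ab K v)
    (hs : TV ab K (u + v)) (k : ℤ) :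
    ∃ g ∈ K, ∀ x, ab g x = x + (k * omn n u x) • v + (k * omn n v x) • u := by
  obtain ⟨a, ha, a1⟩ := hu.zpow (-k)
  obtain ⟨b, hb, b1⟩ := hv.zpow (-k)
  obtain ⟨c, hc, c1⟩ := hs.zpow k
  have hvu : omn n v u = 0 := by rw [omn_alt.skew, huv, neg_zero]
  refine ⟨c * (a * b), K.mul_mem hc (K.mul_mem ha hb), fun x => ?_⟩
  rw [map_mul, map_mul, Module.End.mul_apply, Module.End.mul_apply, b1, a1, c1]
  simp only [map_add, map_smul, LinearMap.add_apply, huv, hvu, omn_alt u, omn_alt v, smul_zero,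
    add_zero]
  module

end ops

section rel

variable {ab : 𝒢 →* Module.End ℤ (HH n)} {K : Subgroup 𝒢} (G : Gen ab K)

/-- fixes the first blocks -/
def Fx (ab : 𝒢 →* Module.End ℤ (HH n)) (m : ℕ) (g : 𝒢) : Prop :=
  ∀ (i : Fin n), i.val < m → ∀ s, ab g (bb (s, i)) = bb (s, i)

theorem Fx.mul {m : ℕ} {g h : 𝒢} (hg : Fx ab m g) (hh : Fx ab m h) : Fx ab m (g * h) := by
  intro i hi s
  rw [map_mul, Module.End.mul_apply, hh i hi, hg i hi]

/-- same orbit under the elements fixing the first blocks -/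
def Rm (ab : 𝒢 →* Module.End ℤ (HH n)) (K : Subgroup 𝒢) (m : ℕ) (x y : HH n) : Prop :=
  ∃ g ∈ K, Fx ab m g ∧ ab g x = y

theorem Rm.refl (m : ℕ) (x : HH n) : Rm ab K m x x :=
  ⟨1, K.one_mem, by intro i _ s; rw [map_one]; rfl, by rw [map_one]; rfl⟩

theorem Rm.trans {m : ℕ} {x y z : HH n} (h : Rm ab K m x y) (h' : Rm ab K m y z) :
    Rm ab K m x z := by
  obtain ⟨g, h1, h2, h3⟩ := h
  obtain ⟨g', h1', h2', h3'⟩ := h'
  refine ⟨g' * g, K.mul_mem h1' h1, h2'.mul h2, ?_⟩
  rw [map_mul, Module.End.mul_apply, h3, h3']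

/-- value of the form on a basis vector -/
theorem omn_b0 (i : Fin n) (x : HH n) : omn n (bb (0, i)) x = x (1, i) := by
  rw [← pv10, omn_pv]; ring

theorem omn_b1 (i : Fin n) (x : HH n) : omn n (bb (1, i)) x = - x (0, i) := by
  rw [← pv01, omn_pv]; ring

/-- value on a basis vector on the right -/
theorem omn_rb {x : HH n} {i : Fin n} (h : ∀ s, x (s, i) = 0) (s : Fin 2) :
    omn n x (bb (s, i)) = 0 := by
  rw [omn_alt.skew]
  fin_cases s
  · show - omn n (bb (0, i)) x = 0
    rw [omn_b0, h, neg_zero]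
  · show - omn n (bb (1, i)) x = 0
    rw [omn_b1, h, neg_zero, neg_zero]

theorem bb_apply (a c : Fin 2 × Fin n) : (bb a : HH n) c = if c = a then 1 else 0 :=
  Pi.single_apply _ _ _

theorem bb_ne {s t : Fin 2} {i j : Fin n} (h : j ≠ i) : (bb (s, i) : HH n) (t, j) = 0 := by
  rw [bb_apply, if_neg]
  intro h'
  exact h (congrArg Prod.snd h')

theorem fx_of {m : ℕ} {g : 𝒢} {i : Fin n} (hi : m ≤ i.val) {v : HH n}
    (hv : ∀ l : Fin n, l ≠ i → ∀ s, v (s, l) = 0) (c : HH n → ℤ)
    (h : ∀ x, ab g x = x + (c x * omn n v x) • v) : Fx ab m g := by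
  intro l hl s
  have hli : l ≠ i := fun h' => by subst h'; omega
  rw [h, omn_rb (hv l hli), mul_zero, zero_smul, add_zero]

include G

/-- moves in a block -/
theorem Gen.m1 {m : ℕ} {i : Fin n} (hi : m ≤ i.val) (k : ℤ) (x : HH n) :
    Rm ab K m x (x + (k * x (1, i)) • bb (0, i)) := by
  have h0 : TV ab K (bb (0, i)) := G.te _
  obtain ⟨g, hg, h1⟩ := h0.zpow k
  refine ⟨g, hg, fx_of hi (fun l hl s => bb_ne hl) (fun _ => k) h1, ?_⟩
  rw [h1, omn_b0]

theorem Gen.m2 {m : ℕ} {i : Fin n} (hi : m ≤ i.val) (k : ℤ) (x : HH n) :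
    Rm ab K m x (x + (k * x (0, i)) • bb (1, i)) := by
  have h0 : TV ab K (bb (1, i)) := G.te _
  obtain ⟨g, hg, h1⟩ := h0.zpow (-k)
  refine ⟨g, hg, fx_of hi (fun l hl s => bb_ne hl) (fun _ => -k) h1, ?_⟩
  rw [h1, omn_b1]
  congr 2
  ring

omit G in
theorem co_same {x : HH n} (c : ℤ) (a : Fin 2 × Fin n) : (x + c • bb a) a = x a + c := by
  rw [Pi.add_apply, Pi.smul_apply, bb_apply, if_pos rfl, smul_eq_mul, mul_one]

omit G in
theorem co_ne {x : HH n} (c : ℤ) {a d : Fin 2 × Fin n} (h : d ≠ a) : (x + c • bb a) d = x d := by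
  rw [Pi.add_apply, Pi.smul_apply, bb_apply, if_neg h, smul_zero, add_zero]

/-- one block -/
theorem Gen.block {m : ℕ} {i : Fin n} (hi : m ≤ i.val) (N : ℕ) : ∀ x : HH n,
    (x (0, i)).natAbs + (x (1, i)).natAbs ≤ N → ∃ y, Rm ab K m x y ∧ y (1, i) = 0 ∧
      ∀ l, l ≠ i → ∀ s, y (s, l) = x (s, l) := by
  induction N using Nat.strong_induction_on with
  | _ N ih =>
  intro x hx
  -- one step
  have step : ∀ z : HH n, Rm ab K m x z → (∀ l, l ≠ i → ∀ s, z (s, l) = x (s, l)) →
      (z (0, i)).natAbs + (z (1, i)).natAbs < N → ∃ y, Rm ab K m x y ∧ y (1, i) = 0 ∧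
      ∀ l, l ≠ i → ∀ s, y (s, l) = x (s, l) := by
    intro z h1 h2 h3
    obtain ⟨y, h4, h5, h6⟩ := ih _ h3 z le_rfl
    exact ⟨y, h1.trans h4, h5, fun l hl s => by rw [h6 l hl, h2 l hl]⟩
  have o1 : ∀ (c : ℤ) (t : Fin 2) (l : Fin n), l ≠ i → ∀ s, (x + c • bb (t, i)) (s, l) = x (s, l) :=
    fun c t l hl s => co_ne c (by intro h; exact hl (congrArg Prod.snd h))
  by_cases h1 : x (1, i) = 0
  · exact ⟨x, Rm.refl m x, h1, fun _ _ _ => rfl⟩
  by_cases h0 : x (0, i) = 0
  · have h2 := (G.m1 hi 1 x)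
    set z := x + (1 * x (1, i)) • bb (0, i) with hz
    have z0 : z (0, i) = x (1, i) := by rw [hz, co_same, h0]; ring
    have z1 : z (1, i) = x (1, i) := co_ne _ (by simp)
    have h3 := (G.m2 hi (-1) z)
    refine ⟨_, h2.trans h3, ?_, ?_⟩
    · rw [co_same, z0, z1]; ring
    · intro l hl s
      rw [co_ne _ (by intro h; exact hl (congrArg Prod.snd h)), hz, o1 _ _ l hl]
  rcases Nat.le_total (x (1, i)).natAbs (x (0, i)).natAbs with hle | hle
  · by_cases hs : (0 < x (0, i) ∧ 0 < x (1, i)) ∨ (x (0, i) < 0 ∧ x (1, i) < 0)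
    · refine step _ (G.m1 hi (-1) x) (o1 _ _) ?_
      rw [co_same, co_ne _ (by simp)]
      omega
    · refine step _ (G.m1 hi 1 x) (o1 _ _) ?_
      rw [co_same, co_ne _ (by simp)]
      omega
  · by_cases hs : (0 < x (0, i) ∧ 0 < x (1, i)) ∨ (x (0, i) < 0 ∧ x (1, i) < 0)
    · refine step _ (G.m2 hi (-1) x) (o1 _ _) ?_
      rw [co_same, co_ne _ (by simp)]
      omega
    · refine step _ (G.m2 hi 1 x) (o1 _ _) ?_
      rw [co_same, co_ne _ (by simp)]
      omega

/-- all blocks -/
theorem Gen.blocks {m : ℕ} (x : HH n) (S : Finset (Fin n)) (hS : ∀ i ∈ S, m ≤ i.val) :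
    ∃ y, Rm ab K m x y ∧ (∀ i ∈ S, y (1, i) = 0) ∧ ∀ l, l ∉ S → ∀ s, y (s, l) = x (s, l) := by
  classical
  induction S using Finset.induction_on with
  | empty => exact ⟨x, Rm.refl m x, by simp, fun _ _ _ => rfl⟩
  | insert a S ha ih =>
    obtain ⟨y, h1, h2, h3⟩ := ih (fun i hi => hS i (mem_insert_of_mem hi))
    obtain ⟨z, h4, h5, h6⟩ := G.block (hS a (mem_insert_self a S)) _ y le_rfl
    refine ⟨z, h1.trans h4, ?_, ?_⟩
    · intro i hi
      rcases mem_insert.1 hi with rfl | hi
      · exact h5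
      · rw [h6 i (fun h => ha (h ▸ hi)), h2 i hi]
    · intro l hl s
      rw [mem_insert, not_or] at hl
      rw [h6 l hl.1, h3 l hl.2]

/-- a rotation in a block -/
theorem Gen.rot1 (j : Fin n) : ∃ g ∈ K, ab g (bb (0, j)) = bb (1, j) ∧
    ∀ l, l ≠ j → ∀ s, ab g (bb (s, l)) = bb (s, l) := by
  have h0 : TV ab K (bb (0, j)) := G.te _
  have h0' : TV ab K (bb (1, j)) := G.te _
  obtain ⟨a, ha, a1⟩ := h0.zpow (-1)
  obtain ⟨b, hb, b1⟩ := h0'.zpow (-1)
  refine ⟨a * b, K.mul_mem ha hb, ?_, ?_⟩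
  · rw [map_mul, Module.End.mul_apply, b1, a1]
    simp only [omn_b0, omn_b1, co_same, bb_apply, if_true]
    simp
  · intro l hl s
    rw [map_mul, Module.End.mul_apply, b1, a1]
    simp only [omn_b0, omn_b1, bb_ne (Ne.symm hl), neg_zero, mul_zero, zero_smul, add_zero]

/-- from the difference to the elementary operations -/
theorem Gen.ef {i j : Fin n} (hij : i ≠ j) (h : TV ab K (bb (0, i) - bb (0, j))) (k : ℤ) :
    ∃ g ∈ K, ∀ x, ab g x = x + (k * x (0, j)) • bb (0, i) - (k * x (1, i)) • bb (1, j) := by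
  obtain ⟨r, hr, r1, r2⟩ := G.rot1 j
  have h1 := h.conj G.hom hr
  rw [map_sub, r1, r2 i hij, sub_eq_add_neg] at h1
  have h2 : TV ab K (-bb (1, j)) := TV.neg (G.te _)
  obtain ⟨g, hg, g1⟩ := EV_of (by
    rw [omn_b0, Pi.neg_apply, bb_ne hij, neg_zero]) (G.te (0, i)) h2 h1 k
  refine ⟨g, hg, fun x => ?_⟩
  rw [g1, omn_b0, map_neg, LinearMap.neg_apply, omn_b1]
  module

theorem Gen.ee {i j : Fin n} (hij : i ≠ j) (h : TV ab K (bb (0, i) - bb (0, j))) (k : ℤ) :
    ∃ g ∈ K, ∀ x, ab g x = x - (k * x (1, i)) • bb (0, j) - (k * x (1, j)) • bb (0, i) := by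
  have h2 : TV ab K (-bb (0, j)) := TV.neg (G.te _)
  rw [sub_eq_add_neg] at h
  obtain ⟨g, hg, g1⟩ := EV_of (by
    rw [omn_b0, Pi.neg_apply, bb_ne hij, neg_zero]) (G.te (0, i)) h2 h k
  refine ⟨g, hg, fun x => ?_⟩
  rw [g1, omn_b0, map_neg, LinearMap.neg_apply, omn_b0]
  module

/-- all differences -/
theorem Gen.diff {i j : Fin n} (hij : i ≠ j) : TV ab K (bb (0, i) - bb (0, j)) := by
  have key : ∀ d : ℕ, ∀ i j : Fin n, j.val = i.val + (d + 1) → TV ab K (bb (0, i) - bb (0, j)) := by
    intro d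
    induction d with
    | zero =>
      intro i j hij
      exact G.tn i j hij
    | succ d ih =>
      intro i j hij
      have hlt : i.val + (d + 1) < n := by have := j.isLt; omega
      set l : Fin n := ⟨i.val + (d + 1), hlt⟩ with hl
      have h1 := ih i l rfl
      have hlj : l ≠ j := by
        intro h
        have := congrArg Fin.val h
        simp only [hl] at this
        omega
      have hil : i ≠ l := by
        intro h
        have := congrArg Fin.val h
        simp only [hl] at this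
        omega
      have hij' : i ≠ j := by
        intro h
        have := congrArg Fin.val h
        omega
      have h2 : TV ab K (bb (0, l) - bb (0, j)) := G.tn l j (by simp only [hl]; omega)
      have h2' : TV ab K (bb (0, j) - bb (0, l)) := by
        have := h2.neg
        rwa [neg_sub] at this
      obtain ⟨a, ha, a1⟩ := G.ef hlj.symm h2' 1
      obtain ⟨b, hb, b1⟩ := G.ef hlj h2 (-1)
      have h3 := h1.conj G.hom (K.mul_mem hb ha)
      have e1 : ab (b * a) (bb (0, i)) = bb (0, i) := by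
        rw [map_mul, Module.End.mul_apply, a1]
        simp only [bb_ne hil.symm, bb_ne hij'.symm, mul_zero, zero_smul, add_zero, sub_zero]
        rw [b1]
        simp only [bb_ne hil.symm, bb_ne hij'.symm, mul_zero, zero_smul, add_zero, sub_zero]
      have e2 : ab (b * a) (bb (0, l)) = bb (0, j) := by
        have e3 : ab a (bb (0, l)) = bb (0, l) + bb (0, j) := by
          rw [a1]
          simp only [bb_ne hlj.symm, bb_apply, if_true, mul_zero, zero_smul, sub_zero, mul_one,
            one_smul]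
        rw [map_mul, Module.End.mul_apply, e3, b1]
        simp only [Pi.add_apply, bb_ne hlj.symm, bb_ne hlj, bb_apply, Prod.mk.injEq, one_ne_zero,
          false_and, if_false, if_true]
        simp
      rwa [map_sub, e1, e2] at h3
  rcases lt_trichotomy i.val j.val with h | h | h
  · exact key (j.val - i.val - 1) i j (by omega)
  · exact absurd (Fin.ext h) hij
  · have := (key (i.val - j.val - 1) j i (by omega)).neg
    rwa [neg_sub] at this

theorem Gen.m3 {m : ℕ} {i j : Fin n} (hi : m ≤ i.val) (hj : m ≤ j.val) (hij : i ≠ j) (k : ℤ)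
    (x : HH n) (hx : x (1, i) = 0) : Rm ab K m x (x + (k * x (0, j)) • bb (0, i)) := by
  obtain ⟨g, hg, g1⟩ := G.ef hij (G.diff hij) k
  refine ⟨g, hg, ?_, ?_⟩
  · intro l hl s
    have h1 : i ≠ l := fun h => by subst h; omega
    have h2 : j ≠ l := fun h => by subst h; omega
    simp only [g1, bb_ne h1, bb_ne h2, mul_zero, zero_smul, add_zero, sub_zero]
  · rw [g1, hx, mul_zero, zero_smul, sub_zero]

/-- size of a vector -/
def sz (x : HH n) : ℕ := ∑ i, (x (0, i)).natAbs

omit G in
theorem sz_lt {x : HH n} {i : Fin n} {c : ℤ} (h : (x (0, i) + c).natAbs < (x (0, i)).natAbs) :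
    sz (x + c • bb (0, i)) < sz x := by
  unfold sz
  apply Finset.sum_lt_sum
  · intro l _
    by_cases hl : l = i
    · subst hl
      rw [co_same]
      exact h.le
    · rw [co_ne _ (by intro h'; exact hl (congrArg Prod.snd h'))]
  · exact ⟨i, mem_univ i, by rw [co_same]; exact h⟩

/-- the vectors in the first half -/
theorem Gen.lag {m : ℕ} {i0 : Fin n} (h0 : m ≤ i0.val) (N : ℕ) : ∀ x : HH n,
    (∀ i, x (1, i) = 0) → (∀ i : Fin n, i.val < m → x (0, i) = 0) → Uni (omn n) x → sz x ≤ N →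
    Rm ab K m x (bb (0, i0)) := by
  induction N using Nat.strong_induction_on with
  | _ N ih =>
  intro x hx1 hx0 hu hN
  -- one reduction
  have red : ∀ i j : Fin n, i ≠ j → x (0, i) ≠ 0 → x (0, j) ≠ 0 →
      (x (0, j)).natAbs ≤ (x (0, i)).natAbs → Rm ab K m x (bb (0, i0)) := by
    intro i j hij hi hj hle
    have him : m ≤ i.val := by
      by_contra h
      exact hi (hx0 i (by omega))
    have hjm : m ≤ j.val := by
      by_contra h
      exact hj (hx0 j (by omega))
    have main : ∀ k : ℤ, (x (0, i) + k * x (0, j)).natAbs < (x (0, i)).natAbs →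
        Rm ab K m x (bb (0, i0)) := by
      intro k hk
      have h1 := G.m3 him hjm hij k x (hx1 i)
      refine h1.trans (ih _ (lt_of_lt_of_le (sz_lt hk) hN) _ ?_ ?_ ?_ le_rfl)
      · intro l
        rw [co_ne _ (by simp), hx1]
      · intro l hl
        have hli : l ≠ i := fun h => by subst h; omega
        rw [co_ne _ (by intro h'; exact hli (congrArg Prod.snd h')), hx0 l hl]
      · obtain ⟨g, -, -, e⟩ := h1
        rw [← e]
        obtain ⟨y, hy⟩ := hu
        exact ⟨ab g y, by rw [G.hom, hy]⟩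
    by_cases hs : (0 < x (0, i) ∧ 0 < x (0, j)) ∨ (x (0, i) < 0 ∧ x (0, j) < 0)
    · exact main (-1) (by omega)
    · exact main 1 (by omega)
  by_cases hc : ∃ i j : Fin n, i ≠ j ∧ x (0, i) ≠ 0 ∧ x (0, j) ≠ 0
  · obtain ⟨i, j, hij, hi, hj⟩ := hc
    rcases Nat.le_total (x (0, j)).natAbs (x (0, i)).natAbs with hle | hle
    · exact red i j hij hi hj hle
    · exact red j i hij.symm hj hi hle
  · push Not at hc
    obtain ⟨y, hy⟩ := hu
    have hex : ∃ j, x (0, j) ≠ 0 := by
      by_contra h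
      push Not at h
      rw [omn_apply, sum_eq_zero fun i _ => by rw [h i, hx1 i]; ring] at hy
      exact zero_ne_one hy
    obtain ⟨j, hj⟩ := hex
    have hxj : x = x (0, j) • bb (0, j) := by
      funext ⟨s, l⟩
      rw [Pi.smul_apply, bb_apply]
      fin_cases s
      · by_cases hl : l = j
        · subst hl; simp
        · have h1 : x (0, l) = 0 := by
            by_contra h2
            exact hj (hc l j hl h2)
          simp [hl, h1]
      · simp [hx1]
    have hc1 : x (0, j) * y (1, j) = 1 := by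
      rw [hxj, map_smul, LinearMap.smul_apply, omn_b0, smul_eq_mul] at hy
      exact hy
    have hjm : m ≤ j.val := by
      by_contra h
      exact hj (hx0 j (by omega))
    set c := x (0, j) with hcdef
    have hcc : c * c = 1 := by
      rcases Int.isUnit_iff.1 (IsUnit.of_mul_eq_one _ hc1) with h | h <;> rw [h] <;> norm_num
    -- move to the right place
    by_cases hji : j = i0
    · subst hji
      rcases Int.isUnit_iff.1 (IsUnit.of_mul_eq_one _ hc1) with h | h
      · rw [hxj, h, one_smul]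
        exact Rm.refl m _
      · rw [hxj, h]
        have h1 := G.m2 h0 (-2) ((-1 : ℤ) • bb (0, j))
        have h2 := G.m1 h0 1 ((-1 : ℤ) • bb (0, j) + (2 : ℤ) • bb (1, j))
        have h3 := G.m2 h0 (-2) (bb (0, j) + (2 : ℤ) • bb (1, j))
        have e1 : (-1 : ℤ) • (bb (0, j) : HH n) +
            (-2 * ((-1 : ℤ) • (bb (0, j) : HH n)) (0, j)) • bb (1, j) =
            (-1 : ℤ) • bb (0, j) + (2 : ℤ) • bb (1, j) := by
          simp
        have e2 : (-1 : ℤ) • (bb (0, j) : HH n) + (2 : ℤ) • bb (1, j) +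
            (1 * ((-1 : ℤ) • (bb (0, j) : HH n) + (2 : ℤ) • bb (1, j)) (1, j)) • bb (0, j) =
            bb (0, j) + (2 : ℤ) • bb (1, j) := by
          have e3 : ((-1 : ℤ) • (bb (0, j) : HH n) + (2 : ℤ) • bb (1, j)) (1, j) = 2 := by
            simp
          rw [e3]
          module
        have e4 : (bb (0, j) : HH n) + (2 : ℤ) • bb (1, j) +
            (-2 * ((bb (0, j) : HH n) + (2 : ℤ) • bb (1, j)) (0, j)) • bb (1, j) = bb (0, j) := by
          have e3 : ((bb (0, j) : HH n) + (2 : ℤ) • bb (1, j)) (0, j) = 1 := by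
            simp
          rw [e3]
          module
        rw [e1] at h1
        rw [e2] at h2
        rw [e4] at h3
        exact (h1.trans h2).trans h3
    · have h1 := G.m3 h0 hjm (Ne.symm hji) c x (hx1 i0)
      rw [← hcdef, hcc, one_smul] at h1
      have h2 := G.m3 hjm h0 hji (-c) (x + bb (0, i0)) (by
        rw [Pi.add_apply, hx1, bb_ne hji, add_zero])
      have e1 : x (0, i0) = 0 := by
        by_contra h3
        exact hj (hc i0 j (Ne.symm hji) h3)
      have e2 : x + bb (0, i0) + (-c * (x + bb (0, i0)) (0, i0)) • bb (0, j) = bb (0, i0) := by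
        rw [Pi.add_apply, e1, bb_apply, if_pos rfl, zero_add, mul_one, neg_smul, ← hxj]
        abel
      rw [e2] at h2
      exact h1.trans h2

/-- transitivity -/
theorem Gen.trans {m : ℕ} {i0 : Fin n} (h0 : m ≤ i0.val) {x : HH n}
    (hx : ∀ i : Fin n, i.val < m → ∀ s, x (s, i) = 0) (hu : Uni (omn n) x) :
    Rm ab K m x (bb (0, i0)) := by
  classical
  obtain ⟨y, h1, h2, h3⟩ := G.blocks (m := m) x (univ.filter fun i => m ≤ i.val)
    (fun i hi => (mem_filter.1 hi).2)
  have hy : ∀ i : Fin n, i.val < m → ∀ s, y (s, i) = 0 := by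
    intro i hi s
    rw [h3 i (by rw [mem_filter]; intro h; omega), hx i hi]
  refine h1.trans (G.lag h0 _ y ?_ (fun i hi => hy i hi 0) ?_ le_rfl)
  · intro i
    rcases Nat.lt_or_ge i.val m with h | h
    · exact hy i h 1
    · exact h2 i (mem_filter.2 ⟨mem_univ i, h⟩)
  · obtain ⟨g, -, -, e⟩ := h1
    rw [← e]
    obtain ⟨z, hz⟩ := hu
    exact ⟨ab g z, by rw [G.hom, hz]⟩

/-- all transvections are realised -/
theorem Gen.tv {v : HH n} (hv : Uni (omn n) v) : TV ab K v := by
  have hn : 0 < n := by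
    rcases Nat.eq_zero_or_pos n with h | h
    · subst h
      obtain ⟨y, hy⟩ := hv
      rw [omn_apply, univ_eq_empty, sum_empty] at hy
      exact absurd hy zero_ne_one
    · exact h
  obtain ⟨g, hg, -, e⟩ := G.trans (m := 0) (i0 := ⟨0, hn⟩) (Nat.zero_le _)
    (fun i hi => absurd hi (Nat.not_lt_zero _)) hv
  have h1 : TV ab K (bb (0, (⟨0, hn⟩ : Fin n))) := G.te _
  have h2 := h1.conj G.hom (K.inv_mem hg)
  rwa [← e, ab_inv] at h2

/-- clearing the coordinates of the image of the second vector of a pair -/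
theorem Gen.clear {m : ℕ} {i0 : Fin n} (h0 : i0.val = m) (w : HH n) (hw : w (1, i0) = 1)
    (S : Finset (Fin 2 × Fin n)) (hS : ∀ a ∈ S, m < a.2.val) :
    ∃ k ∈ K, Fx ab m k ∧ ab k (bb (0, i0)) = bb (0, i0) ∧ (∀ a ∈ S, ab k w a = 0) ∧
      (∀ a, a ∉ S → a ≠ (0, i0) → ab k w a = w a) := by
  classical
  induction S using Finset.induction_on with
  | empty =>
    refine ⟨1, K.one_mem, ?_, ?_, by simp, ?_⟩
    · intro i _ s; rw [map_one]; rfl
    · rw [map_one]; rfl
    · intro a _ _; rw [map_one]; rfl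
  | insert a S ha ih =>
    obtain ⟨k, h1, h2, h3, h4, h5⟩ := ih (fun b hb => hS b (mem_insert_of_mem hb))
    have haS := hS a (mem_insert_self a S)
    obtain ⟨s, j⟩ := a
    have hj0 : i0 ≠ j := fun h => by subst h; simp only at haS; omega
    set w' := ab k w with hw'
    have w'1 : w' (1, i0) = 1 := by
      rw [h5 (1, i0) (fun h => by have := hS _ (mem_insert_of_mem h); simp only at this; omega)
        (by simp), hw]
    have key : ∃ g ∈ K, Fx ab m g ∧ ab g (bb (0, i0)) = bb (0, i0) ∧ ab g w' (s, j) = 0 ∧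
        ∀ b, b ≠ (s, j) → b ≠ (0, i0) → ab g w' b = w' b := by
      fin_cases s
      · obtain ⟨g, hg, g1⟩ := G.ee hj0 (G.diff hj0) (w' (0, j))
        refine ⟨g, hg, ?_, ?_, ?_, ?_⟩
        · intro l hl s
          have e1 : i0 ≠ l := fun h => by subst h; omega
          have e2 : j ≠ l := fun h => by subst h; simp only at haS; omega
          simp only [g1, bb_ne e1, bb_ne e2, mul_zero, zero_smul, sub_zero]
        · rw [g1, bb_ne hj0.symm, bb_apply, if_neg (by simp)]
          simp
        · rw [g1]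
          show (w' - (w' (0, j) * w' (1, i0)) • bb (0, j) - (w' (0, j) * w' (1, j)) • bb (0, i0))
            (0, j) = 0
          rw [Pi.sub_apply, Pi.sub_apply, Pi.smul_apply, Pi.smul_apply, bb_ne hj0.symm, w'1,
            bb_apply, if_pos rfl]
          simp
        · intro b hb1 hb2
          have hb1' : b ≠ (0, j) := hb1
          rw [g1, Pi.sub_apply, Pi.sub_apply, Pi.smul_apply, Pi.smul_apply, bb_apply, bb_apply,
            if_neg hb1', if_neg hb2, smul_zero, smul_zero, sub_zero, sub_zero]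
      · obtain ⟨g, hg, g1⟩ := G.ef hj0 (G.diff hj0) (w' (1, j))
        refine ⟨g, hg, ?_, ?_, ?_, ?_⟩
        · intro l hl s
          have e1 : i0 ≠ l := fun h => by subst h; omega
          have e2 : j ≠ l := fun h => by subst h; simp only at haS; omega
          simp only [g1, bb_ne e1, bb_ne e2, mul_zero, zero_smul, add_zero, sub_zero]
        · rw [g1, bb_ne hj0.symm, bb_apply, if_neg (by simp)]
          simp
        · rw [g1]
          show (w' + (w' (1, j) * w' (0, j)) • bb (0, i0) - (w' (1, j) * w' (1, i0)) • bb (1, j))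
            (1, j) = 0
          rw [Pi.sub_apply, Pi.add_apply, Pi.smul_apply, Pi.smul_apply, bb_ne hj0.symm, w'1,
            bb_apply, if_pos rfl]
          simp
        · intro b hb1 hb2
          have hb1' : b ≠ (1, j) := hb1
          rw [g1, Pi.sub_apply, Pi.add_apply, Pi.smul_apply, Pi.smul_apply, bb_apply, bb_apply,
            if_neg hb1', if_neg hb2, smul_zero, smul_zero, sub_zero, add_zero]
    obtain ⟨g, hg, g2, g3, g4, g5⟩ := key
    refine ⟨g * k, K.mul_mem hg h1, g2.mul h2, ?_, ?_, ?_⟩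
    · rw [map_mul, Module.End.mul_apply, h3, g3]
    · intro b hb
      rw [map_mul, Module.End.mul_apply, ← hw']
      by_cases hbs : b = (s, j)
      · rw [hbs, g4]
      · have hb' : b ∈ S := mem_of_mem_insert_of_ne hb hbs
        have hb0 : b ≠ (0, i0) := fun h => by
          have := hS b hb
          rw [h] at this
          simp only at this
          omega
        rw [g5 b hbs hb0, h4 b hb']
    · intro b hb hb0
      rw [mem_insert, not_or] at hb
      rw [map_mul, Module.End.mul_apply, ← hw', g5 b hb.1 hb0, h5 b hb.2 hb0]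

omit G in
theorem end_ext {A B : Module.End ℤ (HH n)} (h : ∀ a, A (bb a) = B (bb a)) : A = B := by
  apply LinearMap.ext
  intro x
  have e : x = ∑ a, x a • (bb a : HH n) := by
    funext c
    rw [Finset.sum_apply, sum_eq_single c]
    · rw [Pi.smul_apply, bb_apply, if_pos rfl, smul_eq_mul, mul_one]
    · intro a _ ha
      rw [Pi.smul_apply, bb_apply, if_neg ha.symm, smul_zero]
    · intro h; exact absurd (mem_univ c) h
  rw [e, map_sum, map_sum]
  exact sum_congr rfl fun a _ => by rw [map_smul, map_smul, h]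

/-- generation -/
theorem Gen.gen_aux (d : ℕ) : ∀ m : ℕ, m + d = n → ∀ g : 𝒢, Fx ab m g →
    ∃ k ∈ K, ab (k * g) = 1 := by
  classical
  induction d with
  | zero =>
    intro m hm g hg
    refine ⟨1, K.one_mem, ?_⟩
    rw [one_mul]
    apply end_ext
    rintro ⟨s, i⟩
    rw [hg i (by have := i.isLt; omega) s]
    rfl
  | succ d ih =>
    intro m hm g hg
    set i0 : Fin n := ⟨m, by omega⟩ with hi0
    have h0 : i0.val = m := rfl
    -- the first vector
    have uni0 : Uni (omn n) (bb (0, i0)) := ⟨bb (1, i0), by rw [omn_b0, bb_apply, if_pos rfl]⟩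
    have sup : ∀ (g : 𝒢), Fx ab m g → ∀ z : HH n, (∀ i : Fin n, i.val < m → ∀ s, z (s, i) = 0) →
        ∀ i : Fin n, i.val < m → ∀ s, ab g z (s, i) = 0 := by
      intro g hg z hz i hi s
      have e1 : ∀ s, omn n (bb (s, i)) (ab g z) = 0 := by
        intro s
        rw [← hg i hi s, G.hom, omn_alt.skew, omn_rb (fun s => hz i hi s), neg_zero]
      fin_cases s
      · have := e1 1
        rw [omn_b1] at this
        exact neg_eq_zero.1 this
      · have := e1 0
        rw [omn_b0] at this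
        exact this
    have hb : ∀ (s : Fin 2) (i : Fin n), i.val < m → ∀ s', (bb (s, i0) : HH n) (s', i) = 0 := by
      intro s i hi s'
      exact bb_ne (fun h => by subst h; omega)
    obtain ⟨k1, hk1, f1, e1⟩ := G.trans (m := m) (i0 := i0) h0.ge
      (sup g hg (bb (0, i0)) (fun i hi s => hb 0 i hi s))
      (by obtain ⟨y, hy⟩ := uni0; exact ⟨ab g y, by rw [G.hom, hy]⟩)
    set g1 := k1 * g with hg1
    have fg1 : Fx ab m g1 := f1.mul hg
    have eg1 : ab g1 (bb (0, i0)) = bb (0, i0) := by rw [hg1, map_mul, Module.End.mul_apply, e1]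
    set w := ab g1 (bb (1, i0)) with hw
    have w1 : w (1, i0) = 1 := by
      have e2 := G.hom g1 (bb (0, i0)) (bb (1, i0))
      rw [eg1, ← hw, omn_b0, omn_b0, bb_apply, if_pos rfl] at e2
      exact e2
    have w0 : ∀ i : Fin n, i.val < m → ∀ s, w (s, i) = 0 :=
      sup g1 fg1 (bb (1, i0)) (fun i hi s => hb 1 i hi s)
    obtain ⟨k2, hk2, f2, e2, c1, c2⟩ := G.clear h0 w w1
      (univ.filter fun a => m < a.2.val) (fun a ha => (mem_filter.1 ha).2)
    set w' := ab k2 w with hw'
    have hw'e : w' = bb (1, i0) + w' (0, i0) • bb (0, i0) := by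
      funext ⟨s, i⟩
      rw [Pi.add_apply, Pi.smul_apply, bb_apply, bb_apply]
      rcases lt_trichotomy i.val m with h | h | h
      · have hne : i ≠ i0 := fun h' => by subst h'; omega
        rw [c2 (s, i) (by rw [mem_filter]; intro h'; have := h'.2; simp only at this; omega)
          (by intro h'; exact hne (congrArg Prod.snd h')), w0 i h s]
        simp [hne]
      · have hi : i = i0 := Fin.ext h
        rw [hi]
        fin_cases s
        · simp
        · have := c2 (1, i0) (by rw [mem_filter]; intro h'; have := h'.2; simp only at this; omega)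
            (by simp)
          show w' (1, i0) = _
          rw [this, w1]
          simp
      · have hne : i ≠ i0 := fun h' => by subst h'; omega
        rw [c1 (s, i) (mem_filter.2 ⟨mem_univ _, h⟩)]
        simp [hne]
    have h3 : TV ab K (bb (0, i0)) := G.te _
    obtain ⟨k3, hk3, e3⟩ := h3.zpow (- w' (0, i0))
    have f3 : Fx ab m k3 := fx_of h0.ge (fun l hl s => bb_ne hl) (fun _ => - w' (0, i0)) e3
    have f4 : Fx ab (m + 1) (k3 * (k2 * g1)) := by
      intro i hi s
      rcases Nat.lt_succ_iff_lt_or_eq.1 hi with h | h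
      · exact (f3.mul (f2.mul fg1)) i h s
      · have hi' : i = i0 := Fin.ext h
        rw [hi']
        fin_cases s
        · show ab (k3 * (k2 * g1)) (bb (0, i0)) = bb (0, i0)
          rw [map_mul, map_mul, Module.End.mul_apply, Module.End.mul_apply, eg1, e2, e3, omn_b0,
            bb_apply, if_neg (by simp), mul_zero, zero_smul, add_zero]
        · show ab (k3 * (k2 * g1)) (bb (1, i0)) = bb (1, i0)
          rw [map_mul, map_mul, Module.End.mul_apply, Module.End.mul_apply, ← hw, ← hw', e3,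
            omn_b0]
          have e4 : w' (1, i0) = 1 := by
            conv_lhs => rw [hw'e]
            rw [Pi.add_apply, Pi.smul_apply, bb_apply, bb_apply, if_pos rfl, if_neg (by simp)]
            simp
          rw [e4]
          conv_lhs => rw [hw'e]
          simp only [Pi.add_apply, Pi.smul_apply, bb_apply, if_true]
          simp
    obtain ⟨k, hk, hk'⟩ := ih (m + 1) (by omega) _ f4
    refine ⟨k * k3 * k2 * k1, K.mul_mem (K.mul_mem (K.mul_mem hk hk3) hk2) hk1, ?_⟩
    rw [← hk', hg1]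
    congr 1
    group

theorem Gen.gen (g : 𝒢) : ∃ k ∈ K, ab (k * g) = 1 :=
  G.gen_aux n 0 (by omega) g (fun i hi => absurd hi (Nat.not_lt_zero _))

end rel

end Pool.Agent.TOR.QD
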