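import Pool.Agent.Helper56_TOR.Spg
import Pool.Agent.Helper29_TOR.If3

/-!
# The stabiliser of the boundary word realises the symplectic group
-/

open scoped BigOperators
open Finset

namespace Pool.Agent.TOR.QD

open Pool.Agent.TOR.H29 Pool.Agent.TOR.H59

variable {n : ℕ}

/-- linear maps agreeing on the basis -/
theorem lin_ext {E : Type*} [AddCommGroup E] {A B : HH n →ₗ[ℤ] E}
    (h : ∀ a, A (bb a) = B (bb a)) : A = B := by
  apply LinearMap.ext
  intro x
  have e : x = ∑ a, x a • (bb a : HH n) := by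
    funext c
    rw [Finset.sum_apply, sum_eq_single c]
    · rw [Pi.smul_apply, bb_apply, if_pos rfl, smul_eq_mul, mul_one]
    · intro a _ ha
      rw [Pi.smul_apply, bb_apply, if_neg ha.symm, smul_zero]
    · intro h; exact absurd (mem_univ c) h
  rw [e, map_sum, map_sum]
  exact sum_congr rfl fun a _ => by rw [map_smul, map_smul, h]

/-- the action on the vectors of exponents -/
def acf (φ : MulAut (FreeGroup (Fin 2 × Fin n))) : Module.End ℤ (HH n) where
  toFun u := ∑ a, u a • ev (φ (FreeGroup.of a))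
  map_add' u v := by
    rw [← sum_add_distrib]
    exact sum_congr rfl fun a _ => by rw [Pi.add_apply, add_smul]
  map_smul' c u := by
    rw [smul_sum]
    exact sum_congr rfl fun a _ => by rw [Pi.smul_apply, smul_assoc, RingHom.id_apply]

theorem acf_bb (φ : MulAut (FreeGroup (Fin 2 × Fin n))) (a : Fin 2 × Fin n) :
    acf φ (bb a) = ev (φ (FreeGroup.of a)) := by
  show ∑ c, (bb a : HH n) c • ev (φ (FreeGroup.of c)) = _
  rw [sum_eq_single a]
  · rw [bb_apply, if_pos rfl, one_smul]
  · intro c _ hc
    rw [bb_apply, if_neg hc, zero_smul]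
  · intro h
    exact absurd (mem_univ a) h

theorem ev_ap (φ : MulAut (FreeGroup (Fin 2 × Fin n))) (x : FreeGroup (Fin 2 × Fin n)) :
    ev (φ x) = acf φ (ev x) := by
  induction x using FreeGroup.induction_on with
  | C1 => rw [map_one, ev_one, map_zero]
  | of a => rw [ev_of, ← acf_bb]
  | inv_of a h => rw [map_inv, ev_inv, ev_inv, map_neg, h]
  | mul x y hx hy => rw [map_mul, ev_mul, ev_mul, map_add, hx, hy]

/-- the action on the vectors of exponents -/
def ac : MulAut (FreeGroup (Fin 2 × Fin n)) →* Module.End ℤ (HH n) where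
  toFun := acf
  map_one' := by
    apply end_ext
    intro a
    rw [acf_bb, Module.End.one_apply]
    exact ev_of a
  map_mul' φ ψ := by
    apply end_ext
    intro a
    rw [acf_bb, Module.End.mul_apply, acf_bb, ← ev_ap]
    rfl

theorem ac_bb (φ : MulAut (FreeGroup (Fin 2 × Fin n))) (a : Fin 2 × Fin n) :
    ac φ (bb a) = ev (φ (FreeGroup.of a)) := acf_bb φ a

theorem ac_ev (φ : MulAut (FreeGroup (Fin 2 × Fin n))) (x : FreeGroup (Fin 2 × Fin n)) :
    ac φ (ev x) = ev (φ x) := (ev_ap φ x).symm

theorem ac_one_iff (φ : MulAut (FreeGroup (Fin 2 × Fin n))) :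
    (∀ x : FreeGroup (Fin 2 × Fin n), Abelianization.of (φ x) = Abelianization.of x) ↔ ac φ = 1 := by
  constructor
  · intro h
    apply end_ext
    intro a
    rw [ac_bb, ev_of_ab (h _), ev_of]
    rfl
  · intro h x
    apply ab_of_ev
    rw [← ac_ev, h]
    rfl

theorem ac_hom (hn : 0 < n) {φ : MulAut (FreeGroup (Fin 2 × Fin n))} (hφ : φ (zeta n) = zeta n)
    (x y : HH n) : omn n (ac φ x) (ac φ y) = omn n x y := by
  have h : (omn n).compl₁₂ (ac φ) (ac φ) = omn n := by
    apply lin_ext
    intro a
    apply lin_ext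
    intro c
    rw [LinearMap.compl₁₂_apply, ac_bb, ac_bb]
    have := sf_ap hn φ hφ (FreeGroup.of a) (FreeGroup.of c)
    rw [ev_of, ev_of] at this
    exact this
  exact LinearMap.congr_fun (LinearMap.congr_fun h x) y

/-! ### explicit automorphisms -/

/-- the letters -/
abbrev lx (i : Fin n) : FreeGroup (Fin 2 × Fin n) := FreeGroup.of ((0 : Fin 2), i)

/-- the letters -/
abbrev ly (i : Fin n) : FreeGroup (Fin 2 × Fin n) := FreeGroup.of ((1 : Fin 2), i)

/-- the commutator of a handle -/
def cm (i : Fin n) : FreeGroup (Fin 2 × Fin n) := lx i * ly i * (lx i)⁻¹ * (ly i)⁻¹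

theorem zeta_eq (n : ℕ) : zeta n = ((List.finRange n).map cm).prod := rfl

/-- an automorphism from two endomorphisms -/
def mkA (f g : Fin 2 × Fin n → FreeGroup (Fin 2 × Fin n))
    (h1 : ∀ c, FreeGroup.lift g (f c) = FreeGroup.of c)
    (h2 : ∀ c, FreeGroup.lift f (g c) = FreeGroup.of c) : MulAut (FreeGroup (Fin 2 × Fin n)) :=
  MonoidHom.toMulEquiv (FreeGroup.lift f) (FreeGroup.lift g)
    (by
      apply FreeGroup.ext_hom
      intro c
      rw [MonoidHom.comp_apply, FreeGroup.lift_apply_of, MonoidHom.id_apply, h1])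
    (by
      apply FreeGroup.ext_hom
      intro c
      rw [MonoidHom.comp_apply, FreeGroup.lift_apply_of, MonoidHom.id_apply, h2])

theorem mkA_of (f g : Fin 2 × Fin n → FreeGroup (Fin 2 × Fin n)) (h1 h2) (c : Fin 2 × Fin n) :
    mkA f g h1 h2 (FreeGroup.of c) = f c := FreeGroup.lift_apply_of

theorem mkA_lift (f g : Fin 2 × Fin n → FreeGroup (Fin 2 × Fin n)) (h1 h2) (x) :
    mkA f g h1 h2 x = FreeGroup.lift f x := rfl

/-- twist along the first letter of a handle -/
def tw0 (i : Fin n) : MulAut (FreeGroup (Fin 2 × Fin n)) :=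
  mkA (fun c => if c = (1, i) then ly i * lx i else FreeGroup.of c)
    (fun c => if c = (1, i) then ly i * (lx i)⁻¹ else FreeGroup.of c)
    (by
      intro c
      split_ifs with hc
      · rw [map_mul, FreeGroup.lift_apply_of, FreeGroup.lift_apply_of, if_pos rfl,
          if_neg (by simp), hc, inv_mul_cancel_right]
      · rw [FreeGroup.lift_apply_of, if_neg hc])
    (by
      intro c
      split_ifs with hc
      · rw [map_mul, map_inv, FreeGroup.lift_apply_of, FreeGroup.lift_apply_of, if_pos rfl,
          if_neg (by simp), hc, mul_inv_cancel_right]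
      · rw [FreeGroup.lift_apply_of, if_neg hc])

/-- twist along the second letter of a handle -/
def tw1 (i : Fin n) : MulAut (FreeGroup (Fin 2 × Fin n)) :=
  mkA (fun c => if c = (0, i) then lx i * (ly i)⁻¹ else FreeGroup.of c)
    (fun c => if c = (0, i) then lx i * ly i else FreeGroup.of c)
    (by
      intro c
      split_ifs with hc
      · rw [map_mul, map_inv, FreeGroup.lift_apply_of, FreeGroup.lift_apply_of, if_pos rfl,
          if_neg (by simp), hc, mul_inv_cancel_right]
      · rw [FreeGroup.lift_apply_of, if_neg hc])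
    (by
      intro c
      split_ifs with hc
      · rw [map_mul, FreeGroup.lift_apply_of, FreeGroup.lift_apply_of, if_pos rfl,
          if_neg (by simp), hc, inv_mul_cancel_right]
      · rw [FreeGroup.lift_apply_of, if_neg hc])

/-- the curve through two handles -/
def cc (i j : Fin n) : FreeGroup (Fin 2 × Fin n) := ly i * (lx i)⁻¹ * (ly i)⁻¹ * lx j

/-- the images of the letters for the twist along the curve through two handles -/
def fa (i j : Fin n) (z : FreeGroup (Fin 2 × Fin n)) (c : Fin 2 × Fin n) :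
    FreeGroup (Fin 2 × Fin n) :=
  if c = (1, i) then z⁻¹ * ly i else if c = (0, j) then z⁻¹ * lx j * z else
    if c = (1, j) then ly j * z else FreeGroup.of c

theorem fa_cc {i j : Fin n} (hij : i ≠ j) {z : FreeGroup (Fin 2 × Fin n)}
    (hz : Commute z (cc i j)) : FreeGroup.lift (fa i j z) (cc i j) = cc i j := by
  have e1 : FreeGroup.lift (fa i j z) (ly i) = z⁻¹ * ly i := by
    rw [FreeGroup.lift_apply_of]; unfold fa; rw [if_pos rfl]
  have e2 : FreeGroup.lift (fa i j z) (lx i) = lx i := by
    rw [FreeGroup.lift_apply_of]; unfold fa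
    rw [if_neg (by simp), if_neg (by simp [hij]), if_neg (by simp)]
  have e3 : FreeGroup.lift (fa i j z) (lx j) = z⁻¹ * lx j * z := by
    rw [FreeGroup.lift_apply_of]; unfold fa
    rw [if_neg (by simp), if_pos rfl]
  have e4 : FreeGroup.lift (fa i j z) (cc i j) = z⁻¹ * cc i j * z := by
    unfold cc
    rw [map_mul, map_mul, map_mul, map_inv, map_inv, e1, e2, e3]
    group
  rw [e4, mul_assoc, ← hz.eq, inv_mul_cancel_left]

theorem fa_inv {i j : Fin n} (hij : i ≠ j) {z : FreeGroup (Fin 2 × Fin n)}
    (hz : FreeGroup.lift (fa i j z⁻¹) z = z) (c : Fin 2 × Fin n) :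
    FreeGroup.lift (fa i j z⁻¹) (fa i j z c) = FreeGroup.of c := by
  have e1 : FreeGroup.lift (fa i j z⁻¹) (ly i) = z * ly i := by
    rw [FreeGroup.lift_apply_of]; unfold fa; rw [if_pos rfl, inv_inv]
  have e3 : FreeGroup.lift (fa i j z⁻¹) (lx j) = z * lx j * z⁻¹ := by
    rw [FreeGroup.lift_apply_of]; unfold fa
    rw [if_neg (by simp), if_pos rfl, inv_inv]
  have e4 : FreeGroup.lift (fa i j z⁻¹) (ly j) = ly j * z⁻¹ := by
    rw [FreeGroup.lift_apply_of]; unfold fa
    rw [if_neg (by simp [Ne.symm hij]), if_neg (by simp), if_pos rfl]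
  unfold fa at *
  by_cases h1 : c = (1, i)
  · rw [if_pos h1, map_mul, map_inv, hz, e1, inv_mul_cancel_left, h1]
  · rw [if_neg h1]
    by_cases h2 : c = (0, j)
    · rw [if_pos h2, map_mul, map_mul, map_inv, hz, e3, h2]
      group
    · rw [if_neg h2]
      by_cases h3 : c = (1, j)
      · rw [if_pos h3, map_mul, hz, e4, h3]
        group
      · rw [if_neg h3, FreeGroup.lift_apply_of, if_neg h1, if_neg h2, if_neg h3]

/-- the twist along the curve through two handles -/
def twc (i j : Fin n) (hij : i ≠ j) : MulAut (FreeGroup (Fin 2 × Fin n)) :=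
  mkA (fa i j (cc i j)) (fa i j (cc i j)⁻¹)
    (fun c => fa_inv hij (fa_cc hij (Commute.refl _).inv_left) c)
    (fun c => by
      have h := fa_inv hij (z := (cc i j)⁻¹) (by
        rw [inv_inv, map_inv, fa_cc hij (Commute.refl _)]) c
      rwa [inv_inv] at h)

/-- products over the list of all indices -/
theorem prod_two {G : Type*} [Group G] {i j : Fin n} (hij : j.val = i.val + 1) (f g : Fin n → G)
    (h1 : ∀ l, l ≠ i → l ≠ j → f l = g l) (h2 : f i * f j = g i * g j) :
    ((List.finRange n).map f).prod = ((List.finRange n).map g).prod := by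
  have hi := i.isLt
  have hj := j.isLt
  have e : List.finRange n = (List.finRange n).take i.val ++ (i :: j ::
      (List.finRange n).drop (i.val + 2)) := by
    conv_lhs => rw [← List.take_append_drop i.val (List.finRange n)]
    congr 1
    rw [List.drop_eq_getElem_cons (by rw [List.length_finRange]; exact hi),
      List.drop_eq_getElem_cons (by rw [List.length_finRange]; omega)]
    congr 1
    · simp
    · congr 1
      simp [Fin.ext_iff, hij]
  have k1 : ∀ l ∈ (List.finRange n).take i.val, f l = g l := by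
    intro l hl
    rw [List.mem_take_iff_getElem] at hl
    obtain ⟨k, hk, hl⟩ := hl
    have h3 : l.val = k := by rw [← hl]; simp
    rw [List.length_finRange] at hk
    exact h1 l (fun h => by subst h; omega) (fun h => by subst h; omega)
  have k2 : ∀ l ∈ (List.finRange n).drop (i.val + 2), f l = g l := by
    intro l hl
    rw [List.mem_drop_iff_getElem] at hl
    obtain ⟨k, hk, hl⟩ := hl
    have h3 : l.val = i.val + 2 + k := by rw [← hl]; simp
    exact h1 l (fun h => by subst h; omega) (fun h => by subst h; omega)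
  rw [e, List.map_append, List.map_append, List.prod_append, List.prod_append,
    List.map_congr_left k1]
  congr 1
  rw [List.map_cons, List.map_cons, List.map_cons, List.map_cons, List.prod_cons, List.prod_cons,
    List.prod_cons, List.prod_cons, List.map_congr_left k2, ← mul_assoc, ← mul_assoc, h2]

theorem fix_zeta (φ : MulAut (FreeGroup (Fin 2 × Fin n))) (h : ∀ i, φ (cm i) = cm i) :
    φ (zeta n) = zeta n := by
  rw [zeta_eq, map_list_prod, List.map_map]
  congr 1
  exact List.map_congr_left fun i _ => h i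

theorem tw0_zeta (i : Fin n) : tw0 i (zeta n) = zeta n := by
  apply fix_zeta
  intro j
  unfold cm tw0
  rw [map_mul, map_mul, map_mul, map_inv, map_inv, mkA_of, mkA_of, if_neg (by simp)]
  by_cases h : j = i
  · subst h
    rw [if_pos rfl]
    group
  · rw [if_neg (by simp [h])]

theorem tw1_zeta (i : Fin n) : tw1 i (zeta n) = zeta n := by
  apply fix_zeta
  intro j
  unfold cm tw1
  rw [map_mul, map_mul, map_mul, map_inv, map_inv, mkA_of, mkA_of]
  rw [if_neg (show ¬ (((1 : Fin 2), j) = ((0 : Fin 2), i)) by simp)]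
  by_cases h : j = i
  · subst h
    rw [if_pos rfl]
    group
  · rw [if_neg (by simp [h])]

theorem twc_zeta {i j : Fin n} (hij : i ≠ j) (hv : j.val = i.val + 1) :
    twc i j hij (zeta n) = zeta n := by
  have e1 : twc i j hij (ly i) = (cc i j)⁻¹ * ly i := by
    unfold twc; rw [mkA_of]; unfold fa; rw [if_pos rfl]
  have e2 : twc i j hij (lx i) = lx i := by
    unfold twc; rw [mkA_of]; unfold fa
    rw [if_neg (by simp), if_neg (by simp [hij]), if_neg (by simp)]
  have e3 : twc i j hij (lx j) = (cc i j)⁻¹ * lx j * cc i j := by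
    unfold twc; rw [mkA_of]; unfold fa
    rw [if_neg (by simp), if_pos rfl]
  have e4 : twc i j hij (ly j) = ly j * cc i j := by
    unfold twc; rw [mkA_of]; unfold fa
    rw [if_neg (by simp [Ne.symm hij]), if_neg (by simp), if_pos rfl]
  rw [zeta_eq, map_list_prod, List.map_map]
  refine prod_two hv _ _ ?_ ?_
  · intro l hli hlj
    rw [Function.comp_apply]
    unfold cm
    have h1 : twc i j hij (lx l) = lx l := by
      unfold twc; rw [mkA_of]; unfold fa
      rw [if_neg (by simp), if_neg (by simp [hlj]), if_neg (by simp)]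
    have h2 : twc i j hij (ly l) = ly l := by
      unfold twc; rw [mkA_of]; unfold fa
      rw [if_neg (by simp [hli]), if_neg (by simp), if_neg (by simp [hlj])]
    rw [map_mul, map_mul, map_mul, map_inv, map_inv, h1, h2]
  · rw [Function.comp_apply, Function.comp_apply]
    unfold cm
    rw [map_mul, map_mul, map_mul, map_inv, map_inv, map_mul, map_mul, map_mul, map_inv, map_inv,
      e1, e2, e3, e4]
    unfold cc
    group

/-! ### actions on the exponents -/

theorem ac_tw0 (i : Fin n) (x : HH n) : ac (tw0 i) x = x + omn n (bb (0, i)) x • bb (0, i) := by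
  have h : ac (tw0 i) = 1 + (LinearMap.toSpanSingleton ℤ (HH n) (bb (0, i))) ∘ₗ
      (omn n (bb (0, i))) := by
    apply end_ext
    intro a
    rw [ac_bb, LinearMap.add_apply, LinearMap.comp_apply, LinearMap.toSpanSingleton_apply,
      Module.End.one_apply, omn_b0, bb_apply]
    unfold tw0
    rw [mkA_of]
    by_cases ha : a = (1, i)
    · rw [if_pos ha, if_pos ha.symm, ha, ev_mul, ev_of, ev_of, one_smul]
    · rw [if_neg ha, if_neg (Ne.symm ha), ev_of, zero_smul, add_zero]
  rw [h]
  rfl

theorem ac_tw1 (i : Fin n) (x : HH n) : ac (tw1 i) x = x + omn n (bb (1, i)) x • bb (1, i) := by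
  have h : ac (tw1 i) = 1 + (LinearMap.toSpanSingleton ℤ (HH n) (bb (1, i))) ∘ₗ
      (omn n (bb (1, i))) := by
    apply end_ext
    intro a
    rw [ac_bb, LinearMap.add_apply, LinearMap.comp_apply, LinearMap.toSpanSingleton_apply,
      Module.End.one_apply, omn_b1, bb_apply]
    unfold tw1
    rw [mkA_of]
    by_cases ha : a = (0, i)
    · rw [if_pos ha, if_pos ha.symm, ha, ev_mul, ev_inv, ev_of, ev_of, neg_smul, one_smul]
    · rw [if_neg ha, if_neg (Ne.symm ha), ev_of, neg_zero, zero_smul, add_zero]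
  rw [h]
  rfl

theorem ev_cc (i j : Fin n) : ev (cc i j) = bb (0, j) - bb (0, i) := by
  unfold cc
  rw [ev_mul, ev_mul, ev_mul, ev_inv, ev_inv, ev_of, ev_of, ev_of]
  abel

theorem ac_twc {i j : Fin n} (hij : i ≠ j) (x : HH n) : ac (twc i j hij) x =
    x + omn n (bb (0, i) - bb (0, j)) x • (bb (0, i) - bb (0, j)) := by
  have h : ac (twc i j hij) = 1 + (LinearMap.toSpanSingleton ℤ (HH n)
      (bb (0, i) - bb (0, j))) ∘ₗ (omn n (bb (0, i) - bb (0, j))) := by
    apply end_ext
    intro a
    rw [ac_bb, LinearMap.add_apply, LinearMap.comp_apply, LinearMap.toSpanSingleton_apply,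
      Module.End.one_apply, map_sub, LinearMap.sub_apply, omn_b0, omn_b0, bb_apply, bb_apply]
    unfold twc
    rw [mkA_of]
    unfold fa
    by_cases h1 : a = (1, i)
    · rw [if_pos h1, if_pos h1.symm, h1, if_neg (by simp [Ne.symm hij]), ev_mul, ev_inv, ev_cc,
        ev_of]
      simp only [sub_zero, one_smul]
      abel
    · rw [if_neg h1, if_neg (Ne.symm h1)]
      by_cases h2 : a = (0, j)
      · rw [if_pos h2, h2, if_neg (by simp), ev_mul, ev_mul, ev_inv, ev_of]
        simp
      · rw [if_neg h2]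
        by_cases h3 : a = (1, j)
        · rw [if_pos h3, if_pos h3.symm, h3, ev_mul, ev_cc, ev_of]
          simp only [zero_sub, neg_smul, one_smul]
          abel
        · rw [if_neg h3, if_neg (Ne.symm h3), ev_of, sub_zero, zero_smul, add_zero]
  rw [h]
  rfl

/-! ### the stabiliser -/

section stab

variable {S : Subgroup (MulAut (FreeGroup (Fin 2 × Fin n)))}
  (hS : ∀ φ, φ ∈ S ↔ φ (zeta n) = zeta n)

include hS

theorem gen_stab (hn : 0 < n) : Gen ((ac (n := n)).comp S.subtype) (⊤ : Subgroup S) := by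
  constructor
  · intro g x y
    exact ac_hom hn ((hS _).1 g.2) x y
  · rintro ⟨s, i⟩
    fin_cases s
    · exact ⟨⟨tw0 i, (hS _).2 (tw0_zeta i)⟩, Subgroup.mem_top _, ac_tw0 i⟩
    · exact ⟨⟨tw1 i, (hS _).2 (tw1_zeta i)⟩, Subgroup.mem_top _, ac_tw1 i⟩
  · intro i j hij
    have hne : i ≠ j := fun h => by subst h; omega
    exact ⟨⟨twc i j hne, (hS _).2 (twc_zeta hne hij)⟩, Subgroup.mem_top _, ac_twc hne⟩

end stab

/-- transitivity of the stabiliser on unimodular vectors (module TRV) -/
theorem trv (hn : 0 < n) (v : HH n) (hv : ∃ w, sf v w = 1) :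
    ∃ φ : MulAut (FreeGroup (Fin 2 × Fin n)), φ (zeta n) = zeta n ∧
      ev (φ (FreeGroup.of (0, ⟨0, hn⟩))) = v := by
  set S : Subgroup (MulAut (FreeGroup (Fin 2 × Fin n))) :=
    MulAction.stabilizer (MulAut (FreeGroup (Fin 2 × Fin n))) (zeta n) with hSdef
  have hS : ∀ φ, φ ∈ S ↔ φ (zeta n) = zeta n := fun φ => MulAction.mem_stabilizer_iff
  obtain ⟨g, -, -, e⟩ := (gen_stab hS hn).trans (m := 0) (i0 := ⟨0, hn⟩) (Nat.zero_le _)
    (fun i hi => absurd hi (Nat.not_lt_zero _)) hv
  refine ⟨((g⁻¹ : S) : MulAut (FreeGroup (Fin 2 × Fin n))), (hS _).1 (g⁻¹ : S).2, ?_⟩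
  rw [← ac_bb, ← e]
  exact ab_inv (ab := (ac (n := n)).comp S.subtype) g v

end Pool.Agent.TOR.QD
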